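import Pool.Agent.N85.AW.Stm
import Pool.Agent.Y925.NV.Grp
import Pool.Agent.Y705.NV.Schur
import Pool.Agent.Y914.NV.Irr

/-!
# BRG: characters of defect zero and projective irreducible representations over `F`
(worker: helper284)
-/

set_option autoImplicit false
set_option linter.unusedSectionVars false

open scoped Classical BigOperators MonoidAlgebra

noncomputable section

namespace Pool.Agent.N85.AW.Brg

open Pool.Agent.Y63.AWC (IsIrreducibleCharacter)
open Pool.Agent.Y63.NV
open Pool.Agent.Y930.NV (Cf cv cv_eq_conv irr_Cf)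
open Pool.Agent.Y925.NV (kk md dz_iff red_zero cv_eq orth_self orth_ne tr_z)
open Pool.Agent.Y705.NV (opT opT_add opT_smul opT_conv opT_comm opT_scalar trace_opT conv_classFun)
open Pool.Agent.N85.WM
open Pool.Agent.Helper884.IC (Irr mem_Irr)

/-! ### the group algebra -/

section alg

variable {F : Type} [Field F] {J : Type} [Group J] [Fintype J]

/-- the element of the group algebra -/
def tA (f : J → F) : F[J] := ∑ g, f g • MonoidAlgebra.of F J g

theorem tA_coeff (f : J → F) (x : J) : (tA f).coeff x = f x := by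
  unfold tA
  rw [MonoidAlgebra.coeff_sum, Finsupp.finset_sum_apply, Finset.sum_eq_single x]
  · rw [MonoidAlgebra.coeff_smul_apply, MonoidAlgebra.of_apply, MonoidAlgebra.coeff_single,
      Finsupp.single_eq_same, smul_eq_mul, mul_one]
  · intro b _ hb
    rw [MonoidAlgebra.coeff_smul_apply, MonoidAlgebra.of_apply, MonoidAlgebra.coeff_single,
      Finsupp.single_eq_of_ne (Ne.symm hb), smul_zero]
  · intro h
    exact absurd (Finset.mem_univ _) h

theorem tA_of (x : F[J]) : ∃ a : J → F, x = tA a := by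
  refine ⟨fun g => x.coeff g, ?_⟩
  apply MonoidAlgebra.coeff_injective
  ext g
  rw [tA_coeff]

theorem tA_mul (f h : J → F) : tA f * tA h = tA (conv f h) := by
  unfold tA conv
  simp only [finsum_eq_sum_of_fintype, Finset.sum_smul]
  rw [Finset.sum_comm, Finset.sum_mul_sum]
  refine Finset.sum_congr rfl fun y _ => ?_
  rw [← Equiv.sum_comp (Equiv.mulLeft y) fun x => (f y * h (y⁻¹ * x)) • MonoidAlgebra.of F J x]
  refine Finset.sum_congr rfl fun x _ => ?_
  rw [Equiv.coe_mulLeft, inv_mul_cancel_left, map_mul, smul_mul_smul_comm]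

theorem tA_comm {f : J → F} (hf : IsClassFun f) (x : F[J]) : tA f * x = x * tA f := by
  obtain ⟨a, rfl⟩ := tA_of x
  unfold tA
  rw [Finset.sum_mul_sum, Finset.sum_mul_sum, Finset.sum_comm]
  refine Finset.sum_congr rfl fun h _ => ?_
  rw [← Equiv.sum_comp (MulAut.conj h).toEquiv fun g =>
    (f g • MonoidAlgebra.of F J g) * (a h • MonoidAlgebra.of F J h)]
  refine Finset.sum_congr rfl fun g _ => ?_
  have h1 : (MulAut.conj h).toEquiv g = h * g * h⁻¹ := rfl
  rw [h1, hf h g, smul_mul_smul_comm, smul_mul_smul_comm, ← map_mul, ← map_mul, mul_comm (f g)]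
  congr 2
  group

theorem asAlg {V : Type} [AddCommGroup V] [Module F V] (ρ : Representation F J V) (f : J → F) :
    ρ.asAlgebraHom (tA f) = opT ρ f := by
  unfold tA opT
  rw [map_sum]
  refine Finset.sum_congr rfl fun g _ => ?_
  rw [map_smul, Representation.asAlgebraHom_of]

set_option backward.isDefEq.respectTransparency false in
/-- a simple module on which `y` acts as one -/
theorem tr_mod {y : J → F} (M : Type) [AddCommGroup M] [Module F[J] M]
    (hsimple : IsSimpleModule F[J] M) (hact : ∀ m : M, tA y • m = m) :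
    ∃ φ : J → F, IsIrrTrace φ ∧ ∀ x : J, ∑ᶠ g : J, y g * φ (g * x) = 1 * φ x := by
  let ρ : Representation F J (RestrictScalars F F[J] M) :=
    Representation.ofModule (k := F) (G := J) M
  have hρ : ρ.IsIrreducible := (Representation.isSimpleModule_iff_irreducible_ofModule M).1 hsimple
  have hone : opT ρ y = 1 := by
    rw [← asAlg]
    ext m
    rw [Representation.ofModule_asAlgebraHom_apply_apply, hact]
    rfl
  have hfd : FiniteDimensional F (RestrictScalars F F[J] M) := by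
    have hnt : Nontrivial M := IsSimpleModule.nontrivial F[J] M
    obtain ⟨m, hm⟩ := exists_ne (0 : M)
    let L : F[J] →ₗ[F] RestrictScalars F F[J] M :=
      { toFun := fun a => (RestrictScalars.addEquiv F F[J] M).symm (a • m)
        map_add' := fun a b => by rw [add_smul, map_add]
        map_smul' := fun c a => by
          rw [RingHom.id_apply, ← RestrictScalars.addEquiv_symm_map_smul_smul] }
    refine Module.Finite.of_surjective L ?_
    intro w
    obtain ⟨a, ha⟩ := IsSimpleModule.toSpanSingleton_surjective F[J] hm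
      ((RestrictScalars.addEquiv F F[J] M) w)
    refine ⟨a, ?_⟩
    show (RestrictScalars.addEquiv F F[J] M).symm (a • m) = w
    rw [LinearMap.toSpanSingleton_apply] at ha
    rw [ha, AddEquiv.symm_apply_apply]
  refine ⟨ρ.character, ⟨RestrictScalars F F[J] M, inferInstance, inferInstance, hfd, ρ, hρ, rfl⟩, ?_⟩
  intro x
  rw [finsum_eq_sum_of_fintype, trace_opT, hone, one_mul, one_mul]
  rfl

/-- a nonzero central idempotent acts as one on an irreducible representation -/
theorem exists_tr {y : J → F} (hy : IsClassFun y) (hyy : conv y y = y) (hy0 : y ≠ 0) :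
    ∃ φ : J → F, IsIrrTrace φ ∧ ∀ x : J, ∑ᶠ g : J, y g * φ (g * x) = 1 * φ x := by
  have hYY : tA y * tA y = tA y := by rw [tA_mul, hyy]
  have hY0 : tA y ≠ 0 := by
    intro h
    apply hy0
    funext x
    rw [← tA_coeff y x, h]
    rfl
  let I : Submodule F[J] F[J] := Submodule.span F[J] {tA y}
  have hI : I ≠ ⊥ := by
    intro h
    rw [Submodule.span_singleton_eq_bot] at h
    exact hY0 h
  have hfin : Module.Finite F F[J] := inferInstance
  have hart : IsArtinianRing F[J] := IsArtinianRing.of_finite F F[J]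
  have hart2 : IsArtinian F[J] F[J] := hart
  have hat : IsAtomic (Submodule F[J] F[J]) := inferInstance
  obtain ⟨S, hS, hSI⟩ := (IsAtomic.eq_bot_or_exists_atom_le I).resolve_left hI
  have hsimple : IsSimpleModule F[J] S := isSimpleModule_iff_isAtom.2 hS
  have hact : ∀ s : S, tA y • s = s := by
    intro s
    apply Subtype.ext
    obtain ⟨a, ha⟩ := Submodule.mem_span_singleton.1 (hSI s.2)
    rw [Submodule.coe_smul, ← ha, smul_eq_mul, smul_eq_mul, tA_comm hy, mul_assoc, hYY]
  exact tr_mod S hsimple hact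

/-! ### averages -/

/-- the average of `β` over the group -/
def av (β : J → F) : J → F := fun x => ∑ g : J, β (g⁻¹ * x * g)

theorem av_cl (β : J → F) : IsClassFun (av β) := by
  intro h x
  unfold av
  rw [← Equiv.sum_comp (Equiv.mulLeft h) fun g => β (g⁻¹ * (h * x * h⁻¹) * g)]
  refine Finset.sum_congr rfl fun g _ => ?_
  congr 1
  rw [Equiv.coe_mulLeft]
  group

theorem opT_av {V : Type} [AddCommGroup V] [Module F V] (ρ : Representation F J V) (β : J → F) :
    opT ρ (av β) = ∑ g : J, ρ g * opT ρ β * ρ g⁻¹ := by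
  unfold av
  conv_lhs => unfold opT
  simp only [Finset.sum_smul]
  rw [Finset.sum_comm]
  refine Finset.sum_congr rfl fun g _ => ?_
  unfold opT
  rw [Finset.mul_sum, Finset.sum_mul,
    ← Equiv.sum_comp (MulAut.conj g).toEquiv fun x => β (g⁻¹ * x * g) • ρ x]
  refine Finset.sum_congr rfl fun x _ => ?_
  have h1 : (MulAut.conj g).toEquiv x = g * x * g⁻¹ := rfl
  have h2 : g⁻¹ * (g * x * g⁻¹) * g = x := by group
  rw [h1, h2, mul_smul_comm, smul_mul_assoc, ← map_mul, ← map_mul]

end alg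

section blk

variable {F : Type} [Field F] {J : Type} [Group J] [Fintype J]

theorem kk_inv (x : J) : kk x⁻¹ = kk x := by
  unfold kk
  refine Nat.card_congr (Equiv.subtypeEquivRight fun n => ?_)
  constructor
  · intro h
    have h2 : n * x * n⁻¹ = (n * x⁻¹ * n⁻¹)⁻¹ := by group
    rw [h2, h, inv_inv]
  · intro h
    have h2 : n * x⁻¹ * n⁻¹ = (n * x * n⁻¹)⁻¹ := by group
    rw [h2, h]

/-- a class function on the elements `x` with `|C(x)|` prime to `p` is an average -/
theorem exists_av {y : J → F} (hy : IsClassFun y) (hy0 : ∀ x, (kk x : F) = 0 → y x = 0) :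
    ∃ α : J → F, av α = y := by
  refine ⟨fun x => if x = (ConjClasses.mk x).out then y x / kk x else 0, ?_⟩
  funext x
  unfold av
  have hcl : ∀ g : J, y (g⁻¹ * x * g) = y x := by
    intro g
    have := hy g⁻¹ x
    rwa [inv_inv] at this
  have hkk : ∀ g : J, kk (g⁻¹ * x * g) = kk x := by
    intro g
    have := Pool.Agent.Y925.NV.kk_conj g⁻¹ x
    rwa [inv_inv] at this
  have hmk : ∀ g : J, ConjClasses.mk (g⁻¹ * x * g) = ConjClasses.mk x := by
    intro g
    have := Pool.Agent.Y930.NV.mk_conj g⁻¹ x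
    rwa [inv_inv] at this
  simp only [hcl, hkk, hmk]
  rw [← Finset.sum_filter, Finset.sum_const, nsmul_eq_mul]
  by_cases hx : (kk x : F) = 0
  · rw [hy0 x hx, zero_div, mul_zero]
  · have hcard : (Finset.univ.filter fun g : J => g⁻¹ * x * g = (ConjClasses.mk x).out).card =
        kk x := by
      have h1 : ConjClasses.mk (ConjClasses.mk x).out = ConjClasses.mk x :=
        Pool.Agent.Y930.NV.mk_out _
      rw [ConjClasses.mk_eq_mk_iff_isConj, isConj_iff] at h1
      obtain ⟨c, hc⟩ := h1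
      unfold kk
      rw [← Fintype.card_subtype, ← Nat.card_eq_fintype_card]
      refine Nat.card_congr
        { toFun := fun g => ⟨c * g.1⁻¹, ?_⟩
          invFun := fun n => ⟨n.1⁻¹ * c, ?_⟩
          left_inv := fun g => by
            apply Subtype.ext
            show (c * g.1⁻¹)⁻¹ * c = g.1
            group
          right_inv := fun n => by
            apply Subtype.ext
            show c * (n.1⁻¹ * c)⁻¹ = n.1
            group }
      · have h2 := g.2
        have h3 : c * g.1⁻¹ * x * (c * g.1⁻¹)⁻¹ = c * (g.1⁻¹ * x * g.1) * c⁻¹ := by group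
        rw [h3, h2, hc]
      · have h2 := n.2
        have h3 : (n.1⁻¹ * c)⁻¹ * x * (n.1⁻¹ * c) = c⁻¹ * (n.1 * x * n.1⁻¹) * c := by group
        have h4 : c⁻¹ * x * c = (ConjClasses.mk x).out := by
          have h5 : ∀ u : J, c * u * c⁻¹ = x → c⁻¹ * x * c = u := by
            intro u hu
            rw [← hu]
            group
          exact h5 _ hc
        show (n.1⁻¹ * c)⁻¹ * x * (n.1⁻¹ * c) = (ConjClasses.mk x).out
        rw [h3, h2, h4]
    rw [hcard]
    field_simp

/-- linear combinations -/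
theorem blk_sum {B : (J → F) → F} (hB : IsBlock B) {ι : Type} (s : Finset ι) (a : ι → F)
    (f : ι → J → F) (hf : ∀ i ∈ s, IsClassFun (f i)) :
    IsClassFun (∑ i ∈ s, a i • f i) ∧ B (∑ i ∈ s, a i • f i) = ∑ i ∈ s, a i * B (f i) := by
  induction s using Finset.induction_on with
  | empty =>
    have h0 : IsClassFun (0 : J → F) := fun _ _ => rfl
    refine ⟨by rw [Finset.sum_empty]; exact h0, ?_⟩
    rw [Finset.sum_empty, Finset.sum_empty]
    have := hB.smul 0 0 h0
    rwa [zero_smul, zero_mul] at this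
  | insert k T hk ih =>
    obtain ⟨h1, h2⟩ := ih fun i hi => hf i (Finset.mem_insert_of_mem hi)
    have h3 := hf k (Finset.mem_insert_self _ _)
    rw [Finset.sum_insert hk, Finset.sum_insert hk]
    refine ⟨cl_add (cl_smul _ h3) h1, ?_⟩
    rw [hB.add _ _ (cl_smul _ h3) h1, hB.smul _ _ h3, h2]

variable (red : integralClosure ℤ ℂ →+* F)

/-- a multiple of the reduced central idempotent -/
def yy (χ : J → ℂ) : J → F := fun g => redC red (χ g⁻¹)

theorem yy_cl {χ : J → ℂ} (h : IsIrreducibleCharacter χ) : IsClassFun (yy red χ) := by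
  intro g x
  unfold yy
  have h1 : (g * x * g⁻¹)⁻¹ = g * x⁻¹ * g⁻¹ := by group
  rw [h1, irr_Cf h]

theorem yy_z0 {χ : J → ℂ} (h : IsIrreducibleCharacter χ) (hd : (md χ : F) ≠ 0) (x : J)
    (hx : (kk x : F) = 0) : yy red χ x = 0 :=
  red_zero red h hd (by rw [kk_inv]; exact hx)

theorem conv_yy {χ : J → ℂ} (h : IsIrreducibleCharacter χ) {z : J → F} (hz : IsClassFun z) :
    conv z (yy red χ) = centralValue red χ z • yy red χ := by
  funext x
  rw [cv_eq_conv, Pi.smul_apply, smul_eq_mul]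
  unfold cv yy
  rw [← tr_z red h hz x⁻¹]
  refine Finset.sum_congr rfl fun y _ => ?_
  congr 2
  group

theorem yy_self {χ : J → ℂ} (h : IsIrreducibleCharacter χ) :
    centralValue red χ (yy red χ) = (md χ : F) := orth_self red h

theorem yy_ne {χ ψ : J → ℂ} (hχ : IsIrreducibleCharacter χ) (hψ : IsIrreducibleCharacter ψ)
    (hne : ψ ≠ χ) : centralValue red ψ (yy red χ) = 0 := orth_ne red hχ hψ hne

/-- (a) -/
theorem blk_a {B : (J → F) → F} (hB : IsBlock B) {χ : J → ℂ} (h : IsIrreducibleCharacter χ)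
    (hne : B (yy red χ) ≠ 0) : BEq B (centralValue red χ) := by
  intro f hf
  have h1 := hB.mul f (yy red χ) hf (yy_cl red h)
  rw [conv_yy red h hf, hB.smul _ _ (yy_cl red h)] at h1
  exact (mul_right_cancel₀ hne h1).symm

/-- (b) -/
theorem blk_b {B : (J → F) → F} (hB : IsBlock B) {y : J → F} (hy : IsClassFun y)
    (hy0 : ∀ x, (kk x : F) = 0 → y x = 0) (hne : B y ≠ 0) :
    ∃ χ : J → ℂ, IsIrreducibleCharacter χ ∧ (md χ : F) ≠ 0 ∧ B (yy red χ) ≠ 0 := by
  have h1 : conv y y = ∑ χ ∈ Irr J, ((md χ : F)⁻¹ * centralValue red χ y * centralValue red χ y) •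
      yy red χ := by
    funext g
    rw [cv_eq_conv, cv_eq red hy hy hy0 hy0 g, Finset.sum_apply]
    rfl
  have h2 := hB.mul y y hy hy
  rw [h1, (blk_sum hB (Irr J) _ _ fun χ hχ => yy_cl red (mem_Irr.1 hχ)).2] at h2
  by_contra hcon
  push Not at hcon
  have h3 : ∑ χ ∈ Irr J, (md χ : F)⁻¹ * centralValue red χ y * centralValue red χ y *
      B (yy red χ) = 0 := by
    refine Finset.sum_eq_zero fun χ hχ => ?_
    by_cases hm : (md χ : F) = 0
    · rw [hm]
      simp
    · rw [hcon χ (mem_Irr.1 hχ) hm, mul_zero]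
  rw [h3] at h2
  exact mul_ne_zero hne hne h2.symm

end blk

/-! ### uniqueness -/

section uniq

variable {F : Type} [Field F] [IsAlgClosed F] {J : Type} [Group J] [Fintype J]

theorem uniq (φ ψ : {φ : J → F // IsIrrTrace φ}) (h : BEq (blkOf φ) (blkOf ψ)) {y : J → F}
    (hy : IsClassFun y) (hy0 : ∀ x, (kk x : F) = 0 → y x = 0) (hne : blkOf φ y ≠ 0) : φ = ψ := by
  by_contra hcon
  apply hne
  obtain ⟨V, i1, i2, i3, ρ, hρ, hφ⟩ := φ.2
  obtain ⟨x, hx1, W, k1, k2, k3, σ, hσ, hψ, hx2⟩ :=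
    Pool.Agent.Y914.NV.pairK ρ hρ ψ.1 ψ.2 (fun h => hcon (Subtype.ext (by rw [hφ, ← h])))
  obtain ⟨a, rfl⟩ := tA_of x
  rw [asAlg] at hx1 hx2
  obtain ⟨α, hα⟩ := exists_av hy hy0
  have e1 : opT ρ (av (conv a α)) = opT ρ y := by
    rw [← hα, opT_av, opT_av, opT_conv, hx1, one_mul]
  have e2 : opT σ (av (conv a α)) = 0 := by
    rw [opT_av, opT_conv, hx2, zero_mul]
    simp
  have hc := av_cl (conv a α)
  have e3 : blkOf φ (av (conv a α)) = blkOf φ y := by
    rw [← blkOf_iff φ hc]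
    intro z
    rw [← blkOf_spec φ hy, finsum_eq_sum_of_fintype, finsum_eq_sum_of_fintype, hφ, trace_opT,
      trace_opT, e1]
  have e4 : blkOf ψ (av (conv a α)) = 0 := by
    rw [← blkOf_iff ψ hc]
    intro z
    rw [finsum_eq_sum_of_fintype, hψ, trace_opT, e2, zero_mul, map_zero, zero_mul]
  rw [← e3, h _ hc, e4]

end uniq

/-! ### the theorem -/

theorem wt_iff {p : ℕ} [Fact p.Prime] {F : Type} [Field F] [CharP F p] {J : Type} [Group J]
    [Fintype J] {χ : J → ℂ} : IsWt p (⊥ : Subgroup J) χ ↔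
      IsIrreducibleCharacter χ ∧ (md χ : F) ≠ 0 := by
  have hb : (Nat.card (⊥ : Subgroup J)).factorization p = 0 := by
    rw [Subgroup.card_bot]
    simp
  constructor
  · rintro ⟨h1, -, n, hn, h3⟩
    refine ⟨h1, ?_⟩
    rw [ne_eq, CharP.cast_eq_zero_iff F p]
    refine (dz_iff h1).1 ⟨n, hn, ?_⟩
    omega
  · rintro ⟨h1, h2⟩
    rw [ne_eq, CharP.cast_eq_zero_iff F p] at h2
    obtain ⟨n, hn, h3⟩ := (dz_iff h1).2 h2
    refine ⟨h1, ?_, n, hn, by omega⟩
    intro q hq x
    rw [Subgroup.mem_bot] at hq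
    rw [hq, one_mul]

theorem kk_cent {J : Type} [Group J] (x : J) :
    kk x = Nat.card (Subgroup.centralizer ({x} : Set J)) := by
  unfold kk
  refine Nat.card_congr (Equiv.subtypeEquivRight fun n => ?_)
  rw [Subgroup.mem_centralizer_singleton_iff, mul_inv_eq_iff_eq_mul]
  

theorem main (_h : S_DENS) : S_BRG := by
  intro p _ F _ _ _ red J _ _ z c hz
  have : Fintype J := Fintype.ofFinite J
  have hblk : ∀ {χ : J → ℂ}, IsIrreducibleCharacter χ → IsBlock (centralValue red χ) :=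
    fun h => Pool.Agent.Y930.NV.cvh F red J _ h
  -- the trace of a character
  have hex : ∀ χ : {χ : J → ℂ // IsIrreducibleCharacter χ ∧ (md χ : F) ≠ 0},
      ∃ φ : {φ : J → F // IsIrrTrace φ}, BEq (blkOf φ) (centralValue red χ.1) := by
    intro χ
    have hs := yy_self red χ.2.1
    obtain ⟨y, hy⟩ : ∃ y : J → F, y = (md χ.1 : F)⁻¹ • yy red χ.1 := ⟨_, rfl⟩
    have hyc : IsClassFun y := by rw [hy]; exact cl_smul _ (yy_cl red χ.2.1)
    have hy1 : centralValue red χ.1 y = 1 := by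
      rw [hy, (hblk χ.2.1).smul _ _ (yy_cl red χ.2.1), hs, inv_mul_cancel₀ χ.2.2]
    have hconv : conv y y = y := by
      have h1 := conv_yy red χ.2.1 hyc
      rw [hy1, one_smul] at h1
      have h2 : conv y y = (md χ.1 : F)⁻¹ • conv y (yy red χ.1) := by
        funext x
        rw [Pi.smul_apply, smul_eq_mul, cv_eq_conv, cv_eq_conv]
        unfold cv
        rw [Finset.mul_sum]
        refine Finset.sum_congr rfl fun w _ => ?_
        conv_lhs =>
          enter [2]
          rw [hy]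
        rw [Pi.smul_apply, smul_eq_mul]
        ring
      rw [h2, h1, ← hy]
    have hyne : y ≠ 0 := by
      intro h0
      rw [h0] at hy1
      have h0c : IsClassFun (0 : J → F) := fun _ _ => rfl
      have h3 := (hblk χ.2.1).smul 0 0 h0c
      rw [zero_smul, zero_mul, hy1] at h3
      exact one_ne_zero h3
    obtain ⟨φ, hφ, h1⟩ := exists_tr hyc hconv hyne
    refine ⟨⟨φ, hφ⟩, ?_⟩
    have h2 := (blkOf_iff ⟨φ, hφ⟩ hyc 1).1 h1
    apply blk_a red (blkOf_block _) χ.2.1
    intro h3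
    rw [hy, (blkOf_block _).smul _ _ (yy_cl red χ.2.1), h3, mul_zero] at h2
    exact zero_ne_one h2
  choose Φ hΦ using hex
  unfold Nw
  have hhig : ∀ φ : {φ : J → F // IsIrrTrace φ}, Hig p φ.1 ↔
      ∃ y : J → F, IsClassFun y ∧ (∀ x, (kk x : F) = 0 → y x = 0) ∧ blkOf φ y = 1 := by
    intro φ
    unfold Hig Acts
    constructor
    · rintro ⟨y, h1, h2, h3⟩
      refine ⟨y, h1, fun x hx => h2 x ?_, (blkOf_iff φ h1 1).1 h3⟩
      rw [kk_cent, CharP.cast_eq_zero_iff F p] at hx
      exact hx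
    · rintro ⟨y, h1, h2, h3⟩
      refine ⟨y, h1, fun x hx => h2 x ?_, (blkOf_iff φ h1 1).2 h3⟩
      rw [kk_cent, CharP.cast_eq_zero_iff F p]
      exact hx
  have hP : ∀ χ : {χ : J → ℂ // IsIrreducibleCharacter χ ∧ (md χ : F) ≠ 0}, Hig p (Φ χ).1 := by
    intro χ
    rw [hhig]
    refine ⟨(md χ.1 : F)⁻¹ • yy red χ.1, cl_smul _ (yy_cl red χ.2.1), ?_, ?_⟩
    · intro x hx
      rw [Pi.smul_apply, yy_z0 red χ.2.1 χ.2.2 x hx, smul_zero]
    · rw [(blkOf_block _).smul _ _ (yy_cl red χ.2.1), hΦ χ _ (yy_cl red χ.2.1),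
        yy_self red χ.2.1, inv_mul_cancel₀ χ.2.2]
  refine Nat.card_congr (Equiv.ofBijective
    (fun χ : {χ : J → ℂ // IsWt p (⊥ : Subgroup J) χ ∧ centralValue red χ z = c} =>
      (⟨(Φ ⟨χ.1, (wt_iff (F := F)).1 χ.2.1⟩).1, (Φ ⟨χ.1, (wt_iff (F := F)).1 χ.2.1⟩).2,
        hP _, (blkOf_iff _ hz c).2 (by rw [hΦ _ z hz]; exact χ.2.2)⟩ :
        {φ : J → F // IsIrrTrace φ ∧ Hig p φ ∧ Acts z c φ})) ⟨?_, ?_⟩)
  · intro χ χ' hχ
    have h1 : Φ ⟨χ.1, (wt_iff (F := F)).1 χ.2.1⟩ = Φ ⟨χ'.1, (wt_iff (F := F)).1 χ'.2.1⟩ := by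
      apply Subtype.ext
      have h0 := congrArg (fun t : {φ : J → F // IsIrrTrace φ ∧ Hig p φ ∧ Acts z c φ} => t.1) hχ
      exact h0
    by_contra hne
    have hne' : χ'.1 ≠ χ.1 := fun h => hne (Subtype.ext h.symm)
    have w1 := (wt_iff (F := F)).1 χ.2.1
    have w2 := (wt_iff (F := F)).1 χ'.2.1
    have h2 := hΦ ⟨χ.1, w1⟩ _ (yy_cl red w1.1)
    have h3 := hΦ ⟨χ'.1, w2⟩ _ (yy_cl red w1.1)
    rw [h1] at h2
    rw [h2] at h3
    have h4 : centralValue red χ.1 (yy red χ.1) = centralValue red χ'.1 (yy red χ.1) := h3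
    rw [yy_self red w1.1, yy_ne red w1.1 w2.1 hne'] at h4
    exact w1.2 h4
  · rintro ⟨φ, h1, h2, h3⟩
    obtain ⟨y, hy1, hy2, hy3⟩ := (hhig ⟨φ, h1⟩).1 h2
    obtain ⟨χ, hχ, hm, hne⟩ := blk_b red (blkOf_block ⟨φ, h1⟩) hy1 hy2
      (by rw [hy3]; exact one_ne_zero)
    have hB := blk_a red (blkOf_block ⟨φ, h1⟩) hχ hne
    have hw : IsWt p (⊥ : Subgroup J) χ := (wt_iff (F := F)).2 ⟨hχ, hm⟩
    refine ⟨⟨χ, hw, ?_⟩, ?_⟩
    · rw [← hB z hz]
      exact (blkOf_iff ⟨φ, h1⟩ hz c).1 h3
    · apply Subtype.ext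
      show (Φ ⟨χ, _⟩).1 = φ
      have h4 : (⟨φ, h1⟩ : {φ : J → F // IsIrrTrace φ}) = Φ ⟨χ, (wt_iff (F := F)).1 hw⟩ := by
        refine uniq _ _ ?_ hy1 hy2 (by rw [hy3]; exact one_ne_zero)
        exact hB.trans (hΦ ⟨χ, (wt_iff (F := F)).1 hw⟩).symm
      rw [← h4]

end Pool.Agent.N85.AW.Brg
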