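import Pool.Agent.N85.AW.Stm
import Pool.Agent.Y914.NV.Irr

/-!
# Project AWP, REL: crude Clifford theory for irreducible representations
-/

set_option autoImplicit false
set_option linter.unusedSectionVars false

noncomputable section

namespace Pool.Agent.N85.AW.Rel

open Pool.Agent.Y63.NV Pool.Agent.Y914.NV Representation
open scoped MonoidAlgebra

section basic

variable {F : Type} [Field F] {G : Type} [Group G] {V W : Type} [AddCommGroup V] [Module F V]
  [AddCommGroup W] [Module F W]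

/-- invariant subspaces -/
def Inv (ρ : Representation F G V) (U : Submodule F V) : Prop := ∀ g, ∀ v ∈ U, ρ g v ∈ U

lemma irr_iff (ρ : Representation F G V) :
    ρ.IsIrreducible ↔ Nontrivial V ∧ ∀ U, Inv ρ U → U = ⊥ ∨ U = ⊤ := by
  constructor
  · intro h
    constructor
    · by_contra hn
      rw [not_nontrivial_iff_subsingleton] at hn
      obtain ⟨a, b, hab⟩ := h.exists_pair_ne
      apply hab
      apply Subrepresentation.toSubmodule_injective
      exact Subsingleton.elim _ _
    · intro U hU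
      rcases h.eq_bot_or_eq_top ⟨U, fun g v hv => hU g v hv⟩ with h1 | h1
      · left
        exact congrArg Subrepresentation.toSubmodule h1
      · right
        exact congrArg Subrepresentation.toSubmodule h1
  · rintro ⟨hn, h⟩
    refine { exists_pair_ne := ⟨⊥, ⊤, ?_⟩, eq_bot_or_eq_top := ?_ }
    · intro h1
      have h2 : (⊥ : Submodule F V) = ⊤ := congrArg Subrepresentation.toSubmodule h1
      exact bot_ne_top h2
    · intro a
      rcases h a.toSubmodule (fun g v hv => a.apply_mem_toSubmodule g hv) with h1 | h1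
      · left
        exact Subrepresentation.toSubmodule_injective h1
      · right
        exact Subrepresentation.toSubmodule_injective h1

lemma inter_bij {ρ : Representation F G V} {σ : Representation F G W} (hρ : ρ.IsIrreducible)
    (hσ : σ.IsIrreducible) (T : V →ₗ[F] W) (hT : ∀ g v, T (ρ g v) = σ g (T v)) (h0 : T ≠ 0) :
    Function.Bijective T := by
  rw [irr_iff] at hρ hσ
  constructor
  · rw [← LinearMap.ker_eq_bot]
    refine (hρ.2 (LinearMap.ker T) ?_).resolve_right ?_
    · intro g v hv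
      rw [LinearMap.mem_ker] at hv ⊢
      rw [hT, hv, map_zero]
    · intro h
      exact h0 (LinearMap.ker_eq_top.1 h)
  · rw [← LinearMap.range_eq_top]
    refine (hσ.2 (LinearMap.range T) ?_).resolve_left ?_
    · rintro g _ ⟨v, rfl⟩
      exact ⟨ρ g v, hT g v⟩
    · intro h
      exact h0 (LinearMap.range_eq_bot.1 h)

lemma char_eq {ρ : Representation F G V} {σ : Representation F G W} (T : V →ₗ[F] W)
    (hT : ∀ g v, T (ρ g v) = σ g (T v)) (hb : Function.Bijective T) :
    ρ.character = σ.character := by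
  funext g
  obtain ⟨e, he⟩ : ∃ e : V ≃ₗ[F] W, ∀ v, e v = T v := ⟨LinearEquiv.ofBijective T hb, fun _ => rfl⟩
  have h2 : σ g = e.conj (ρ g) := by
    ext w
    rw [LinearEquiv.conj_apply_apply, he, hT, ← he, LinearEquiv.apply_symm_apply]
  rw [character, character, h2, LinearMap.trace_conj']

lemma inter_alg {ρ : Representation F G V} {σ : Representation F G W} (T : V →ₗ[F] W)
    (hT : ∀ g v, T (ρ g v) = σ g (T v)) (x : F[G]) (v : V) :
    T (ρ.asAlgebraHom x v) = σ.asAlgebraHom x (T v) := by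
  induction x using MonoidAlgebra.induction_linear with
  | zero => simp
  | add x y hx hy => rw [map_add, map_add, LinearMap.add_apply, LinearMap.add_apply, map_add, hx, hy]
  | single g a =>
    rw [asAlgebraHom_single, asAlgebraHom_single, LinearMap.smul_apply, LinearMap.smul_apply,
      map_smul, hT]

end basic

section alg

variable {F : Type} [Field F] [IsAlgClosed F] {G : Type} [Group G] [Finite G] {V W : Type}
  [AddCommGroup V] [Module F V] [AddCommGroup W] [Module F W] [FiniteDimensional F V]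
  [FiniteDimensional F W]

lemma exists_iso {ρ : Representation F G V} {σ : Representation F G W} (hρ : ρ.IsIrreducible)
    (hσ : σ.IsIrreducible) (h : ρ.character = σ.character) :
    ∃ T : V →ₗ[F] W, T ≠ 0 ∧ ∀ g v, T (ρ g v) = σ g (T v) := by
  classical
  have := Fintype.ofFinite G
  by_contra hcon
  push Not at hcon
  have hE : IsEmpty (ρ.asModule ≃ₗ[F[G]] σ.asModule) := by
    refine ⟨fun e => ?_⟩
    let e2 : V ≃ₗ[F] W := ρ.asModuleEquiv.symm.trans ((e.restrictScalars F).trans σ.asModuleEquiv)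
    have h1 : ∀ (g : G) (v : V), e2 (ρ g v) = σ g (e2 v) := by
      intro g v
      show σ.asModuleEquiv (e (ρ.asModuleEquiv.symm (ρ g v))) =
        σ g (σ.asModuleEquiv (e (ρ.asModuleEquiv.symm v)))
      rw [asModuleEquiv_symm_map_rho, map_smul, asModuleEquiv_map_smul, asAlgebraHom_of]
    obtain ⟨g, v, hgv⟩ := hcon (e2 : V →ₗ[F] W) (by
      have hn := ((irr_iff ρ).1 hρ).1
      obtain ⟨v, hv⟩ := exists_ne (0 : V)
      intro h0
      apply hv
      apply e2.injective
      rw [map_zero]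
      exact LinearMap.congr_fun h0 v)
    exact hgv (h1 g v)
  have i1 := hρ
  have i2 := hσ
  obtain ⟨a, ha, hb⟩ := pair (F := F) (A := F[G]) hE
  obtain ⟨b, hb1⟩ := trace_one ρ hρ
  obtain ⟨c, hc⟩ := expand (b * a)
  have e1 : ρ.asAlgebraHom a = 1 := by
    ext v
    rw [act, ha, LinearEquiv.apply_symm_apply, Module.End.one_apply]
  have e2 : σ.asAlgebraHom a = 0 := by
    ext v
    rw [act, hb, map_zero, LinearMap.zero_apply]
  have e3 : LinearMap.trace F V (ρ.asAlgebraHom (b * a)) = 1 := by rw [map_mul, e1, mul_one, hb1]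
  have e4 : LinearMap.trace F W (σ.asAlgebraHom (b * a)) = 0 := by
    rw [map_mul, e2, mul_zero, map_zero]
  rw [hc, trace_expand, h, ← trace_expand, ← hc, e4] at e3
  exact zero_ne_one e3

lemma kill_all {σ : Representation F G W} (hσ : σ.IsIrreducible) {x : F[G]}
    (h : Kill σ.character x) : σ.asAlgebraHom x = 0 := by
  obtain ⟨V, i1, i2, i3, ρ, hρ, hch, hx⟩ := h
  obtain ⟨T, hT0, hT⟩ := exists_iso hρ hσ hch.symm
  have hb := inter_bij hρ hσ T hT hT0
  ext w
  obtain ⟨v, rfl⟩ := hb.2 w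
  rw [← inter_alg T hT, hx, LinearMap.zero_apply, map_zero, LinearMap.zero_apply]

/-- an element which acts as `1` on one and as `0` on the other irreducible representations -/
lemma sep {ι : Type} [Fintype ι] {Vs : ι → Type} [∀ i, AddCommGroup (Vs i)] [∀ i, Module F (Vs i)]
    [∀ i, FiniteDimensional F (Vs i)] (ρs : ∀ i, Representation F G (Vs i))
    (hρs : ∀ i, (ρs i).IsIrreducible)
    (hne : ∀ i j, i ≠ j → (ρs i).character ≠ (ρs j).character) (i : ι) :
    ∃ x : F[G], (ρs i).asAlgebraHom x = 1 ∧ ∀ j, j ≠ i → (ρs j).asAlgebraHom x = 0 := by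
  classical
  obtain ⟨x, hx1, hx2⟩ := manyK (ρs i) (hρs i)
    ((Finset.univ.erase i).image fun j => (ρs j).character) (by
      intro ψ hψ
      obtain ⟨j, hj, rfl⟩ := Finset.mem_image.1 hψ
      exact ⟨⟨Vs j, inferInstance, inferInstance, inferInstance, ρs j, hρs j, rfl⟩,
        hne j i (Finset.ne_of_mem_erase hj)⟩)
  refine ⟨x, hx1, fun j hj => kill_all (hρs j) (hx2 _ ?_)⟩
  exact Finset.mem_image.2 ⟨j, Finset.mem_erase.2 ⟨hj, Finset.mem_univ _⟩, rfl⟩

end alg

lemma card_le_of_finset {α : Type} {m : ℕ} (h : ∀ S : Finset α, S.card ≤ m) : Nat.card α ≤ m := by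
  rcases finite_or_infinite α with h1 | h1
  · have := Fintype.ofFinite α
    rw [Nat.card_eq_fintype_card]
    exact h Finset.univ
  · rw [Nat.card_eq_zero_of_infinite]
    exact Nat.zero_le _


/-! ### Normal subgroups -/

section cliff

variable {F : Type} [Field F] {J : Type} [Group J] {X : Subgroup J} [hXn : X.Normal]
  {V W : Type} [AddCommGroup V] [Module F V] [AddCommGroup W] [Module F W]

lemma out_factor (g : J) : ∃ x : X, g = x * (QuotientGroup.mk g : J ⧸ X).out := by
  obtain ⟨h, hh⟩ := QuotientGroup.mk_out_eq_mul X g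
  refine ⟨⟨(QuotientGroup.mk g : J ⧸ X).out * (h : J)⁻¹ * (QuotientGroup.mk g : J ⧸ X).out⁻¹,
    hXn.conj_mem _ (X.inv_mem h.2) _⟩, ?_⟩
  simp only [inv_mul_cancel_right]
  rw [hh, mul_inv_cancel_right]

lemma ker_core {ρ : Representation F J V} (hρ : ρ.IsIrreducible) {π : V →ₗ[F] W} (hπ : π ≠ 0)
    {v : V} (h : ∀ g : J, π (ρ g v) = 0) : v = 0 := by
  rw [irr_iff] at hρ
  obtain ⟨U, hU⟩ : ∃ U : Submodule F V, ∀ v, v ∈ U ↔ ∀ g : J, π (ρ g v) = 0 := by
    refine ⟨⨅ g : J, LinearMap.ker (π ∘ₗ ρ g), fun v => ?_⟩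
    rw [Submodule.mem_iInf]
    rfl
  rcases hρ.2 U (by
    intro g v hv
    rw [hU] at hv ⊢
    intro g'
    have := hv (g' * g)
    rw [map_mul] at this
    exact this) with h1 | h1
  · have h2 : v ∈ U := (hU v).2 h
    rw [h1] at h2
    exact (Submodule.mem_bot F).1 h2
  · exfalso
    apply hπ
    ext w
    have h2 : w ∈ U := by rw [h1]; trivial
    have h3 := (hU w).1 h2 1
    rw [map_one] at h3
    exact h3

lemma vanish {ρ : Representation F J V} {σ : Representation F X W} (π : V →ₗ[F] W)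
    (hπ : ∀ (x : X) (v : V), π (ρ x v) = σ x (π v)) {v : V}
    (h : ∀ q : J ⧸ X, π (ρ q.out v) = 0) (g : J) : π (ρ g v) = 0 := by
  obtain ⟨x, hx⟩ := out_factor (X := X) g
  rw [hx, map_mul]
  show π (ρ x (ρ _ v)) = 0
  rw [hπ, h, map_zero]

lemma dim_le [Finite J] [FiniteDimensional F V] [FiniteDimensional F W] {ρ : Representation F J V}
    (hρ : ρ.IsIrreducible) {σ : Representation F X W} {π : V →ₗ[F] W} (h0 : π ≠ 0)
    (hπ : ∀ (x : X) (v : V), π (ρ x v) = σ x (π v)) :
    Module.finrank F V ≤ Nat.card (J ⧸ X) * Module.finrank F W := by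
  classical
  have := Fintype.ofFinite (J ⧸ X)
  have h1 : Function.Injective (LinearMap.pi fun q : J ⧸ X => π ∘ₗ ρ q.out) := by
    rw [← LinearMap.ker_eq_bot, LinearMap.ker_eq_bot']
    intro v hv
    refine ker_core hρ h0 (vanish (X := X) π hπ fun q => ?_)
    exact congrFun hv q
  have h2 := LinearMap.finrank_le_finrank_of_injective h1
  rw [Module.finrank_pi_fintype, Finset.sum_const, Finset.card_univ, smul_eq_mul,
    ← Nat.card_eq_fintype_card] at h2
  exact h2

lemma pi_surj {ρ : Representation F J V} {σ : Representation F X W} (hσ : σ.IsIrreducible)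
    {π : V →ₗ[F] W} (h0 : π ≠ 0) (hπ : ∀ (x : X) (v : V), π (ρ x v) = σ x (π v)) :
    Function.Surjective π := by
  rw [irr_iff] at hσ
  rw [← LinearMap.range_eq_top]
  refine (hσ.2 (LinearMap.range π) ?_).resolve_left ?_
  · rintro g _ ⟨v, rfl⟩
    exact ⟨ρ g v, hπ g v⟩
  · intro h
    exact h0 (LinearMap.range_eq_bot.1 h)

/-- the restriction -/
def rs (X : Subgroup J) (ρ : Representation F J V) : Representation F X V := ρ.comp X.subtype

lemma rs_apply (ρ : Representation F J V) (x : X) : rs X ρ x = ρ x := rfl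

/-- (iii) -/
lemma part3 [IsAlgClosed F] [Finite J] (φ : J → F) :
    Nat.card {θ : X → F // IsIrrTrace θ ∧ Rel X φ θ} ≤ Nat.card (J ⧸ X) := by
  classical
  refine card_le_of_finset fun S => ?_
  rcases S.eq_empty_or_nonempty with hS | ⟨θ₀, hθ₀⟩
  · rw [hS, Finset.card_empty]
    exact Nat.zero_le _
  obtain ⟨V, i1, i2, i3, ρ, W₀, j1, j2, j3, σ₀, hρ, hσ₀, hφ, hθ, π₀, hπ₀, hππ₀⟩ := θ₀.2.2
  have key : ∀ θ : S, ∃ (W : Type) (_ : AddCommGroup W) (_ : Module F W)
      (_ : FiniteDimensional F W) (σ : Representation F X W), σ.IsIrreducible ∧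
      θ.1.1 = σ.character ∧ ∃ π : V →ₗ[F] W, π ≠ 0 ∧ ∀ (x : X) (v : V), π (ρ x v) = σ x (π v) := by
    intro θ
    obtain ⟨V', k1, k2, k3, ρ', W, l1, l2, l3, σ, hρ', hσ, hφ', hθ', π, hπ, hππ⟩ := θ.1.2.2
    obtain ⟨T, hT0, hT⟩ := exists_iso hρ hρ' (by rw [← hφ, ← hφ'])
    have hb := inter_bij hρ hρ' T hT hT0
    refine ⟨W, l1, l2, l3, σ, hσ, hθ', π ∘ₗ T, ?_, fun x v => ?_⟩
    · intro h0
      apply hπ
      ext v'
      obtain ⟨v, rfl⟩ := hb.2 v'
      exact LinearMap.congr_fun h0 v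
    · rw [LinearMap.comp_apply, LinearMap.comp_apply, hT, hππ]
  choose Wθ k1 k2 k3 σθ hσθ hch πθ hπθ hππ using key
  have hne : ∀ i j : S, i ≠ j → (σθ i).character ≠ (σθ j).character := by
    intro i j hij h
    rw [← hch, ← hch] at h
    exact hij (Subtype.ext (Subtype.ext h))
  choose x hx1 hx2 using fun i => sep σθ hσθ hne i
  have hsurj : Function.Surjective (LinearMap.pi πθ) := by
    intro w
    choose v hv using fun i => pi_surj (hσθ i) (hπθ i) (hππ i) (w i)
    refine ⟨∑ i, (rs X ρ).asAlgebraHom (x i) (v i), ?_⟩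
    funext j
    rw [LinearMap.pi_apply, map_sum, Finset.sum_eq_single j]
    · rw [inter_alg (ρ := rs X ρ) (σ := σθ j) (πθ j) (fun g v => hππ j g v), hx1, hv,
        Module.End.one_apply]
    · intro i _ hij
      rw [inter_alg (ρ := rs X ρ) (σ := σθ j) (πθ j) (fun g v => hππ j g v),
        hx2 i j (Ne.symm hij), LinearMap.zero_apply]
    · intro h
      exact absurd (Finset.mem_univ j) h
  have h1 := LinearMap.finrank_le_finrank_of_surjective hsurj
  rw [Module.finrank_pi_fintype] at h1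
  have h2 : ∀ i : S, Module.finrank F V ≤ Nat.card (J ⧸ X) * Module.finrank F (Wθ i) :=
    fun i => dim_le hρ (hπθ i) (hππ i)
  have hV : 0 < Module.finrank F V := by
    have := ((irr_iff ρ).1 hρ).1
    exact Module.finrank_pos
  have h3 : S.card * Module.finrank F V ≤ Nat.card (J ⧸ X) * Module.finrank F V := by
    calc S.card * Module.finrank F V = ∑ _i : S, Module.finrank F V := by
          rw [Finset.sum_const, Finset.card_univ, Fintype.card_coe, smul_eq_mul]
      _ ≤ ∑ i : S, Nat.card (J ⧸ X) * Module.finrank F (Wθ i) := Finset.sum_le_sum fun i _ => h2 i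
      _ = Nat.card (J ⧸ X) * ∑ i : S, Module.finrank F (Wθ i) := by rw [Finset.mul_sum]
      _ ≤ _ := Nat.mul_le_mul_left _ h1
  exact Nat.le_of_mul_le_mul_right h3 hV

/-- (iv) -/
lemma part4 [IsAlgClosed F] [Finite J] (θ : X → F) :
    Nat.card {φ : J → F // IsIrrTrace φ ∧ Rel X φ θ} ≤ Nat.card (J ⧸ X) := by
  classical
  refine card_le_of_finset fun S => ?_
  rcases S.eq_empty_or_nonempty with hS | ⟨φ₀, hφ₀⟩
  · rw [hS, Finset.card_empty]
    exact Nat.zero_le _
  obtain ⟨V₀, i1, i2, i3, ρ₀, W, j1, j2, j3, σ, hρ₀, hσ, hφ, hθ, π₀, hπ₀, hππ₀⟩ := φ₀.2.2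
  have key : ∀ φ : S, ∃ (V : Type) (_ : AddCommGroup V) (_ : Module F V)
      (_ : FiniteDimensional F V) (ρ : Representation F J V), ρ.IsIrreducible ∧
      φ.1.1 = ρ.character ∧ ∃ π : V →ₗ[F] W, π ≠ 0 ∧ ∀ (x : X) (v : V), π (ρ x v) = σ x (π v) := by
    intro φ
    obtain ⟨V, k1, k2, k3, ρ, W', l1, l2, l3, σ', hρ, hσ', hφ', hθ', π, hπ, hππ⟩ := φ.1.2.2
    obtain ⟨T, hT0, hT⟩ := exists_iso hσ' hσ (by rw [← hθ, ← hθ'])
    have hb := inter_bij hσ' hσ T hT hT0
    refine ⟨V, k1, k2, k3, ρ, hρ, hφ', T ∘ₗ π, ?_, fun x v => ?_⟩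
    · intro h0
      apply hπ
      ext v
      apply hb.1
      rw [LinearMap.zero_apply, map_zero]
      exact LinearMap.congr_fun h0 v
    · rw [LinearMap.comp_apply, LinearMap.comp_apply, hππ, hT]
  choose Vφ k1 k2 k3 ρφ hρφ hch πφ hπφ hππ using key
  have hne : ∀ i j : S, i ≠ j → (ρφ i).character ≠ (ρφ j).character := by
    intro i j hij h
    rw [← hch, ← hch] at h
    exact hij (Subtype.ext (Subtype.ext h))
  choose x hx1 hx2 using fun i => sep ρφ hρφ hne i
  have := Fintype.ofFinite (J ⧸ X)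
  have := Fintype.ofFinite J
  obtain ⟨Θ, hΘ⟩ : ∃ Θ : (∀ i, Vφ i) →ₗ[F] (J ⧸ X → W), ∀ v q,
      Θ v q = ∑ i, πφ i (ρφ i q.out (v i)) := by
    refine ⟨LinearMap.pi fun q => ∑ i, (πφ i) ∘ₗ (ρφ i q.out) ∘ₗ (LinearMap.proj i), ?_⟩
    intro v q
    rw [LinearMap.pi_apply, LinearMap.sum_apply]
    rfl
  have hinj : Function.Injective Θ := by
    rw [← LinearMap.ker_eq_bot, LinearMap.ker_eq_bot']
    intro v hv
    have h1 : ∀ g : J, ∑ i, πφ i (ρφ i g (v i)) = 0 := by
      intro g
      obtain ⟨x, hx⟩ := out_factor (X := X) g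
      have h2 : ∀ i, πφ i (ρφ i g (v i)) =
          σ x (πφ i (ρφ i ((QuotientGroup.mk g : J ⧸ X).out) (v i))) := by
        intro i
        rw [← hππ i x]
        conv_lhs => rw [hx, map_mul]
        rfl
      rw [Finset.sum_congr rfl fun i _ => h2 i, ← map_sum, ← hΘ, hv, Pi.zero_apply, map_zero]
    funext i
    refine ker_core (hρφ i) (hπφ i) fun h => ?_
    obtain ⟨a, ha⟩ := expand (x i)
    have h3 : ∀ j, ∑ g, a g • πφ j (ρφ j (h * g) (v j)) =
        πφ j (ρφ j h ((ρφ j).asAlgebraHom (x i) (v j))) := by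
      intro j
      rw [ha, map_sum, LinearMap.sum_apply, map_sum, map_sum]
      refine Finset.sum_congr rfl fun g _ => ?_
      rw [asAlgebraHom_single, LinearMap.smul_apply, map_smul, map_smul, map_mul]
      rfl
    have h4 : ∑ j, ∑ g, a g • πφ j (ρφ j (h * g) (v j)) = 0 := by
      rw [Finset.sum_comm]
      refine Finset.sum_eq_zero fun g _ => ?_
      rw [← Finset.smul_sum, h1, smul_zero]
    rw [Finset.sum_congr rfl fun j _ => h3 j, Finset.sum_eq_single i] at h4
    · rw [hx1, Module.End.one_apply] at h4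
      exact h4
    · intro j _ hji
      rw [hx2 i j hji, LinearMap.zero_apply, map_zero, map_zero]
    · intro h
      exact absurd (Finset.mem_univ i) h
  have h1 := LinearMap.finrank_le_finrank_of_injective hinj
  rw [Module.finrank_pi_fintype, Module.finrank_pi_fintype, Finset.sum_const, Finset.card_univ,
    smul_eq_mul, ← Nat.card_eq_fintype_card] at h1
  have h2 : ∀ i : S, Module.finrank F W ≤ Module.finrank F (Vφ i) := fun i =>
    LinearMap.finrank_le_finrank_of_surjective (pi_surj hσ (hπφ i) (hππ i))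
  have hW : 0 < Module.finrank F W := by
    have := ((irr_iff σ).1 hσ).1
    exact Module.finrank_pos
  have h3 : S.card * Module.finrank F W ≤ Nat.card (J ⧸ X) * Module.finrank F W := by
    calc S.card * Module.finrank F W = ∑ _i : S, Module.finrank F W := by
          rw [Finset.sum_const, Finset.card_univ, Fintype.card_coe, smul_eq_mul]
      _ ≤ ∑ i : S, Module.finrank F (Vφ i) := Finset.sum_le_sum fun i _ => h2 i
      _ ≤ _ := h1
  exact Nat.le_of_mul_le_mul_right h3 hW

/-- (i) -/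
lemma part1 [Finite J] (φ : J → F) (hφ : IsIrrTrace φ) :
    ∃ θ : X → F, IsIrrTrace θ ∧ Rel X φ θ := by
  obtain ⟨V, i1, i2, i3, ρ, hρ, hch⟩ := hφ
  have hρ' := (irr_iff ρ).1 hρ
  obtain ⟨hn, -⟩ := hρ'
  obtain ⟨U, ⟨hU1, hU2⟩, hU3⟩ := set_has_maximal_iff_noetherian.mpr
    (inferInstance : IsNoetherian F V) {U | Inv (rs X ρ) U ∧ U ≠ ⊤}
    ⟨⊥, fun g v hv => by
      rw [Submodule.mem_bot] at hv ⊢
      rw [hv, map_zero], bot_ne_top⟩
  obtain ⟨σ, hσ⟩ : ∃ σ : Representation F X (V ⧸ U), ∀ x v, σ x (U.mkQ v) = U.mkQ (ρ x v) := by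
    refine ⟨(rs X ρ).quotient U fun g v hv => hU1 g v hv, fun x v => rfl⟩
  have hirr : σ.IsIrreducible := by
    rw [irr_iff]
    refine ⟨Submodule.Quotient.nontrivial_iff.2 hU2, fun Q hQ => ?_⟩
    by_cases h1 : Q.comap U.mkQ = ⊤
    · right
      rw [eq_top_iff]
      intro w _
      obtain ⟨v, rfl⟩ := U.mkQ_surjective w
      have : v ∈ Q.comap U.mkQ := by rw [h1]; trivial
      exact this
    · left
      have h2 : Inv (rs X ρ) (Q.comap U.mkQ) := by
        intro g v hv
        rw [Submodule.mem_comap] at hv ⊢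
        rw [rs_apply, ← hσ]
        exact hQ g _ hv
      have h3 := hU3 _ ⟨h2, h1⟩
      have h4 : U ≤ Q.comap U.mkQ := by
        intro v hv
        rw [Submodule.mem_comap]
        have : U.mkQ v = 0 := (Submodule.Quotient.mk_eq_zero U).2 hv
        rw [this]
        exact Q.zero_mem
      have h5 : U = Q.comap U.mkQ := by
        by_contra hne
        exact h3 (lt_of_le_of_ne h4 hne)
      rw [eq_bot_iff]
      intro w hw
      obtain ⟨v, rfl⟩ := U.mkQ_surjective w
      have : v ∈ Q.comap U.mkQ := hw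
      rw [← h5] at this
      rw [Submodule.mem_bot]
      exact (Submodule.Quotient.mk_eq_zero U).2 this
  refine ⟨σ.character, ⟨V ⧸ U, inferInstance, inferInstance, inferInstance, σ, hirr, rfl⟩,
    V, i1, i2, i3, ρ, V ⧸ U, inferInstance, inferInstance, inferInstance, σ, hρ, hirr, hch, rfl,
    U.mkQ, ?_, fun x v => (hσ x v).symm⟩
  intro h0
  apply hU2
  rw [eq_top_iff]
  intro v _
  have : U.mkQ v = 0 := LinearMap.congr_fun h0 v
  exact (Submodule.Quotient.mk_eq_zero U).1 this

/-- (ii) -/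
lemma part2 [Finite J] (θ : X → F) (hθ : IsIrrTrace θ) :
    ∃ φ : J → F, IsIrrTrace φ ∧ Rel X φ θ := by
  classical
  obtain ⟨W, i1, i2, i3, σ, hσ, hch⟩ := hθ
  have hn := ((irr_iff σ).1 hσ).1
  obtain ⟨R, hR⟩ : ∃ R : Representation F J (J → W), ∀ g f h, R g f h = f (h * g) := by
    refine ⟨{ toFun := fun g => LinearMap.pi fun h => LinearMap.proj (h * g)
              map_one' := ?_
              map_mul' := ?_ }, fun g f h => rfl⟩
    · ext f h
      simp
    · intro a b
      ext f h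
      simp [mul_assoc]
  obtain ⟨C, hC⟩ : ∃ C : Submodule F (J → W), ∀ f, f ∈ C ↔ ∀ (x : X) (g : J),
      f (x * g) = σ x (f g) := by
    refine ⟨{ carrier := {f | ∀ (x : X) (g : J), f (x * g) = σ x (f g)}
              add_mem' := ?_
              zero_mem' := ?_
              smul_mem' := ?_ }, fun f => Iff.rfl⟩
    · intro f f' hf hf' x g
      rw [Pi.add_apply, Pi.add_apply, hf, hf', map_add]
    · intro x g
      simp
    · intro a f hf x g
      rw [Pi.smul_apply, Pi.smul_apply, hf, map_smul]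
  have hCinv : Inv R C := by
    intro g f hf
    rw [hC] at hf ⊢
    intro x h
    rw [hR, hR, mul_assoc, hf]
  have hC0 : C ≠ ⊥ := by
    obtain ⟨w, hw⟩ := exists_ne (0 : W)
    intro h0
    have h1 : (fun g : J => if h : g ∈ X then σ ⟨g, h⟩ w else 0) ∈ C := by
      rw [hC]
      intro x g
      by_cases hg : g ∈ X
      · rw [dif_pos hg, dif_pos (X.mul_mem x.2 hg)]
        have : (⟨(x : J) * g, X.mul_mem x.2 hg⟩ : X) = x * ⟨g, hg⟩ := rfl
        rw [this, map_mul]
        rfl
      · rw [dif_neg hg, dif_neg (fun h => hg ((X.mul_mem_cancel_left x.2).1 h)), map_zero]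
    rw [h0, Submodule.mem_bot] at h1
    have h2 := congrFun h1 1
    rw [dif_pos X.one_mem] at h2
    have h3 : (⟨1, X.one_mem⟩ : X) = 1 := rfl
    rw [h3, map_one] at h2
    exact hw h2
  have := Fintype.ofFinite J
  obtain ⟨U, ⟨hU1, hU2, hU3⟩, hU4⟩ := WellFounded.has_min
    (wellFounded_lt (α := Submodule F (J → W))) {U | Inv R U ∧ U ≠ ⊥ ∧ U ≤ C} ⟨C, hCinv, hC0, le_rfl⟩
  obtain ⟨ρ, hρ⟩ : ∃ ρ : Representation F J U, ∀ g u, (ρ g u : J → W) = R g u := by
    refine ⟨R.subrepresentation U fun g v hv => hU1 g v hv, fun g u => rfl⟩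
  have hirr : ρ.IsIrreducible := by
    rw [irr_iff]
    refine ⟨(Submodule.nontrivial_iff_ne_bot).2 hU2, fun Q hQ => ?_⟩
    by_cases h1 : Q = ⊥
    · exact Or.inl h1
    · right
      have h2 : Inv R (Q.map U.subtype) := by
        rintro g _ ⟨u, hu, rfl⟩
        exact ⟨ρ g u, hQ g u hu, hρ g u⟩
      have h3 : Q.map U.subtype ≠ ⊥ := by
        intro h
        apply h1
        rw [eq_bot_iff]
        intro u hu
        have h7 : (u : J → W) ∈ Q.map U.subtype := ⟨u, hu, rfl⟩
        rw [h, Submodule.mem_bot] at h7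
        rw [Submodule.mem_bot]
        exact Subtype.ext h7
      have h4 : Q.map U.subtype ≤ U := Submodule.map_subtype_le U Q
      have h5 : Q.map U.subtype = U := by
        by_contra hne
        exact hU4 _ ⟨h2, h3, h4.trans hU3⟩ (lt_of_le_of_ne h4 hne)
      rw [eq_top_iff]
      intro u _
      have h6 : (u : J → W) ∈ Q.map U.subtype := by rw [h5]; exact u.2
      obtain ⟨u', hu', he⟩ := h6
      have : u' = u := Subtype.ext he
      rwa [this] at hu'
  refine ⟨ρ.character, ⟨U, inferInstance, inferInstance, inferInstance, ρ, hirr, rfl⟩,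
    U, inferInstance, inferInstance, inferInstance, ρ, W, i1, i2, i3, σ, hirr, hσ, rfl, hch,
    (LinearMap.proj (1 : J)) ∘ₗ U.subtype, ?_, ?_⟩
  · intro h0
    apply hU2
    rw [eq_bot_iff]
    intro f hf
    rw [Submodule.mem_bot]
    funext h
    have h1 := LinearMap.congr_fun h0 (ρ h ⟨f, hf⟩)
    rw [LinearMap.comp_apply, LinearMap.proj_apply, Submodule.subtype_apply, hρ, hR, one_mul] at h1
    exact h1
  · intro x u
    rw [LinearMap.comp_apply, LinearMap.proj_apply, Submodule.subtype_apply, hρ, hR, one_mul,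
      LinearMap.comp_apply, LinearMap.proj_apply, Submodule.subtype_apply]
    have h1 := (hC _).1 (hU3 u.2) x 1
    rw [mul_one] at h1
    exact h1

end cliff

/-! ### Central elements -/

section cent

variable {F : Type} [Field F] [IsAlgClosed F] {G : Type} [Group G] [Fintype G] {V : Type}
  [AddCommGroup V] [Module F V] [FiniteDimensional F V]

lemma acts_iff {ρ : Representation F G V} (hρ : ρ.IsIrreducible) {z : G → F} {c₀ : F}
    (hz : ∀ v, ∑ g, z g • ρ g v = c₀ • v) (c : F) : Acts z c ρ.character ↔ c = c₀ := by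
  have h1 : ∀ x, ∑ᶠ g : G, z g * ρ.character (g * x) = c₀ * ρ.character x := by
    intro x
    rw [finsum_eq_sum_of_fintype]
    have h2 : ∑ g, z g • ρ (g * x) = c₀ • ρ x := by
      ext v
      rw [LinearMap.sum_apply, LinearMap.smul_apply, ← hz]
      refine Finset.sum_congr rfl fun g _ => ?_
      rw [LinearMap.smul_apply, map_mul]
      rfl
    have h3 := congrArg (LinearMap.trace F V) h2
    rw [map_sum, map_smul] at h3
    rw [← smul_eq_mul]
    rw [character, ← h3]
    refine Finset.sum_congr rfl fun g _ => ?_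
    rw [map_smul, smul_eq_mul]
    rfl
  constructor
  · intro h
    obtain ⟨b, hb⟩ := trace_one ρ hρ
    obtain ⟨a, ha⟩ := expand b
    have h4 : ∃ x, ρ.character x ≠ 0 := by
      by_contra hcon
      push Not at hcon
      rw [ha, trace_expand, Finset.sum_eq_zero fun g _ => by rw [hcon, mul_zero]] at hb
      exact zero_ne_one hb
    obtain ⟨x, hx⟩ := h4
    have h5 := h x
    rw [h1] at h5
    exact (mul_right_cancel₀ hx h5).symm
  · rintro rfl
    exact h1

/-- Schur -/
lemma schur {ρ : Representation F G V} (hρ : ρ.IsIrreducible) {z : G → F}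
    (hz : ∀ g x : G, z (g * x * g⁻¹) = z x) : ∃ c₀ : F, ∀ v, ∑ g, z g • ρ g v = c₀ • v := by
  classical
  have hn := ((irr_iff ρ).1 hρ).1
  obtain ⟨Z, hZ⟩ : ∃ Z : Module.End F V, ∀ v, Z v = ∑ g, z g • ρ g v := by
    refine ⟨∑ g, z g • ρ g, fun v => ?_⟩
    rw [LinearMap.sum_apply]
    rfl
  have hcomm : ∀ (h : G) (v : V), Z (ρ h v) = ρ h (Z v) := by
    intro h v
    rw [hZ, hZ, map_sum]
    rw [← Equiv.sum_comp (MulAut.conj h).toEquiv]
    refine Finset.sum_congr rfl fun g _ => ?_
    show z (h * g * h⁻¹) • ρ (h * g * h⁻¹) (ρ h v) = ρ h (z g • ρ g v)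
    rw [hz, map_smul]
    congr 1
    have h1 : ρ (h * g * h⁻¹) (ρ h v) = ρ (h * g * h⁻¹ * h) v := by rw [map_mul _ _ h]; rfl
    rw [h1, inv_mul_cancel_right, map_mul]
    rfl
  obtain ⟨c₀, hc₀⟩ := Module.End.exists_eigenvalue Z
  refine ⟨c₀, fun v => ?_⟩
  rcases ((irr_iff ρ).1 hρ).2 (Module.End.eigenspace Z c₀) (by
    intro g w hw
    rw [Module.End.mem_eigenspace_iff] at hw ⊢
    rw [hcomm, hw, map_smul]) with h1 | h1
  · exact absurd h1 hc₀
  · have h2 : v ∈ Module.End.eigenspace Z c₀ := by rw [h1]; trivial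
    rw [Module.End.mem_eigenspace_iff, hZ] at h2
    exact h2

end cent

theorem main (h : S_DENS) : S_REL := by
  classical
  intro F _ _ J _ _ X _
  refine ⟨fun φ hφ => part1 φ hφ, fun θ hθ => part2 θ hθ, fun φ _ => part3 φ, fun θ _ => part4 θ, ?_⟩
  rintro φ θ ⟨V, i1, i2, i3, ρ, W, j1, j2, j3, σ, hρ, hσ, rfl, rfl, π, hπ0, hπ⟩ z hz c
  have := Fintype.ofFinite J
  obtain ⟨c₀, hc₀⟩ := schur hρ (z := z) (fun g x => hz.conj g x)
  have h1 : ∀ w, ∑ x : X, z x • σ x w = c₀ • w := by
    intro w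
    obtain ⟨v, rfl⟩ := pi_surj hσ hπ0 hπ w
    rw [← map_smul, ← hc₀, map_sum]
    have h2 : ∀ x : X, z x • σ x (π v) = π (z x • ρ x v) := by
      intro x
      rw [map_smul, hπ]
    rw [Finset.sum_congr rfl fun x _ => h2 x]
    symm
    rw [← Finset.sum_subset (Finset.subset_univ (Finset.univ.filter (· ∈ X)))]
    · exact Finset.sum_subtype _ (by simp) (fun g : J => π (z g • ρ g v))
    · intro g _ hg
      have hg' : g ∉ X := by simpa using hg
      rw [hz.supp g hg', zero_smul, map_zero]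
  rw [acts_iff hρ hc₀, acts_iff hσ h1]

end Pool.Agent.N85.AW.Rel
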