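import Pool.Agent.N85.AW.Perf

/-!
# The kernel group is generated by copies of `S`, for every nontrivial group `S`
-/

set_option autoImplicit false

open scoped Classical BigOperators

noncomputable section

namespace Pool.Agent.N85.AW.Perf2

open Pool.Agent.N85.AW Pool.Agent.N85.AW.Perf
open scoped commutatorElement

variable {T H : Type} [Group T] [Group H] [Fintype T]

/-- a subgroup `R` of `Gam` which is normal in the wreath product and contains the top group is
everything -/
theorem top_of_normal' [Nontrivial T] (R : Subgroup (Gam T H))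
    (hN : (R.map (Gam T H).subtype).Normal)
    (hR : ∀ t : T, (⟨SemidirectProduct.inr t, mem_Gam_inr t⟩ : Gam T H) ∈ R) : R = ⊤ := by
  set R' : Subgroup (RW T H) := R.map (Gam T H).subtype with hR'
  have hmem : ∀ x : Gam T H, x ∈ R ↔ (x : RW T H) ∈ R' := by
    intro x
    constructor
    · intro hx; exact ⟨x, hx, rfl⟩
    · rintro ⟨y, hy, hyx⟩
      have : y = x := Subtype.ext hyx
      exact this ▸ hy
  have ht : ∀ t : T, (SemidirectProduct.inr t : RW T H) ∈ R' := fun t => (hmem _).1 (hR t)
  let P : Subgroup (T → H) := R'.comap (SemidirectProduct.inl : (T → H) →* RW T H)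
  -- step 1
  have hP1 : ∀ (u v : T) (g : H), dd u v g ∈ P := by
    intro u v g
    change (SemidirectProduct.inl (dd u v g) : RW T H) ∈ R'
    have e1 : (SemidirectProduct.inl (dd u v g) : RW T H) =
        SemidirectProduct.inl (Pi.mulSingle u g) * SemidirectProduct.inr (v * u⁻¹) *
          (SemidirectProduct.inl (Pi.mulSingle u g))⁻¹ * (SemidirectProduct.inr (v * u⁻¹))⁻¹ := by
      have e2 : (SemidirectProduct.inr (v * u⁻¹) : RW T H) *
          (SemidirectProduct.inl (Pi.mulSingle u g))⁻¹ * (SemidirectProduct.inr (v * u⁻¹))⁻¹ =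
          SemidirectProduct.inl (Pi.mulSingle v g⁻¹) := by
        rw [← map_inv, ← map_inv, ← SemidirectProduct.inl_aut, ← Pi.mulSingle_inv, sh_mulSingle]
        congr 2
        group
      rw [mul_assoc (SemidirectProduct.inl (Pi.mulSingle u g) : RW T H),
        mul_assoc (SemidirectProduct.inl (Pi.mulSingle u g) : RW T H), e2, ← map_mul]
      rfl
    rw [e1]
    exact R'.mul_mem (hN.conj_mem _ (ht _) _) (R'.inv_mem (ht _))
  obtain ⟨v, hv⟩ := exists_ne (1 : T)
  -- step 2: commutators at `1`
  have h2 : ∀ c ∈ commutator H, (Pi.mulSingle 1 c : T → H) ∈ P := by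
    have hle : commutator H ≤ P.comap (MonoidHom.mulSingle (fun _ : T => H) 1) := by
      rw [commutator_def, Subgroup.commutator_le]
      intro g _ h _
      change (Pi.mulSingle 1 ⁅g, h⁆ : T → H) ∈ P
      have hc : (Pi.mulSingle 1 ⁅g, h⁆ : T → H) =
          dd v 1 g⁻¹ * dd v 1 h⁻¹ * (dd v 1 (g⁻¹ * h⁻¹))⁻¹ := by
        funext x
        rw [commutatorElement_def g h]
        simp only [dd, Pi.mul_apply, Pi.inv_apply]
        by_cases hx1 : x = 1
        · subst hx1
          rw [Pi.mulSingle_eq_same, Pi.mulSingle_eq_same, Pi.mulSingle_eq_same,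
            Pi.mulSingle_eq_same, Pi.mulSingle_eq_of_ne (Ne.symm hv),
            Pi.mulSingle_eq_of_ne (Ne.symm hv), Pi.mulSingle_eq_of_ne (Ne.symm hv)]
          simp [mul_assoc]
        · rw [Pi.mulSingle_eq_of_ne hx1, Pi.mulSingle_eq_of_ne hx1, Pi.mulSingle_eq_of_ne hx1,
            Pi.mulSingle_eq_of_ne hx1]
          by_cases hxv : x = v
          · subst hxv
            rw [Pi.mulSingle_eq_same, Pi.mulSingle_eq_same, Pi.mulSingle_eq_same]
            simp
          · rw [Pi.mulSingle_eq_of_ne hxv, Pi.mulSingle_eq_of_ne hxv,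
              Pi.mulSingle_eq_of_ne hxv]
            simp
      rw [hc]
      exact P.mul_mem (P.mul_mem (hP1 _ _ _) (hP1 _ _ _)) (P.inv_mem (hP1 _ _ _))
    intro c hc
    exact hle hc
  -- step 3: all functions
  have h3 : ∀ (s : Finset T) (f : T → H), (∀ u, u ∉ s → u ≠ 1 → f u = 1) →
      ∏ u : T, Abelianization.of (f u) = 1 → f ∈ P := by
    intro s
    induction s using Finset.induction_on with
    | empty =>
      intro f hf hprod
      have hf' : f = Pi.mulSingle 1 (f 1) := by
        funext x
        by_cases hx : x = 1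
        · subst hx; simp
        · rw [Pi.mulSingle_eq_of_ne hx]; exact hf x (by simp) hx
      rw [hf']
      apply h2
      rw [hf', prod_mulSingle] at hprod
      rw [← Abelianization.ker_of, MonoidHom.mem_ker]
      simpa using hprod
    | insert a s ha ih =>
      intro f hf hprod
      by_cases ha1 : a = 1
      · refine ih f (fun u hu hu1 => hf u ?_ hu1) hprod
        rw [Finset.mem_insert]
        rintro (h | h)
        · exact hu1 (h.trans ha1)
        · exact hu h
      · have hf' : f * dd 1 a (f a) ∈ P := by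
          refine ih _ (fun u hu hu1 => ?_) ?_
          · simp only [dd, Pi.mul_apply]
            rw [Pi.mulSingle_eq_of_ne hu1]
            by_cases hua : u = a
            · subst hua; simp
            · rw [Pi.mulSingle_eq_of_ne hua, hf u (by simp [hua, hu]) hu1]
              simp
          · simp only [Pi.mul_apply, map_mul]
            rw [Finset.prod_mul_distrib, hprod, prod_dd, one_mul]
        have := P.mul_mem hf' (P.inv_mem (hP1 1 a (f a)))
        rwa [mul_inv_cancel_right] at this
  -- conclusion
  rw [eq_top_iff]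
  rintro ⟨x, hx⟩ -
  rw [hmem]
  change x ∈ R'
  rw [← SemidirectProduct.inl_left_mul_inr_right x]
  refine R'.mul_mem ?_ ?_
  · refine h3 Finset.univ x.left (fun u hu => absurd (Finset.mem_univ u) hu) ?_
    unfold Gam at hx
    rw [MonoidHom.mem_ker] at hx
    exact hx
  · exact ht x.right

/-- the subgroup generated by the copies of `S` in a normal subgroup is normal -/
theorem normal_gen' (S G : Type) [Group S] [Group G] (N : Subgroup G) [N.Normal] :
    ((⨆ S' : {S' : Subgroup N // Nonempty (S' ≃* S)}, S'.1).map N.subtype).Normal := by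
  set R := ⨆ S' : {S' : Subgroup N // Nonempty (S' ≃* S)}, S'.1 with hR
  constructor
  rintro _ ⟨x, hx, rfl⟩ g
  have hle : R ≤ R.comap (MulAut.conjNormal g : N ≃* N).toMonoidHom := by
    conv_lhs => rw [hR]
    refine iSup_le fun S' => ?_
    intro y hy
    rw [Subgroup.mem_comap]
    obtain ⟨e⟩ := S'.2
    have e' : (S'.1.map (MulAut.conjNormal g : N ≃* N).toMonoidHom) ≃* S :=
      (S'.1.equivMapOfInjective (MulAut.conjNormal g : N ≃* N).toMonoidHom
        (MulAut.conjNormal g : N ≃* N).injective).symm.trans e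
    exact (le_iSup (fun S' : {S' : Subgroup N // Nonempty (S' ≃* S)} => S'.1)
      ⟨S'.1.map (MulAut.conjNormal g : N ≃* N).toMonoidHom, ⟨e'⟩⟩) (Subgroup.mem_map_of_mem _ hy)
  have h1 := hle hx
  rw [Subgroup.mem_comap] at h1
  exact ⟨_, h1, by simp [MulAut.conjNormal_apply]⟩

theorem gen_gam (S : Type) [Group S] [Fintype S] [Nontrivial S] (r : ℕ) (hr : 0 < r) (H : Type)
    [Group H] [Finite H] : GenBy S (Gam (Fin r → S) H) := by
  have : Nonempty (Fin r) := ⟨⟨0, hr⟩⟩
  have hGn : (Gam (Fin r → S) H).Normal := by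
    unfold Gam
    infer_instance
  unfold GenBy
  refine top_of_normal' _ (normal_gen' S (RW (Fin r → S) H) (Gam (Fin r → S) H)) ?_
  intro t
  let ι : (Fin r → S) →* Gam (Fin r → S) H :=
    (SemidirectProduct.inr : (Fin r → S) →* RW (Fin r → S) H).codRestrict _ mem_Gam_inr
  have hι : Function.Injective ι := by
    intro a b hab
    have := congrArg Subtype.val hab
    exact SemidirectProduct.inr_injective this
  set R := ⨆ S' : {S' : Subgroup (Gam (Fin r → S) H) // Nonempty (S' ≃* S)}, S'.1 with hRdef
  change t ∈ R.comap ι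
  apply Subgroup.pi_mem_of_mulSingle_mem
  intro i
  let j : S →* Gam (Fin r → S) H := ι.comp (MonoidHom.mulSingle (fun _ : Fin r => S) i)
  have hj : Function.Injective j := by
    intro a b hab
    exact Pi.mulSingle_injective (M := fun _ : Fin r => S) i (hι hab)
  have hle : j.range ≤ R := by
    rw [hRdef]
    exact le_iSup (fun S' : {S' : Subgroup (Gam (Fin r → S) H) // Nonempty (S' ≃* S)} => S'.1)
      ⟨j.range, ⟨(MonoidHom.ofInjective hj).symm⟩⟩
  exact hle ⟨t i, rfl⟩

end Pool.Agent.N85.AW.Perf2
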