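import Pool.Agent.N85.AW.Pow

/-!
# Counting
-/

set_option autoImplicit false

open scoped Classical BigOperators

noncomputable section

namespace Pool.Agent.N85.AW

open Pool.Agent.Y63.NV Pool.Agent.N85.WM
open Pool.Agent.Y63.NV.B48B (CF rs card_fib)

section gen

variable {F : Type} [Field F] {G : Type} [Group G] [Finite G]

/-- counting in blocks and counting with one class function, inequalities -/
theorem cnt_le {X Y : Type} [Finite X] [Finite Y] (a : X → (G → F) → F) (b : Y → (G → F) → F)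
    (ha : ∀ x, IsBlock (a x)) (hb : ∀ y, IsBlock (b y)) (C : ℝ)
    (h : ∀ B : (G → F) → F, IsBlock B →
      (Nat.card {x // BEq (a x) B} : ℝ) ≤ C * Nat.card {y // BEq (b y) B})
    {z : G → F} (hz : IsClassFun z) (c : F) :
    (Nat.card {x // a x z = c} : ℝ) ≤ C * Nat.card {y // b y z = c} := by
  have : Fintype X := Fintype.ofFinite X
  have : Fintype Y := Fintype.ofFinite Y
  let rX : X → (CF G F → F) := fun x => rs (a x)
  let rY : Y → (CF G F → F) := fun y => rs (b y)
  let S : Finset (CF G F → F) := Finset.univ.image rX ∪ Finset.univ.image rY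
  have hS : ∀ β ∈ S, ∃ B : (G → F) → F, IsBlock B ∧ rs B = β := by
    intro β hβ
    rcases Finset.mem_union.1 hβ with h | h
    · obtain ⟨x, -, rfl⟩ := Finset.mem_image.1 h
      exact ⟨a x, ha x, rfl⟩
    · obtain ⟨y, -, rfl⟩ := Finset.mem_image.1 h
      exact ⟨b y, hb y, rfl⟩
  have e1 : Nat.card {x // a x z = c} =
      ∑ β ∈ S, if β ⟨z, hz⟩ = c then Nat.card {x // rX x = β} else 0 :=
    card_fib rX S (fun x => Finset.mem_union_left _
      (Finset.mem_image_of_mem _ (Finset.mem_univ x))) (fun β => β ⟨z, hz⟩ = c)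
  have e2 : Nat.card {y // b y z = c} =
      ∑ β ∈ S, if β ⟨z, hz⟩ = c then Nat.card {y // rY y = β} else 0 :=
    card_fib rY S (fun y => Finset.mem_union_right _
      (Finset.mem_image_of_mem _ (Finset.mem_univ y))) (fun β => β ⟨z, hz⟩ = c)
  have e : ∀ {W : Type} (d : W → (G → F) → F) (B : (G → F) → F),
      Nat.card {w // rs (d w) = (rs B : CF G F → F)} = Nat.card {w // BEq (d w) B} := by
    intro W d B
    refine Nat.card_congr (Equiv.subtypeEquivRight fun w => ?_)
    constructor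
    · intro h f hf
      exact congrFun h ⟨f, hf⟩
    · intro h
      funext f
      exact h f.1 f.2
  rw [e1, e2, Nat.cast_sum, Nat.cast_sum, Finset.mul_sum]
  refine Finset.sum_le_sum fun β hβ => ?_
  obtain ⟨B, hB, rfl⟩ := hS β hβ
  by_cases hc : (rs B : CF G F → F) ⟨z, hz⟩ = c
  · rw [if_pos hc, if_pos hc]
    have h3 := h B hB
    rw [← e a, ← e b] at h3
    exact h3
  · rw [if_neg hc, if_neg hc]
    simp

end gen

/-- the irreducible traces are finite in number -/
theorem fin_irr (F : Type) [Field F] [IsAlgClosed F] (G : Type) [Group G] [Finite G] :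
    Finite {φ : G → F // IsIrrTrace φ} :=
  (Pool.Agent.Y914.NV.irr F G).1.to_subtype

section blocks

variable {p : ℕ} [Fact p.Prime] {F : Type} [Field F] [IsAlgClosed F] [CharP F p]
  (red : integralClosure ℤ ℂ →+* F) {G : Type} [Group G] [Finite G]

theorem sum_le_wts (C : ℝ)
    (h : ∀ B : (G → F) → F, IsBlock B → (numIrrBlock B : ℝ) ≤ C * numWts p red B)
    {z : G → F} (hz : IsClassFun z) (c : F) :
    (Lnum (⊤ : Subgroup G) ⊤ z c : ℝ) ≤ C * Nat.card {y : YS p G // cvS red y z = c} := by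
  have := fin_irr F G
  rw [lnum_top hz]
  refine cnt_le (fun φ : {φ : G → F // IsIrrTrace φ} => blkOf φ)
    (fun y : YS p G => cvS red y) blkOf_block (cvS_block red) C (fun B hB => ?_) hz c
  rw [← numIrrBlock_eq, ← numWts_eq]
  exact h B hB

theorem wts_le_sum (C : ℝ)
    (h : ∀ B : (G → F) → F, IsBlock B → (numWts p red B : ℝ) ≤ C * numIrrBlock B)
    {z : G → F} (hz : IsClassFun z) (c : F) :
    (Nat.card {y : YS p G // cvS red y z = c} : ℝ) ≤ C * Lnum (⊤ : Subgroup G) ⊤ z c := by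
  have := fin_irr F G
  rw [lnum_top hz]
  refine cnt_le (fun y : YS p G => cvS red y) (fun φ : {φ : G → F // IsIrrTrace φ} => blkOf φ)
    (cvS_block red) blkOf_block C (fun B hB => ?_) hz c
  rw [← numIrrBlock_eq, ← numWts_eq]
  exact h B hB

end blocks

/-- counting with a relation -/
theorem card_le_rel {A B : Type} [Finite A] [Finite B] (R : A → B → Prop) (n : ℕ)
    (h1 : ∀ a, ∃ b, R a b) (h2 : ∀ b, Nat.card {a // R a b} ≤ n) :
    Nat.card A ≤ n * Nat.card B := by
  have : Fintype B := Fintype.ofFinite B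
  choose f hf using h1
  have e1 : Nat.card A ≤ Nat.card (Σ b : B, {a // R a b}) :=
    Nat.card_le_card_of_injective (fun a => ⟨f a, a, hf a⟩) fun a a' h => by
      simp only [Sigma.mk.injEq] at h
      obtain ⟨h3, h4⟩ := h
      have h5 : ∀ (b b' : B) (x : {a // R a b}) (x' : {a // R a b'}), b = b' → HEq x x' →
          x.1 = x'.1 := by
        rintro b _ x x' rfl h6
        exact congrArg Subtype.val (eq_of_heq h6)
      exact h5 _ _ _ _ h3 h4
  refine e1.trans ?_
  rw [Nat.card_sigma]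
  calc ∑ b : B, Nat.card {a // R a b} ≤ ∑ b : B, n := Finset.sum_le_sum fun b _ => h2 b
    _ = n * Nat.card B := by
      rw [Finset.sum_const, Finset.card_univ, Nat.card_eq_fintype_card, smul_eq_mul, mul_comm]

section cliff

variable {F : Type} [Field F] [IsAlgClosed F] {J : Type} [Group J] [Finite J]

/-- irreducible traces: upper bound by a normal subgroup -/
theorem l_up (h : S_REL) (X : Subgroup J) [X.Normal] {z : J → F} (hz : InZ X z) (c : F) :
    Lnum (⊤ : Subgroup J) ⊤ z c ≤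
      Nat.card (J ⧸ X) * Lnum (⊤ : Subgroup X) ⊤ (fun x : X => z x) c := by
  obtain ⟨h1, h2, h3, h4, h5⟩ := h F J X
  rw [lnum_acts, lnum_acts]
  have f1 := fin_irr F J
  have f2 := fin_irr F X
  have f3 : Finite {φ : J → F // IsIrrTrace φ ∧ Acts z c φ} :=
    Finite.of_injective (β := {φ : J → F // IsIrrTrace φ}) (fun φ => ⟨φ.1, φ.2.1⟩)
      fun φ φ' hh => Subtype.ext (by simpa using hh)
  have f4 : Finite {θ : X → F // IsIrrTrace θ ∧ Acts (fun x : X => z x) c θ} :=
    Finite.of_injective (β := {φ : X → F // IsIrrTrace φ}) (fun φ => ⟨φ.1, φ.2.1⟩)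
      fun φ φ' hh => Subtype.ext (by simpa using hh)
  refine card_le_rel (fun (φ : {φ : J → F // IsIrrTrace φ ∧ Acts z c φ})
    (θ : {θ : X → F // IsIrrTrace θ ∧ Acts (fun x : X => z x) c θ}) => Rel X φ.1 θ.1) _ ?_ ?_
  · rintro ⟨φ, hφ, ha⟩
    obtain ⟨θ, hθ, hr⟩ := h1 φ hφ
    exact ⟨⟨θ, hθ, (h5 φ θ hr z hz c).1 ha⟩, hr⟩
  · rintro ⟨θ, hθ, ha⟩
    have f5 : Finite {φ : J → F // IsIrrTrace φ ∧ Rel X φ θ} :=
      Finite.of_injective (β := {φ : J → F // IsIrrTrace φ}) (fun φ => ⟨φ.1, φ.2.1⟩)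
        fun φ φ' hh => Subtype.ext (by simpa using hh)
    refine le_trans (Nat.card_le_card_of_injective
      (fun φ : {φ : {φ : J → F // IsIrrTrace φ ∧ Acts z c φ} // Rel X φ.1 θ} =>
        (⟨φ.1.1, φ.1.2.1, φ.2⟩ : {φ : J → F // IsIrrTrace φ ∧ Rel X φ θ})) ?_) (h4 θ hθ)
    intro φ φ' hh
    exact Subtype.ext (Subtype.ext (by simpa using hh))

/-- irreducible traces: lower bound by a normal subgroup -/
theorem l_lo (h : S_REL) (X : Subgroup J) [X.Normal] {z : J → F} (hz : InZ X z) (c : F) :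
    Lnum (⊤ : Subgroup X) ⊤ (fun x : X => z x) c ≤
      Nat.card (J ⧸ X) * Lnum (⊤ : Subgroup J) ⊤ z c := by
  obtain ⟨h1, h2, h3, h4, h5⟩ := h F J X
  rw [lnum_acts, lnum_acts]
  have f1 := fin_irr F J
  have f2 := fin_irr F X
  have f3 : Finite {φ : J → F // IsIrrTrace φ ∧ Acts z c φ} :=
    Finite.of_injective (β := {φ : J → F // IsIrrTrace φ}) (fun φ => ⟨φ.1, φ.2.1⟩)
      fun φ φ' hh => Subtype.ext (by simpa using hh)
  have f4 : Finite {θ : X → F // IsIrrTrace θ ∧ Acts (fun x : X => z x) c θ} :=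
    Finite.of_injective (β := {φ : X → F // IsIrrTrace φ}) (fun φ => ⟨φ.1, φ.2.1⟩)
      fun φ φ' hh => Subtype.ext (by simpa using hh)
  refine card_le_rel (fun (θ : {θ : X → F // IsIrrTrace θ ∧ Acts (fun x : X => z x) c θ})
    (φ : {φ : J → F // IsIrrTrace φ ∧ Acts z c φ}) => Rel X φ.1 θ.1) _ ?_ ?_
  · rintro ⟨θ, hθ, ha⟩
    obtain ⟨φ, hφ, hr⟩ := h2 θ hθ
    exact ⟨⟨φ, hφ, (h5 φ θ hr z hz c).2 ha⟩, hr⟩
  · rintro ⟨φ, hφ, ha⟩
    have f5 : Finite {θ : X → F // IsIrrTrace θ ∧ Rel X φ θ} :=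
      Finite.of_injective (β := {φ : X → F // IsIrrTrace φ}) (fun φ => ⟨φ.1, φ.2.1⟩)
        fun φ φ' hh => Subtype.ext (by simpa using hh)
    refine le_trans (Nat.card_le_card_of_injective
      (fun θ : {θ : {θ : X → F // IsIrrTrace θ ∧ Acts (fun x : X => z x) c θ} //
          Rel X φ θ.1} => (⟨θ.1.1, θ.1.2.1, θ.2⟩ : {θ : X → F // IsIrrTrace θ ∧ Rel X φ θ})) ?_)
      (h3 φ hφ)
    intro φ φ' hh
    exact Subtype.ext (Subtype.ext (by simpa using hh))

end cliff

end Pool.Agent.N85.AW
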