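import Pool.Agent.N85.AW.Stm

/-!
# Twisting blocks with linear characters: the statement `S_TWW`
-/

set_option autoImplicit false

open scoped Classical BigOperators

noncomputable section

namespace Pool.Agent.N85.AW.Tww

open Pool.Agent.N85.WM
open Pool.Agent.Y63.NV Pool.Agent.Y930.NV
open Pool.Agent.Y63.AWC (IsIrreducibleCharacter pSubgroupSetoid)

section gen

variable {K : Type} [Field K] {G : Type} [Group G]

/-- the representation multiplied by a linear character -/
def tw (l : G →* Kˣ) {V : Type} [AddCommGroup V] [Module K V] (ρ : Representation K G V) :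
    Representation K G V where
  toFun g := (l g : K) • ρ g
  map_one' := by
    rw [map_one, map_one, Units.val_one, one_smul]
  map_mul' a b := by
    rw [map_mul, map_mul, Units.val_mul, smul_mul_smul_comm]

theorem tw_apply (l : G →* Kˣ) {V : Type} [AddCommGroup V] [Module K V]
    (ρ : Representation K G V) (g : G) (v : V) : tw l ρ g v = (l g : K) • ρ g v := rfl

theorem tw_irr (l : G →* Kˣ) {V : Type} [AddCommGroup V] [Module K V] (ρ : Representation K G V)
    (h : ρ.IsIrreducible) : (tw l ρ).IsIrreducible := by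
  let f : Subrepresentation (tw l ρ) ≃o Subrepresentation ρ :=
    { toFun := fun W => ⟨W.toSubmodule, fun g v hv => by
        have h1 := W.apply_mem_toSubmodule g hv
        rw [tw_apply] at h1
        have h2 := W.toSubmodule.smul_mem ((l g : K)⁻¹) h1
        rwa [smul_smul, inv_mul_cancel₀ (l g).ne_zero, one_smul] at h2⟩
      invFun := fun W => ⟨W.toSubmodule, fun g v hv => by
        rw [tw_apply]
        exact W.toSubmodule.smul_mem _ (W.apply_mem_toSubmodule g hv)⟩
      left_inv := fun W => rfl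
      right_inv := fun W => rfl
      map_rel_iff' := Iff.rfl }
  exact (OrderIso.isSimpleOrder_iff f).2 h

theorem irrTrace_tw (l : G →* Kˣ) {φ : G → K} (h : IsIrrTrace φ) :
    IsIrrTrace (fun x => (l x : K) * φ x) := by
  obtain ⟨V, i1, i2, i3, ρ, h1, h2⟩ := h
  refine ⟨V, i1, i2, i3, tw l ρ, tw_irr l ρ h1, ?_⟩
  funext x
  rw [h2]
  change (l x : K) * LinearMap.trace K V (ρ x) = LinearMap.trace K V ((l x : K) • ρ x)
  rw [map_smul, smul_eq_mul]

theorem cl_tw (l : G →* Kˣ) {f : G → K} (h : IsClassFun f) :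
    IsClassFun (fun x => (l x : K) * f x) := by
  intro g x
  change (l (g * x * g⁻¹) : K) * f (g * x * g⁻¹) = (l x : K) * f x
  rw [h, map_mul, map_mul, map_inv, mul_comm (l g) (l x), mul_inv_cancel_right]

theorem twist_block [Finite G] (l : G →* Kˣ) {B : (G → K) → K} (hB : IsBlock B) :
    IsBlock (twist l B) := by
  have : Fintype G := Fintype.ofFinite G
  refine ⟨fun f g hf hg => ?_, fun a f hf => ?_, ?_, fun f g hf hg => ?_⟩
  · refine Eq.trans (congrArg B ?_) (hB.add _ _ (cl_tw l hf) (cl_tw l hg))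
    funext x
    change (l x : K) * (f x + g x) = (l x : K) * f x + (l x : K) * g x
    rw [mul_add]
  · refine Eq.trans (congrArg B ?_) (hB.smul a _ (cl_tw l hf))
    funext x
    change (l x : K) * (a * f x) = a * ((l x : K) * f x)
    rw [mul_left_comm]
  · refine Eq.trans (congrArg B ?_) hB.one
    funext x
    by_cases hx : x = 1
    · rw [hx, Pi.single_eq_same, map_one, Units.val_one, one_mul]
    · rw [Pi.single_eq_of_ne hx, mul_zero]
  · refine Eq.trans (congrArg B ?_) (hB.mul _ _ (cl_tw l hf) (cl_tw l hg))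
    funext x
    unfold conv
    rw [finsum_eq_sum_of_fintype, finsum_eq_sum_of_fintype, Finset.mul_sum]
    refine Finset.sum_congr rfl fun y _ => ?_
    have h1 : (l x : K) = (l y : K) * (l (y⁻¹ * x) : K) := by
      rw [← Units.val_mul, ← map_mul, mul_inv_cancel_left]
    rw [h1]
    ring

theorem twist_twist (l : G →* Kˣ) (B : (G → K) → K) : twist l⁻¹ (twist l B) = B := by
  funext f
  refine congrArg B ?_
  funext x
  change (l x : K) * (((l⁻¹) x : Kˣ) * f x) = f x
  rw [MonoidHom.inv_apply, ← mul_assoc, ← Units.val_mul, mul_inv_cancel, Units.val_one, one_mul]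

theorem fun_cancel {C : Type} [CommGroupWithZero C] (l : G →* Cˣ) (φ : G → C) :
    (fun x => (((l⁻¹) x : Cˣ) : C) * ((l x : C) * φ x)) = φ := by
  funext x
  rw [MonoidHom.inv_apply, ← mul_assoc, ← Units.val_mul, inv_mul_cancel, Units.val_one, one_mul]

theorem fun_cancel' {C : Type} [CommGroupWithZero C] (l : G →* Cˣ) (φ : G → C) :
    (fun x => ((l x : Cˣ) : C) * ((((l⁻¹) x : Cˣ) : C) * φ x)) = φ := by
  funext x
  rw [MonoidHom.inv_apply, ← mul_assoc, ← Units.val_mul, mul_inv_cancel, Units.val_one, one_mul]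

theorem mem_tw [Finite G] (l : G →* Kˣ) (B : (G → K) → K) (φ : G → K)
    (h : IsIrrTrace φ ∧
      ∀ f : G → K, IsClassFun f → ∀ x : G, ∑ᶠ g : G, f g * φ (g * x) = B f * φ x) :
    IsIrrTrace (fun x => (l x : K) * φ x) ∧
      ∀ f : G → K, IsClassFun f → ∀ x : G,
        ∑ᶠ g : G, f g * ((l (g * x) : K) * φ (g * x)) = twist l B f * ((l x : K) * φ x) := by
  have : Fintype G := Fintype.ofFinite G
  refine ⟨irrTrace_tw l h.1, fun f hf x => ?_⟩
  have h1 := h.2 _ (cl_tw l hf) x
  rw [finsum_eq_sum_of_fintype] at h1 ⊢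
  have h2 : twist l B f * ((l x : K) * φ x) =
      (l x : K) * (B (fun x => (l x : K) * f x) * φ x) := by
    unfold twist
    ring
  rw [h2, ← h1, Finset.mul_sum]
  refine Finset.sum_congr rfl fun g _ => ?_
  rw [map_mul, Units.val_mul]
  ring

theorem numIrr_tw [Finite G] (l : G →* Kˣ) (B : (G → K) → K) :
    numIrrBlock (twist l B) = numIrrBlock B := by
  unfold numIrrBlock
  symm
  refine Nat.card_congr
    { toFun := fun φ => ⟨fun x => (l x : K) * φ.1 x, mem_tw l B φ.1 φ.2⟩
      invFun := fun φ => ⟨fun x => ((l⁻¹) x : K) * φ.1 x, ?_⟩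
      left_inv := fun φ => Subtype.ext (fun_cancel l φ.1)
      right_inv := fun φ => Subtype.ext (fun_cancel' l φ.1) }
  have h := mem_tw l⁻¹ (twist l B) φ.1 φ.2
  rwa [twist_twist] at h

end gen

section wt

variable {F : Type} [Field F] (red : integralClosure ℤ ℂ →+* F)

/-- `L` is a lift of `l` -/
structure Good {H : Type} [Group H] (l : H →* Fˣ) (L : H →* ℂˣ) : Prop where
  int : ∀ h, IsIntegral ℤ (L h : ℂ)
  rd : ∀ h, redC red (L h : ℂ) = l h

theorem Good.inv {H : Type} [Group H] {l : H →* Fˣ} {L : H →* ℂˣ} (h : Good red l L) :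
    Good red l⁻¹ L⁻¹ := by
  refine ⟨fun x => ?_, fun x => ?_⟩
  · rw [MonoidHom.inv_apply, ← map_inv]
    exact h.int _
  · rw [MonoidHom.inv_apply, ← map_inv, MonoidHom.inv_apply, ← map_inv]
    exact h.rd _

theorem Good.res {H : Type} [Group H] {l : H →* Fˣ} {L : H →* ℂˣ} (h : Good red l L)
    (N : Subgroup H) : Good red (l.comp N.subtype) (L.comp N.subtype) :=
  ⟨fun _ => h.int _, fun _ => h.rd _⟩

theorem omc_int {J : Type} [Group J] [Finite J] {χ : J → ℂ} (h : IsIrreducibleCharacter χ)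
    (C : ConjClasses J) : IsIntegral ℤ ((Nat.card C.carrier : ℂ) * χ C.out / χ 1) := by
  have : Fintype J := Fintype.ofFinite J
  rw [← om_ind χ (irr_Cf h), ← ind_cast]
  exact om_int h (Cf_ind ℤ C)

theorem cv_tw {J : Type} [Group J] [Finite J] {l : J →* Fˣ} {L : J →* ℂˣ} (hL : Good red l L)
    {χ : J → ℂ} (h : IsIrreducibleCharacter χ) (f : J → F) :
    centralValue red (fun x => (L x : ℂ) * χ x) f =
      centralValue red χ (fun x => (l x : F) * f x) := by
  unfold centralValue
  refine finsum_congr fun C => ?_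
  have h1 : (Nat.card C.carrier : ℂ) * ((L C.out : ℂ) * χ C.out) / ((L 1 : ℂ) * χ 1) =
      (L C.out : ℂ) * ((Nat.card C.carrier : ℂ) * χ C.out / χ 1) := by
    rw [map_one, Units.val_one, one_mul]
    ring
  change f C.out * redC red ((Nat.card C.carrier : ℂ) * ((L C.out : ℂ) * χ C.out) /
    ((L 1 : ℂ) * χ 1)) = _
  rw [h1, redC_mul red (hL.int _) (omc_int h C), hL.rd]
  ring

theorem wt_tw {p : ℕ} {J : Type} [Group J] (L : J →* ℂˣ) (Q : Subgroup J)
    (hQ : ∀ q ∈ Q, L q = 1) {χ : J → ℂ} (h : IsWt p Q χ) :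
    IsWt p Q (fun x => (L x : ℂ) * χ x) := by
  refine ⟨irrTrace_tw L h.irr, fun q hq x => ?_, ?_⟩
  · change (L (q * x) : ℂ) * χ (q * x) = (L x : ℂ) * χ x
    rw [h.inflated q hq, map_mul, hQ q hq, one_mul]
  · obtain ⟨n, h1, h2⟩ := h.defectZero
    refine ⟨n, ?_, h2⟩
    change (L 1 : ℂ) * χ 1 = n
    rw [map_one, Units.val_one, one_mul, h1]

theorem memw_tw {p : ℕ} {H : Type} [Group H] [Finite H] {l : H →* Fˣ} {L : H →* ℂˣ}
    (hL : Good red l L) (Q : Subgroup H) (hQ : ∀ q ∈ Q, L q = 1) (B : (H → F) → F)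
    (χ : Subgroup.normalizer (Q : Set H) → ℂ)
    (h : IsWt p (Q.subgroupOf (Subgroup.normalizer (Q : Set H))) χ ∧
      ∀ f : H → F, IsClassFun f → centralValue red χ (fun x => f x) = B f) :
    IsWt p (Q.subgroupOf (Subgroup.normalizer (Q : Set H))) (fun x => (L x : ℂ) * χ x) ∧
      ∀ f : H → F, IsClassFun f →
        centralValue red (fun x : Subgroup.normalizer (Q : Set H) => (L x : ℂ) * χ x)
          (fun x => f x) = twist l B f := by
  have hN := hL.res red (Subgroup.normalizer (Q : Set H))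
  refine ⟨wt_tw (L.comp (Subgroup.normalizer (Q : Set H)).subtype) _ (fun q hq => hQ _ hq) h.1,
    fun f hf => ?_⟩
  refine Eq.trans (cv_tw red hN h.1.irr (fun x => f x)) ?_
  exact h.2 _ (cl_tw l hf)

theorem numWt_tw {p : ℕ} {H : Type} [Group H] [Finite H] {l : H →* Fˣ} {L : H →* ℂˣ}
    (hL : Good red l L) (Q : Subgroup H) (hQ : ∀ q ∈ Q, L q = 1) (B : (H → F) → F) :
    numWtBlock p red Q (twist l B) = numWtBlock p red Q B := by
  unfold numWtBlock
  symm
  refine Nat.card_congr
    { toFun := fun χ => ⟨fun x => (L x : ℂ) * χ.1 x, memw_tw red hL Q hQ B χ.1 χ.2⟩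
      invFun := fun χ => ⟨fun x => ((L⁻¹) x : ℂ) * χ.1 x, ?_⟩
      left_inv := fun χ => Subtype.ext
        (fun_cancel (L.comp (Subgroup.normalizer (Q : Set H)).subtype) χ.1)
      right_inv := fun χ => Subtype.ext
        (fun_cancel' (L.comp (Subgroup.normalizer (Q : Set H)).subtype) χ.1) }
  have h := memw_tw red (hL.inv red) Q (fun q hq => by
    rw [MonoidHom.inv_apply, hQ q hq, inv_one]) (twist l B) χ.1 χ.2
  rwa [twist_twist] at h

end wt

/-- the lift -/
theorem lift_ex (p : ℕ) [Fact p.Prime] {F : Type} [Field F] [CharP F p]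
    (red : integralClosure ℤ ℂ →+* F) {H : Type} [Group H] [Finite H] (l : H →* Fˣ) :
    ∃ L : H →* ℂˣ, Good red l L ∧ ∀ (h : H) (k : ℕ), h ^ p ^ k = 1 → L h = 1 := by
  have hp : p.Prime := Fact.out
  set a := (Nat.card H).factorization p with ha
  set m := Nat.card H / p ^ a with hm
  have hH0 : Nat.card H ≠ 0 := Nat.card_pos.ne'
  have hmul : p ^ a * m = Nat.card H := Nat.ordProj_mul_ordCompl_eq_self _ _
  have hcop : Nat.Coprime p m := Nat.coprime_ordCompl hp hH0
  have hm0 : m ≠ 0 := by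
    intro h
    rw [h, mul_zero] at hmul
    exact hH0 hmul.symm
  have hmF : (m : F) ≠ 0 := by
    rw [Ne, CharP.cast_eq_zero_iff F p m]
    intro h
    have h1 := Nat.Coprime.eq_one_of_dvd hcop h
    exact hp.one_lt.ne' h1
  have hlm : ∀ h : H, l h ^ m = 1 := by
    intro h
    have h1 : (l h ^ m) ^ p ^ a = 1 := by
      rw [← pow_mul, mul_comm m, hmul, ← map_pow, pow_card_eq_one', map_one]
    apply Units.ext
    have h2 : (((l h ^ m : Fˣ) : F) - 1) ^ p ^ a = 0 := by
      rw [sub_pow_char_pow, one_pow, ← Units.val_pow_eq_pow_val, h1, Units.val_one, sub_self]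
    have h3 := pow_eq_zero_iff (pow_ne_zero a hp.ne_zero) |>.1 h2
    rw [Units.val_one]
    exact sub_eq_zero.1 h3
  have hζ := Complex.isPrimitiveRoot_exp m hm0
  set ζ : ℂ := Complex.exp (2 * Real.pi * Complex.I / m) with hζd
  have hint : IsIntegral ℤ ζ := hζ.isIntegral (Nat.pos_of_ne_zero hm0)
  set z : integralClosure ℤ ℂ := ⟨ζ, hint⟩ with hz
  have hzp : IsPrimitiveRoot z m := by
    refine IsPrimitiveRoot.of_map_of_injective (f := (integralClosure ℤ ℂ).subtype) ?_
      Subtype.coe_injective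
    exact hζ
  have hmA : NeZero ((m : integralClosure ℤ ℂ)) := ⟨by
    intro h
    have h1 := congrArg red h
    rw [map_natCast, map_zero] at h1
    exact hmF h1⟩
  have hmF' : NeZero (m : F) := ⟨hmF⟩
  have hη : IsPrimitiveRoot (red z) m := by
    rw [← Polynomial.isRoot_cyclotomic_iff] at hzp ⊢
    have h1 := hzp.map (f := red)
    rwa [Polynomial.map_cyclotomic] at h1
  have hζ0 : ζ ≠ 0 := hζ.ne_zero hm0
  have hη0 : red z ≠ 0 := hη.ne_zero hm0
  set ζu : ℂˣ := Units.mk0 ζ hζ0 with hζu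
  set ηu : Fˣ := Units.mk0 (red z) hη0 with hηu
  have hζp : IsPrimitiveRoot ζu m := by
    rw [← IsPrimitiveRoot.coe_units_iff]
    exact hζ
  have hηp : IsPrimitiveRoot ηu m := by
    rw [← IsPrimitiveRoot.coe_units_iff]
    exact hη
  have hiff : ∀ i j : ℕ, ηu ^ i = ηu ^ j → ζu ^ i = ζu ^ j := by
    intro i j h
    rw [pow_eq_pow_iff_modEq, ← hηp.eq_orderOf] at h
    rw [pow_eq_pow_iff_modEq, ← hζp.eq_orderOf]
    exact h
  have hex : ∀ h : H, ∃ i : ℕ, ηu ^ i = l h := by
    intro h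
    have h1 : ((l h : F)) ^ m = 1 := by
      rw [← Units.val_pow_eq_pow_val, hlm h, Units.val_one]
    have : NeZero m := ⟨hm0⟩
    obtain ⟨i, _, hi⟩ := hη.eq_pow_of_pow_eq_one h1
    refine ⟨i, Units.ext ?_⟩
    rw [Units.val_pow_eq_pow_val]
    exact hi
  choose i hi using hex
  let L : H →* ℂˣ :=
    { toFun := fun h => ζu ^ i h
      map_one' := by
        have h1 := hiff (i 1) 0 (by rw [hi, map_one, pow_zero])
        rw [h1, pow_zero]
      map_mul' := fun g h => by
        have h1 := hiff (i (g * h)) (i g + i h) (by rw [hi, map_mul, pow_add, hi, hi])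
        rw [h1, pow_add] }
  refine ⟨L, ⟨fun h => ?_, fun h => ?_⟩, fun h k hk => ?_⟩
  · change IsIntegral ℤ ((ζu ^ i h : ℂˣ) : ℂ)
    rw [Units.val_pow_eq_pow_val]
    exact hint.pow _
  · change redC red ((ζu ^ i h : ℂˣ) : ℂ) = l h
    rw [← hi h, Units.val_pow_eq_pow_val, Units.val_pow_eq_pow_val]
    change redC red (ζ ^ i h) = (red z) ^ i h
    rw [redC_of red (hint.pow _), ← map_pow]
    rfl
  · have h1 : L h ^ p ^ k = 1 := by rw [← map_pow, hk, map_one]
    have h2 : L h ^ m = 1 := by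
      change (ζu ^ i h) ^ m = 1
      rw [← pow_mul, mul_comm, pow_mul, hζp.pow_eq_one, one_pow]
    have h3 := orderOf_dvd_of_pow_eq_one h1
    have h4 := orderOf_dvd_of_pow_eq_one h2
    have h5 : Nat.Coprime (p ^ k) m := Nat.Coprime.pow_left k hcop
    have h6 : orderOf (L h) ∣ 1 := by
      rw [← h5]
      exact Nat.dvd_gcd h3 h4
    exact orderOf_eq_one_iff.1 (Nat.dvd_one.1 h6)

theorem main : S_TWW := by
  intro p _ F _ _ _ red H _ _ l B hB
  refine ⟨twist_block l hB, numIrr_tw l B, ?_⟩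
  obtain ⟨L, hL, hL1⟩ := lift_ex p red l
  unfold numWts
  refine finsum_congr fun q => ?_
  refine numWt_tw red hL q.out.1 (fun x hx => ?_) B
  obtain ⟨k, hk⟩ := q.out.2 ⟨x, hx⟩
  refine hL1 x k ?_
  have h1 := congrArg Subtype.val hk
  simpa using h1

end Pool.Agent.N85.AW.Tww
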