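import Pool.Agent.N85.AW.Stm

/-!
# Sum over the twists of a block (owner helper433)
-/

set_option autoImplicit false

open scoped Classical BigOperators

noncomputable section

namespace Pool.Agent.N85.AW.Idl

open Pool.Agent.Y63.NV Pool.Agent.N85.WM
open Pool.Agent.Y63.NV.B48B (CF rs)

variable {F : Type} [Field F] {H : Type} [Group H]

theorem rs_iff (B B' : (H → F) → F) : (rs B : CF H F → F) = rs B' ↔ BEq B B' := by
  constructor
  · intro h f hf
    exact congrFun h ⟨f, hf⟩
  · intro h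
    funext f
    exact h f.1 f.2

/-- the classes of the blocks with the value `1` at `z` -/
def Cl (z : H → F) : Set (CF H F → F) := {β | ∃ B' : (H → F) → F, IsBlock B' ∧ B' z = 1 ∧ rs B' = β}

theorem cl_fin [Finite H] (z : H → F) : (Cl z).Finite := by
  by_contra hinf
  obtain ⟨T, hT, hcard⟩ := Set.Infinite.exists_subset_card_eq hinf (Nat.card H + 1)
  have key : ∀ β : CF H F → F, ∃ B' : (H → F) → F, β ∈ T → IsBlock B' ∧ rs B' = β := by
    intro β
    by_cases h : β ∈ T
    · obtain ⟨B', h1, -, h2⟩ := hT h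
      exact ⟨B', fun _ => ⟨h1, h2⟩⟩
    · exact ⟨fun _ => 0, fun h' => absurd h' h⟩
  choose g hg using key
  have h1 := card_le (T.toList.map g) (by
      intro B hB
      obtain ⟨β, hβ, rfl⟩ := List.mem_map.1 hB
      exact (hg β (Finset.mem_toList.1 hβ)).1) (by
      rw [List.pairwise_map]
      refine List.Pairwise.imp_of_mem ?_ (Finset.nodup_toList T)
      intro β β' hβ hβ' hne hB
      apply hne
      rw [← (hg β (Finset.mem_toList.1 hβ)).2, ← (hg β' (Finset.mem_toList.1 hβ')).2]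
      exact (rs_iff _ _).2 hB)
  rw [List.length_map, Finset.length_toList, hcard] at h1
  omega

/-- counting -/
theorem count {X : Type} [Finite X] (a : X → (H → F) → F) (ha : ∀ x, IsBlock (a x)) {z : H → F}
    (hz : IsClassFun z) (C : Finset (CF H F → F))
    (hC : ∀ β, β ∈ C ↔ ∃ B' : (H → F) → F, IsBlock B' ∧ B' z = 1 ∧ rs B' = β) (m : ℕ)
    (hm : ∀ B' : (H → F) → F, IsBlock B' → B' z = 1 → Nat.card {x // BEq (a x) B'} = m) :
    Nat.card {x // a x z = 1} = C.card * m := by
  have : Fintype X := Fintype.ofFinite X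
  rw [Nat.card_eq_fintype_card, Fintype.card_subtype,
    Finset.card_eq_sum_card_fiberwise (f := fun x => (rs (a x) : CF H F → F)) (t := C)
      (fun x hx => (hC _).2 ⟨a x, ha x, (Finset.mem_filter.1 hx).2, rfl⟩)]
  rw [Finset.sum_congr rfl (g := fun _ => m), Finset.sum_const, smul_eq_mul]
  intro β hβ
  obtain ⟨B', h1, h2, rfl⟩ := (hC β).1 hβ
  rw [← hm B' h1 h2, Nat.card_eq_fintype_card, Fintype.card_subtype]
  congr 1
  ext x
  simp only [Finset.mem_filter, Finset.mem_univ, true_and]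
  rw [rs_iff]
  constructor
  · exact fun h => h.2
  · intro h
    exact ⟨by rw [h z hz, h2], h⟩

theorem card_congr' {X : Type} (a : X → (H → F) → F) {B B' : (H → F) → F} (h : BEq B B') :
    Nat.card {x // BEq (a x) B} = Nat.card {x // BEq (a x) B'} :=
  Nat.card_congr (Equiv.subtypeEquivRight fun _ => ⟨fun h1 => h1.trans h, fun h1 => h1.trans h.symm⟩)

/-- **IDL** -/
theorem main (h1 : S_TWW) (h2 : S_RSEP) : S_IDL := by
  intro p _ F _ _ _ red H _ _ B hB
  obtain ⟨z, hz, hsupp, hBz, hl⟩ := h2 p F H B hB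
  have hfin := cl_fin z
  have hC : ∀ β, β ∈ hfin.toFinset ↔ ∃ B' : (H → F) → F, IsBlock B' ∧ B' z = 1 ∧ rs B' = β :=
    fun β => hfin.mem_toFinset
  refine ⟨z, hfin.toFinset.card, hz, hsupp, ?_, ?_, ?_⟩
  · exact Finset.card_pos.2 ⟨rs B, (hC _).2 ⟨B, hB, hBz, rfl⟩⟩
  · rw [lnum_top hz.cl]
    refine count (fun φ => blkOf φ) blkOf_block hz.cl _ hC _ fun B' hB' hB'z => ?_
    obtain ⟨l, hl⟩ := hl B' hB' hB'z
    rw [card_congr' _ hl, ← numIrrBlock_eq]
    exact (h1 p F red H l B hB).2.1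
  · refine count (fun y : YS p H => cvS red y) (cvS_block red) hz.cl _ hC _
      fun B' hB' hB'z => ?_
    obtain ⟨l, hl⟩ := hl B' hB' hB'z
    rw [card_congr' _ hl, ← numWts_eq]
    exact (h1 p F red H l B hB).2.2

end Pool.Agent.N85.AW.Idl
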