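import Pool.Agent.N85.AW.Stm

/-!
# RSEP: the blocks with the same restriction to the commutator subgroup
-/

set_option autoImplicit false

open scoped Classical BigOperators

noncomputable section

namespace Pool.Agent.N85.AW.Rsep

open Pool.Agent.Y63.NV Pool.Agent.N85.WM Pool.Agent.N85.AW
open Pool.Agent.Y63.NV.B286 (conv_class single_class)

variable {F : Type} [Field F] {G : Type} [Group G]

/-! ### the grading by the abelianization -/

/-- the image in the abelianization -/
abbrev ab (x : G) : Abelianization G := Abelianization.of x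

/-- the class functions supported on the coset `a` -/
def Zc (a : Abelianization G) (f : G → F) : Prop :=
  IsClassFun f ∧ ∀ x : G, ab x ≠ a → f x = 0

theorem ab_eq_one {x : G} : ab x = 1 ↔ x ∈ commutator G := by
  unfold ab
  rw [← Abelianization.ker_of, MonoidHom.mem_ker]

theorem Zc.conv {a b : Abelianization G} {f g : G → F} (hf : Zc a f) (hg : Zc b g) :
    Zc (a * b) (conv f g) := by
  refine ⟨conv_class hf.1 hg.1, fun x hx => ?_⟩
  unfold Pool.Agent.Y63.NV.conv
  apply finsum_eq_zero_of_forall_eq_zero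
  intro y
  by_cases h1 : ab y = a
  · have h2 : ab (y⁻¹ * x) ≠ b := by
      intro h
      apply hx
      have : ab x = ab y * ab (y⁻¹ * x) := by
        unfold ab
        rw [← map_mul]
        congr 1
        group
      rw [this, h1, h]
    rw [hg.2 _ h2, mul_zero]
  · rw [hf.2 _ h1, zero_mul]

theorem Zc.one : Zc (1 : Abelianization G) (Pi.single (1 : G) (1 : F)) := by
  refine ⟨single_class, fun x hx => ?_⟩
  rw [Pi.single_eq_of_ne]
  rintro rfl
  exact hx (map_one _)

theorem Zc.add {a : Abelianization G} {f g : G → F} (hf : Zc a f) (hg : Zc a g) : Zc a (f + g) :=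
  ⟨cl_add hf.1 hg.1, fun x hx => by rw [Pi.add_apply, hf.2 x hx, hg.2 x hx, add_zero]⟩

theorem Zc.smul {a : Abelianization G} (c : F) {f : G → F} (hf : Zc a f) : Zc a (c • f) :=
  ⟨cl_smul c hf.1, fun x hx => by rw [Pi.smul_apply, hf.2 x hx, smul_zero]⟩

/-- convolution powers -/
def pw (u : G → F) : ℕ → (G → F)
  | 0 => Pi.single 1 1
  | n + 1 => Pool.Agent.Y63.NV.conv (pw u n) u

theorem Zc.pw {a : Abelianization G} {u : G → F} (hu : Zc a u) (n : ℕ) : Zc (a ^ n) (pw u n) := by
  induction n with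
  | zero => rw [pow_zero]; exact Zc.one
  | succ n ih => rw [pow_succ]; exact ih.conv hu

theorem block_pw {B : (G → F) → F} (hB : IsBlock B) {a : Abelianization G} {u : G → F}
    (hu : Zc a u) (n : ℕ) : B (pw u n) = B u ^ n := by
  induction n with
  | zero => rw [pow_zero]; exact hB.one
  | succ n ih =>
    change B (Pool.Agent.Y63.NV.conv (pw u n) u) = _
    rw [hB.mul _ _ (hu.pw n).1 hu.1, ih, pow_succ]

/-- the part of a function on a coset -/
def pa (f : G → F) (a : Abelianization G) : G → F := fun x => if ab x = a then f x else 0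

theorem pa_Zc {f : G → F} (hf : IsClassFun f) (a : Abelianization G) : Zc a (pa f a) := by
  refine ⟨fun g x => ?_, fun x hx => ?_⟩
  · unfold pa
    have : ab (g * x * g⁻¹) = ab x := by
      unfold ab
      rw [map_mul, map_mul, map_inv, mul_right_comm, mul_inv_cancel, one_mul]
    rw [this, hf]
  · unfold pa
    rw [if_neg hx]

theorem block_sum {B : (G → F) → F} (hB : IsBlock B) {ι : Type} (T : Finset ι) (g : ι → G → F)
    (hg : ∀ i ∈ T, IsClassFun (g i)) : IsClassFun (∑ i ∈ T, g i) ∧
      B (∑ i ∈ T, g i) = ∑ i ∈ T, B (g i) := by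
  induction T using Finset.induction_on with
  | empty =>
    have h0 : IsClassFun (0 : G → F) := fun _ _ => rfl
    refine ⟨by rw [Finset.sum_empty]; exact h0, ?_⟩
    rw [Finset.sum_empty, Finset.sum_empty]
    have := hB.smul 0 0 h0
    rwa [zero_smul, zero_mul] at this
  | insert k T hk ih =>
    have ih' := ih fun i hi => hg i (Finset.mem_insert_of_mem hi)
    rw [Finset.sum_insert hk, Finset.sum_insert hk]
    refine ⟨cl_add (hg k (Finset.mem_insert_self _ _)) ih'.1, ?_⟩
    rw [hB.add _ _ (hg k (Finset.mem_insert_self _ _)) ih'.1, ih'.2]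

theorem pa_sum [Fintype (Abelianization G)] (f : G → F) : ∑ a, pa f a = f := by
  funext x
  rw [Finset.sum_apply]
  unfold pa
  rw [Finset.sum_ite_eq]
  simp

/-! ### separation on the functions supported on the commutator subgroup -/

/-- two blocks agree on the functions supported on the commutator subgroup -/
def BR (B B' : (G → F) → F) : Prop := ∀ f : G → F, Zc 1 f → B f = B' f

theorem sep_one {B B' : (G → F) → F} (hB : IsBlock B) (hB' : IsBlock B') (h : ¬ BR B B') :
    ∃ e : G → F, Zc 1 e ∧ B e = 1 ∧ B' e = 0 := by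
  unfold BR at h
  push Not at h
  obtain ⟨f, hf, hne⟩ := h
  have h1 : Zc (1 : Abelianization G) (Pi.single (1 : G) (1 : F)) := Zc.one
  have hd : B f - B' f ≠ 0 := sub_ne_zero.mpr hne
  refine ⟨(B f - B' f)⁻¹ • (f + (-(B' f)) • Pi.single (1 : G) (1 : F)), ?_, ?_, ?_⟩
  · exact Zc.smul _ (hf.add (h1.smul _))
  · rw [hB.smul _ _ (hf.add (h1.smul _)).1, hB.add _ _ hf.1 (h1.smul _).1, hB.smul _ _ h1.1,
      hB.one]
    field_simp
    ring
  · rw [hB'.smul _ _ (hf.add (h1.smul _)).1, hB'.add _ _ hf.1 (h1.smul _).1, hB'.smul _ _ h1.1,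
      hB'.one]
    ring

theorem sep_list {B : (G → F) → F} (hB : IsBlock B) (S : List ((G → F) → F))
    (hS : ∀ B' ∈ S, IsBlock B' ∧ ¬ BR B B') :
    ∃ e : G → F, Zc 1 e ∧ B e = 1 ∧ ∀ B' ∈ S, B' e = 0 := by
  induction S with
  | nil =>
    exact ⟨Pi.single 1 1, Zc.one, hB.one, by simp⟩
  | cons A S ih =>
    obtain ⟨e, he, h1, h2⟩ := ih fun B' h => hS B' (List.mem_cons_of_mem _ h)
    have hA := hS A List.mem_cons_self
    obtain ⟨d, hd, h3, h4⟩ := sep_one hB hA.1 hA.2
    refine ⟨conv e d, ?_, ?_, ?_⟩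
    · have := he.conv hd
      rwa [one_mul] at this
    · rw [hB.mul _ _ he.1 hd.1, h1, h3, one_mul]
    · intro B' hB'
      rcases List.mem_cons.mp hB' with rfl | h
      · rw [hA.1.mul _ _ he.1 hd.1, h4, mul_zero]
      · rw [(hS B' hB').1.mul _ _ he.1 hd.1, h2 B' h, zero_mul]

theorem BR.symm {B B' : (G → F) → F} (h : BR B B') : BR B' B := fun f hf => (h f hf).symm

theorem card_le [Finite G] (S : List ((G → F) → F)) (hS : ∀ B ∈ S, IsBlock B)
    (hd : S.Pairwise fun B B' => ¬ BR B B') : S.length ≤ Nat.card G := by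
  have : Fintype G := Fintype.ofFinite G
  have key : ∀ i : Fin S.length, ∃ e : G → F, Zc 1 e ∧ S.get i e = 1 ∧
      ∀ j : Fin S.length, j ≠ i → S.get j e = 0 := by
    intro i
    obtain ⟨e, he, h1, h2⟩ := sep_list (hS _ (S.get_mem i))
      (((List.finRange S.length).filter (fun j => j ≠ i)).map S.get) (by
        intro B' hB'
        obtain ⟨j, hj, rfl⟩ := List.mem_map.mp hB'
        have hji : j ≠ i := by simpa using (List.mem_filter.mp hj).2
        refine ⟨hS _ (S.get_mem j), ?_⟩
        rw [List.pairwise_iff_get] at hd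
        rcases lt_or_gt_of_ne hji with h | h
        · exact fun hh => hd j i h hh.symm
        · exact hd i j h)
    refine ⟨e, he, h1, fun j hj => h2 _ (List.mem_map.mpr ⟨j, ?_, rfl⟩)⟩
    exact List.mem_filter.mpr ⟨List.mem_finRange j, by simpa using hj⟩
  choose e he h1 h2 using key
  have hli : LinearIndependent F e := by
    rw [Fintype.linearIndependent_iff]
    intro a ha i
    have hB := hS _ (S.get_mem i)
    have h3 := (block_sum hB Finset.univ (fun j => a j • e j)
      (fun j _ => cl_smul _ (he j).1)).2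
    rw [ha] at h3
    have h0 : IsClassFun (0 : G → F) := fun _ _ => rfl
    have h4 : S.get i (0 : G → F) = 0 := by
      have := hB.smul 0 0 h0
      rwa [zero_smul, zero_mul] at this
    rw [h4, Finset.sum_eq_single i] at h3
    · rw [hB.smul _ _ (he i).1, h1, mul_one] at h3
      exact h3.symm
    · intro j _ hj
      rw [hB.smul _ _ (he j).1, h2 j i (fun h => hj h.symm), mul_zero]
    · intro h
      exact absurd (Finset.mem_univ _) h
  have h5 := hli.fintype_card_le_finrank
  rw [Fintype.card_fin, Module.finrank_pi] at h5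
  rwa [Nat.card_eq_fintype_card]

theorem exists_idem [Finite G] {B : (G → F) → F} (hB : IsBlock B) :
    ∃ e : G → F, IsIdem e ∧ Zc 1 e ∧ B e = 1 ∧
      ∀ B' : (G → F) → F, IsBlock B' → B' e = 1 → BR B B' := by
  let P : ℕ → Prop := fun n => ∃ S : List ((G → F) → F), S.length = n ∧
    (∀ B' ∈ S, IsBlock B' ∧ ¬ BR B B') ∧ S.Pairwise fun B B' => ¬ BR B B'
  have hP0 : P 0 := ⟨[], rfl, by simp, List.Pairwise.nil⟩
  have hb : ∀ n, P n → n ≤ Nat.card G := by
    rintro n ⟨S, rfl, h1, h2⟩
    exact card_le S (fun B' h => (h1 B' h).1) h2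
  obtain ⟨S, hl, hS, hd⟩ := Nat.findGreatest_spec (P := P) (Nat.zero_le (Nat.card G)) hP0
  have hmax : ∀ B' : (G → F) → F, IsBlock B' → ¬ BR B B' → ∃ A ∈ S, BR B' A := by
    intro B' hB' hne
    by_contra hcon
    push Not at hcon
    have h1 : P (S.length + 1) := by
      refine ⟨B' :: S, rfl, ?_, ?_⟩
      · intro A hA
        rcases List.mem_cons.mp hA with rfl | h
        · exact ⟨hB', hne⟩
        · exact hS A h
      · exact List.Pairwise.cons hcon hd
    have h2 := Nat.le_findGreatest (hb _ h1) h1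
    rw [← hl] at h2
    omega
  obtain ⟨e, he, h1, h2⟩ := sep_list hB S hS
  have hz : ∀ B' : (G → F) → F, IsBlock B' → ¬ BR B B' → B' e = 0 := by
    intro B' hB' hne
    obtain ⟨A, hA, hBA⟩ := hmax B' hB' hne
    rw [hBA e he]
    exact h2 A hA
  refine ⟨e, ⟨he.1, fun B' hB' => ?_⟩, he, h1, fun B' hB' h => ?_⟩
  · by_cases h : BR B B'
    · exact Or.inr (by rw [← h e he, h1])
    · exact Or.inl (hz B' hB' h)
  · by_contra hne
    rw [hz B' hB' hne] at h
    exact zero_ne_one h

/-! ### extension of characters to a divisible group -/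

theorem ext_char (F : Type) [Field F] [IsAlgClosed F] (A : Type) [CommGroup A] (S : Subgroup A)
    (l : S →* Fˣ) : ∃ L : A →* Fˣ, ∀ a : S, L a = l a := by
  have hpos : ∀ n : ℕ, n ≠ 0 → ∀ x : Fˣ, ∃ y : Fˣ, y ^ n = x := by
    intro n hn x
    obtain ⟨y, hy⟩ := IsAlgClosed.exists_pow_nat_eq (x : F) (Nat.pos_of_ne_zero hn)
    have hy0 : y ≠ 0 := by
      rintro rfl
      rw [zero_pow hn] at hy
      exact x.ne_zero hy.symm
    exact ⟨Units.mk0 y hy0, Units.ext (by simpa using hy)⟩
  have hsurj : ∀ {n : ℤ}, n ≠ 0 → Function.Surjective (fun a : Additive Fˣ => n • a) := by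
    intro n hn x
    obtain ⟨y, hy⟩ := hpos n.natAbs (Int.natAbs_ne_zero.2 hn) x.toMul
    rcases Int.natAbs_eq n with h | h
    · refine ⟨Additive.ofMul y, ?_⟩
      simp only
      rw [h, natCast_zsmul, ← ofMul_pow, hy]
      rfl
    · refine ⟨-Additive.ofMul y, ?_⟩
      simp only
      rw [h, neg_smul, smul_neg, neg_neg, natCast_zsmul, ← ofMul_pow, hy]
      rfl
  let _ : DivisibleBy (Additive Fˣ) ℤ := divisibleByOfSMulRightSurj _ _ hsurj
  obtain ⟨h, hh⟩ := (Module.Baer.of_divisible (Additive Fˣ)).extension_property_addMonoidHom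
    (MonoidHom.toAdditive S.subtype) (fun a b hab => by
      have : (a.toMul : A) = (b.toMul : A) := hab
      exact Subtype.ext this) (MonoidHom.toAdditive l)
  refine ⟨MonoidHom.toAdditive.symm h, fun a => ?_⟩
  have := DFunLike.congr_fun hh (Additive.ofMul a)
  exact this

/-! ### the linear character -/

section

variable [Finite G] {B B' : (G → F) → F}

theorem pow_card_ab (a : Abelianization G) : a ^ Nat.card (Abelianization G) = 1 :=
  pow_card_eq_one'

theorem card_ab_pos : 0 < Nat.card (Abelianization G) := Nat.card_pos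

theorem pow_eq (hB : IsBlock B) (hB' : IsBlock B') (h : BR B B') {a : Abelianization G}
    {u : G → F} (hu : Zc a u) :
    B' u ^ Nat.card (Abelianization G) = B u ^ Nat.card (Abelianization G) := by
  have h1 := hu.pw (Nat.card (Abelianization G))
  rw [pow_card_ab] at h1
  rw [← block_pw hB hu, ← block_pw hB' hu, h _ h1]

theorem ne_zero (hB : IsBlock B) (hB' : IsBlock B') (h : BR B B') {a : Abelianization G}
    {u : G → F} (hu : Zc a u) (h0 : B u ≠ 0) : B' u ≠ 0 := by
  intro h1
  have h2 := pow_eq hB hB' h hu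
  rw [h1, zero_pow card_ab_pos.ne'] at h2
  exact pow_ne_zero _ h0 h2.symm

theorem ratio (hB : IsBlock B) (hB' : IsBlock B') (h : BR B B') {a : Abelianization G}
    {u v : G → F} (hu : Zc a u) (hv : Zc a v) (h0 : B u ≠ 0) : B' v * B u = B' u * B v := by
  obtain ⟨m, hm⟩ : ∃ m, Nat.card (Abelianization G) = m + 1 :=
    ⟨Nat.card (Abelianization G) - 1, by have := card_ab_pos (G := G); omega⟩
  have h1 := hv.conv (hu.pw m)
  have h2 : a * a ^ m = 1 := by
    rw [← pow_succ', ← hm]; exact pow_card_ab a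
  rw [h2] at h1
  have h3 := h _ h1
  rw [hB.mul _ _ hv.1 (hu.pw m).1, hB'.mul _ _ hv.1 (hu.pw m).1, block_pw hB hu,
    block_pw hB' hu] at h3
  have h4 := pow_eq hB hB' h hu
  rw [hm, pow_succ, pow_succ] at h4
  have h5 : B u ^ m * B u ≠ 0 := mul_ne_zero (pow_ne_zero _ h0) h0
  apply mul_left_cancel₀ h5
  calc B u ^ m * B u * (B' v * B u) = (B' u ^ m * B' u) * B' v * B u := by rw [h4]; ring
    _ = (B' v * B' u ^ m) * B' u * B u := by ring
    _ = (B v * B u ^ m) * B' u * B u := by rw [h3]
    _ = B u ^ m * B u * (B' u * B v) := by ring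

/-- the grades on which the block does not vanish -/
def S0 (hB : IsBlock B) : Subgroup (Abelianization G) where
  carrier := {a | ∃ u, Zc a u ∧ B u ≠ 0}
  mul_mem' := by
    rintro a b ⟨u, hu, h1⟩ ⟨v, hv, h2⟩
    exact ⟨_, hu.conv hv, by rw [hB.mul _ _ hu.1 hv.1]; exact mul_ne_zero h1 h2⟩
  one_mem' := ⟨_, Zc.one, by rw [hB.one]; exact one_ne_zero⟩
  inv_mem' := by
    rintro a ⟨u, hu, h1⟩
    obtain ⟨m, hm⟩ : ∃ m, Nat.card (Abelianization G) = m + 1 :=
      ⟨Nat.card (Abelianization G) - 1, by have := card_ab_pos (G := G); omega⟩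
    have h2 : a⁻¹ = a ^ m := by
      rw [inv_eq_iff_mul_eq_one, ← pow_succ', ← hm]; exact pow_card_ab a
    rw [h2]
    exact ⟨_, hu.pw m, by rw [block_pw hB hu]; exact pow_ne_zero _ h1⟩

theorem exists_l0 (hB : IsBlock B) (hB' : IsBlock B') (h : BR B B') :
    ∃ l : S0 hB →* Fˣ, ∀ (a : S0 hB) (v : G → F), Zc (a : Abelianization G) v →
      B' v = (l a : F) * B v := by
  have hex : ∀ a : S0 hB, ∃ u, Zc (a : Abelianization G) u ∧ B u ≠ 0 := fun a => a.2
  choose u hu h0 using hex
  have h0' : ∀ a, B' (u a) ≠ 0 := fun a => ne_zero hB hB' h (hu a) (h0 a)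
  refine ⟨MonoidHom.mk' (fun a => Units.mk0 (B' (u a) / B (u a)) (div_ne_zero (h0' a) (h0 a)))
    ?_, ?_⟩
  · intro a b
    apply Units.ext
    simp only [Units.val_mk0, Units.val_mul]
    have h1 : Zc ((a * b : S0 hB) : Abelianization G) (conv (u a) (u b)) := (hu a).conv (hu b)
    have h2 := ratio hB hB' h (hu (a * b)) h1 (h0 (a * b))
    rw [hB.mul _ _ (hu a).1 (hu b).1, hB'.mul _ _ (hu a).1 (hu b).1] at h2
    have n1 := h0 a
    have n2 := h0 b
    have n3 := h0 (a * b)
    field_simp
    linear_combination -h2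
  · intro a v hv
    have h2 := ratio hB hB' h (hu a) hv (h0 a)
    have n1 := h0 a
    change B' v = (B' (u a) / B (u a)) * B v
    field_simp
    linear_combination h2

end

theorem main : S_RSEP := by
  intro p _ F _ _ _ H _ _ B hB
  obtain ⟨z, hz1, hz2, hz3, hz4⟩ := exists_idem hB
  refine ⟨z, hz1, fun x hx => hz2.2 x (fun h => hx (ab_eq_one.1 h)), hz3, fun B' hB' hBz => ?_⟩
  have hBR := hz4 B' hB' hBz
  obtain ⟨l0, hl0⟩ := exists_l0 hB hB' hBR
  obtain ⟨L, hL⟩ := ext_char F (Abelianization H) (S0 hB) l0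
  refine ⟨L.comp Abelianization.of, fun f hf => ?_⟩
  have : Fintype (Abelianization H) := Fintype.ofFinite _
  have e1 := (block_sum hB' Finset.univ (pa f) (fun a _ => (pa_Zc hf a).1)).2
  have e2 := (block_sum hB Finset.univ (fun a => (L a : F) • pa f a)
    (fun a _ => cl_smul _ (pa_Zc hf a).1)).2
  rw [pa_sum] at e1
  have e3 : ∑ a, (L a : F) • pa f a = fun x => ((L.comp Abelianization.of) x : F) * f x := by
    funext x
    rw [Finset.sum_apply]
    simp only [Pi.smul_apply, smul_eq_mul]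
    unfold pa
    simp only [mul_ite, mul_zero]
    rw [Finset.sum_ite_eq]
    simp
  rw [e3] at e2
  unfold twist
  rw [e2, e1]
  refine Finset.sum_congr rfl fun a _ => ?_
  rw [hB.smul _ _ (pa_Zc hf a).1]
  by_cases ha : a ∈ S0 hB
  · have := hl0 ⟨a, ha⟩ (pa f a) (pa_Zc hf a)
    rw [this, ← hL ⟨a, ha⟩]
  · have h1 : B (pa f a) = 0 := by
      by_contra h
      exact ha ⟨_, pa_Zc hf a, h⟩
    have h2 : B' (pa f a) = 0 := by
      by_contra h
      exact ne_zero hB' hB hBR.symm (pa_Zc hf a) h h1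
    rw [h1, h2, mul_zero]

end Pool.Agent.N85.AW.Rsep
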