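import Pool.Agent.N85.AW.Stm
import Pool.Agent.N85.WM.Cov

/-!
# Project AWP: the relative cover formula
-/

set_option autoImplicit false

open scoped Classical

noncomputable section

namespace Pool.Agent.N85.AW.Cov

open Pool.Agent.N85.WM
open Pool.Agent.Y63.NV
open Pool.Agent.Y487.NV (wl wsum_eq)
open Pool.Agent.N85.WM.Cov (local_cov)

attribute [local instance] Pool.Agent.Y487.NV.fsubL

/-- Dedekind's law -/
theorem ded {Y : Type} [Group Y] (M E R : Subgroup Y) [M.Normal] [E.Normal] (h : M ≤ E) :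
    M ⊔ R = ⊤ ↔ E ⊔ R = ⊤ ∧ M.subgroupOf E ⊔ R.subgroupOf E = ⊤ := by
  constructor
  · intro hM
    refine ⟨top_le_iff.1 (hM ▸ sup_le_sup_right h R), ?_⟩
    rw [eq_top_iff]
    rintro ⟨x, hx⟩ -
    have h1 : x ∈ ((M ⊔ R : Subgroup Y) : Set Y) := by rw [hM]; exact Subgroup.mem_top _
    rw [Subgroup.normal_mul, Set.mem_mul] at h1
    obtain ⟨m, hm, r, hr, hmr⟩ := h1
    have hmE : m ∈ E := h hm
    have hrE : r ∈ E := by
      have : r = m⁻¹ * x := by rw [← hmr]; group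
      rw [this]
      exact E.mul_mem (E.inv_mem hmE) hx
    have h2 : (⟨x, hx⟩ : E) = ⟨m, hmE⟩ * ⟨r, hrE⟩ := Subtype.ext hmr.symm
    rw [h2]
    exact Subgroup.mul_mem_sup hm hr
  · rintro ⟨hE, hM⟩
    rw [eq_top_iff]
    intro y _
    have h1 : y ∈ ((E ⊔ R : Subgroup Y) : Set Y) := by rw [hE]; exact Subgroup.mem_top _
    rw [Subgroup.normal_mul, Set.mem_mul] at h1
    obtain ⟨e, he, r, hr, her⟩ := h1
    have h2 : (⟨e, he⟩ : E) ∈ ((M.subgroupOf E ⊔ R.subgroupOf E : Subgroup E) : Set E) := by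
      rw [hM]; exact Subgroup.mem_top _
    rw [Subgroup.normal_mul, Set.mem_mul] at h2
    obtain ⟨m, hm, r', hr', hmr⟩ := h2
    have h3 : e = (m : Y) * (r' : Y) := by
      have := congrArg Subtype.val hmr
      exact this.symm
    rw [← her, h3]
    have hm' : (m : Y) ∈ M := hm
    have hr'' : (r' : Y) ∈ R := hr'
    rw [mul_assoc]
    exact Subgroup.mul_mem_sup hm' (R.mul_mem hr'' hr)

/-- the relative cover formula -/
theorem main : S_COVR := by
  intro p _ F _ _ red Y _ _ M E _ _ z c hME hE hz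
  rw [Pool.Agent.Y487.NV.wsum_eq]
  obtain ⟨cov, e3⟩ : ∃ cov : ℕ, cov =
      ∑ Q : Subgroup Y, if IsPGroup p Q ∧ M ⊔ Q = ⊤ then wl p red z c Q else 0 := ⟨_, rfl⟩
  rw [← e3]
  -- the sum over `R`
  have e6 : cov = ∑ Q₁ : Subgroup E, if IsPGroup p Q₁ ∧ M.subgroupOf E ⊔ Q₁ = ⊤ then
      (∑ R : Subgroup Y,
        if IsPGroup p R ∧ E ⊔ R = ⊤ ∧ R.subgroupOf E = Q₁ then wl p red z c R else 0) else 0 := by
    rw [e3, ← Finset.sum_filter, ← Finset.sum_filter]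
    rw [← Finset.sum_fiberwise_of_maps_to (s := Finset.univ.filter fun Q : Subgroup Y =>
      IsPGroup p Q ∧ M ⊔ Q = ⊤) (t := Finset.univ.filter fun Q₁ : Subgroup E =>
        IsPGroup p Q₁ ∧ M.subgroupOf E ⊔ Q₁ = ⊤)
      (g := fun R => R.subgroupOf E) (by
        intro R hR
        rw [Finset.mem_filter] at hR ⊢
        exact ⟨Finset.mem_univ _, IsPGroup.comap_subtype hR.2.1, ((ded M E R hME).1 hR.2.2).2⟩)]
    refine Finset.sum_congr rfl fun Q₁ hQ₁ => ?_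
    rw [Finset.mem_filter] at hQ₁
    rw [Finset.filter_filter, ← Finset.sum_filter]
    refine Finset.sum_congr ?_ fun _ _ => rfl
    ext R
    simp only [Finset.mem_filter, Finset.mem_univ, true_and]
    constructor
    · rintro ⟨⟨h1, h2⟩, h3⟩
      exact ⟨h1, ((ded M E R hME).1 h2).1, h3⟩
    · rintro ⟨h1, h2, h3⟩
      refine ⟨⟨h1, (ded M E R hME).2 ⟨h2, ?_⟩⟩, h3⟩
      rw [h3]
      exact hQ₁.2.2
  have e7 : cov = p * ∑ Q₁ : Subgroup E, if M.subgroupOf E ⊔ Q₁ = ⊤ then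
      Nat.card (Subgroup.normalizer (Q₁ : Set E)) *
      Nat.card {χ : E → ℂ // IsW p Q₁ χ ∧ wcv red Q₁ χ (fun x : E => z x) = c ∧
        FixedOut E Q₁ χ} else 0 := by
    rw [e6, Finset.mul_sum]
    refine Finset.sum_congr rfl fun Q₁ _ => ?_
    by_cases hM : M.subgroupOf E ⊔ Q₁ = ⊤
    · by_cases hQ₁ : IsPGroup p Q₁
      · rw [if_pos ⟨hQ₁, hM⟩, if_pos hM]
        exact local_cov dgnL' red E z c hz hE Q₁ hQ₁
      · rw [if_neg fun h => hQ₁ h.1, if_pos hM]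
        have h3 : IsEmpty {χ : E → ℂ // IsW p Q₁ χ ∧ wcv red Q₁ χ (fun x : E => z x) = c ∧
            FixedOut E Q₁ χ} := ⟨fun χ => hQ₁ χ.2.1.pg⟩
        have h4 : Nat.card {χ : E → ℂ // IsW p Q₁ χ ∧ wcv red Q₁ χ (fun x : E => z x) = c ∧
            FixedOut E Q₁ χ} = 0 := Nat.card_of_isEmpty
        rw [h4, mul_zero, mul_zero]
    · rw [if_neg fun h => hM h.2, if_neg hM, mul_zero]
  rw [e7, finsum_eq_sum_of_fintype]
  push_cast
  rfl

end Pool.Agent.N85.AW.Cov
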