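import Pool.Agent.N85.AW.Stm
import Pool.Agent.Y809.NV.ClifL
import Pool.Agent.Y63.NV.Infl
import Pool.Agent.Y210.NV2.NQ
import Pool.Agent.Y930.NV.Cen

/-!
# DDNK: characters of defect zero above good characters (helper953)
-/

set_option autoImplicit false
set_option linter.unusedSectionVars false

open scoped BigOperators Classical

noncomputable section

namespace Pool.Agent.N85.AW.Ddn

open Pool.Agent.Helper884.IC
open Pool.Agent.Y63.AWC hiding ind
open Pool.Agent.Y63.NV (centralValue InZ redC IsWt Nw IsClassFun)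

/-- a normal subgroup on which an irreducible character is constant acts trivially -/
theorem infl_of_one {J : Type} [Group J] [Finite J] (Q : Subgroup J) [hQ : Q.Normal] {χ : J → ℂ}
    (h : IsIrrChar χ) (hinf : ∀ q ∈ Q, χ q = χ 1) :
    ∀ q ∈ Q, ∀ x : J, χ (q * x) = χ x := by
  obtain ⟨V, _, _, _, ρ, hρ, rfl⟩ := h
  have hV : Nontrivial V := irr_nontrivial ρ hρ
  have : Fintype Q := Fintype.ofFinite Q
  have htr : ∀ q ∈ Q, ρ q = 1 := by
    refine Pool.Agent.Y63.NV.triv_of_fixed ρ hρ Q ?_
    obtain ⟨e, he⟩ : ∃ e : Module.End ℂ V, e = ∑ q : Q, ρ q := ⟨_, rfl⟩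
    have hne : e ≠ 0 := by
      intro h0
      have h1 : LinearMap.trace ℂ V e = (Fintype.card Q : ℂ) * ρ.character 1 := by
        rw [he, map_sum]
        have : ∀ q : Q, LinearMap.trace ℂ V (ρ q) = ρ.character 1 := fun q => hinf q q.2
        rw [Finset.sum_congr rfl fun q _ => this q, Finset.sum_const, Finset.card_univ,
          nsmul_eq_mul]
      rw [h0, map_zero, ρ.char_one] at h1
      have h2 : (Fintype.card Q : ℂ) * (Module.finrank ℂ V : ℂ) ≠ 0 := by
        refine mul_ne_zero ?_ ?_
        · exact_mod_cast Fintype.card_ne_zero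
        · exact_mod_cast Module.finrank_pos.ne'
      exact h2 h1.symm
    obtain ⟨w, hw⟩ : ∃ w, e w ≠ 0 := by
      by_contra hcon
      push Not at hcon
      exact hne (LinearMap.ext hcon)
    refine ⟨e w, hw, fun q hq => ?_⟩
    rw [he, LinearMap.sum_apply, map_sum]
    refine Fintype.sum_equiv (Equiv.mulLeft (⟨q, hq⟩ : Q)) _ _ fun r => ?_
    rw [Equiv.coe_mulLeft, Subgroup.coe_mul, map_mul, Module.End.mul_apply]
  intro q hq x
  show LinearMap.trace ℂ V (ρ (q * x)) = LinearMap.trace ℂ V (ρ x)
  rw [map_mul, htr q hq, one_mul]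

section

variable {J : Type} [Group J] [Fintype J] (X : Subgroup J) [hX : X.Normal]
  {p : ℕ} [hp : Fact p.Prime]

/-- there is an irreducible character above `theta` -/
theorem exists_above {theta : X → ℂ} (h : IsIrrChar theta) :
    ∃ chi : J → ℂ, IsIrrChar chi ∧ mult X chi theta ≠ 0 := by
  by_contra hcon
  push Not at hcon
  have h1 := clifford X theta theta h h
  have h2 : ∑ chi ∈ Irr J, mult X chi theta * mult X chi theta = 0 :=
    Finset.sum_eq_zero fun chi hc => by rw [hcon chi (mem_Irr.mp hc), zero_mul]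
  rw [h2, mul_zero] at h1
  have : Nonempty {x : J // cj X x theta = theta} := ⟨⟨1, cj_one X theta⟩⟩
  exact absurd h1.symm Nat.card_pos.ne'

/-- the order of the stabiliser of a good character -/
theorem st_fac {theta : X → ℂ} (h : IsIrrChar theta)
    (hg : ¬ ∃ g : J, g ∉ X ∧ g ^ p ∈ X ∧ cj X g theta = theta) :
    (Nat.card (St X theta)).factorization p = (Nat.card X).factorization p := by
  have hle : X ≤ St X theta := le_St X h.isClass
  have h1 := Subgroup.card_mul_index (X.subgroupOf (St X theta))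
  have h2 : Nat.card (X.subgroupOf (St X theta)) = Nat.card X :=
    Nat.card_congr (Subgroup.subgroupOfEquivOfLe hle).toEquiv
  have h3 : ¬ p ∣ (X.subgroupOf (St X theta)).index := by
    intro hdvd
    rw [Subgroup.index_eq_card] at hdvd
    obtain ⟨y, hy⟩ := exists_prime_orderOf_dvd_card' (G := St X theta ⧸ X.subgroupOf (St X theta)) p hdvd
    obtain ⟨g, rfl⟩ := QuotientGroup.mk_surjective y
    refine hg ⟨g, ?_, ?_, g.2⟩
    · intro hgX
      have h4 : ((g : St X theta) : St X theta ⧸ X.subgroupOf (St X theta)) = 1 :=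
        (QuotientGroup.eq_one_iff g).2 hgX
      rw [h4, orderOf_one] at hy
      exact hp.out.one_lt.ne hy
    · have h4 : ((g : St X theta) : St X theta ⧸ X.subgroupOf (St X theta)) ^ p = 1 := by
        rw [← hy]
        exact pow_orderOf_eq_one _
      rw [← QuotientGroup.mk_pow] at h4
      exact (QuotientGroup.eq_one_iff (g ^ p)).1 h4
  rw [← h1, h2, Nat.factorization_mul Nat.card_pos.ne' Subgroup.index_ne_zero_of_finite,
    Finsupp.add_apply, Nat.factorization_eq_zero_of_not_dvd h3, add_zero]

/-- the characters above a good character -/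
theorem above {Q : Subgroup J} [hQ : Q.Normal] (hQX : Q ≤ X) {theta : X → ℂ}
    (h : IsWt p (Q.subgroupOf X) theta)
    (hg : ¬ ∃ g : J, g ∉ X ∧ g ^ p ∈ X ∧ cj X g theta = theta) {chi : J → ℂ}
    (hc : IsIrrChar chi) (hm : mult X chi theta ≠ 0) : IsWt p Q chi := by
  have hir : IsIrrChar theta := h.irr
  have hone : ∀ q ∈ Q, chi q = chi 1 := by
    intro q hq
    have hres := res_eq X hc
    have h2 : ∀ m : X, chi m = ∑ t ∈ Irr X, (mult X chi t : ℂ) * t m := by
      intro m
      have h3 := congrFun hres m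
      rw [Finset.sum_apply] at h3
      exact h3
    have hq' : q ∈ X := hQX hq
    have e1 := h2 ⟨q, hq'⟩
    have e2 := h2 1
    rw [Subgroup.coe_one] at e2
    have e3 : chi q = chi ((⟨q, hq'⟩ : X) : J) := rfl
    rw [e3, e1, e2]
    refine Finset.sum_congr rfl fun t ht => ?_
    by_cases hmt : mult X chi t = 0
    · rw [hmt, Nat.cast_zero, zero_mul, zero_mul]
    · have h3 := mem_Orb_of_mult X hc hir (mem_Irr.mp ht) hm hmt
      obtain ⟨x, -, rfl⟩ := Finset.mem_image.mp h3
      congr 1
      unfold cj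
      rw [map_one]
      have h4 : MulAut.conjNormal x (⟨q, hq'⟩ : X) ∈ Q.subgroupOf X := by
        rw [Subgroup.mem_subgroupOf, MulAut.conjNormal_apply]
        exact hQ.conj_mem q hq x
      have h5 := h.inflated _ h4 1
      rwa [mul_one] at h5
  have hinf := infl_of_one Q hc hone
  refine ⟨hc, hinf, ?_⟩
  obtain ⟨n, hn0, hn⟩ := deg_nat hc
  refine ⟨n, hn, ?_⟩
  obtain ⟨d, hd, hfac⟩ := h.defectZero
  have hd0 : d ≠ 0 := by
    rintro rfl
    exact one_ne hir (by simpa using hd)
  have hdeg := deg_eq X hc hir hm hn hd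
  have hcQ : Nat.card (Q.subgroupOf X) = Nat.card Q :=
    Nat.card_congr (Subgroup.subgroupOfEquivOfLe hQX).toEquiv
  rw [hcQ] at hfac
  have hst := st_fac X hir hg
  have horb := card_Orb_mul X theta
  have hO0 : (Orb X theta).card ≠ 0 := by
    intro h0
    rw [h0, zero_mul] at horb
    exact Nat.card_pos.ne' horb.symm
  have h6 : ((Orb X theta).card).factorization p + (Nat.card X).factorization p =
      (Nat.card J).factorization p := by
    rw [← horb, Nat.factorization_mul hO0 Nat.card_pos.ne', Finsupp.add_apply, hst]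
  have h7 : ((Orb X theta).card).factorization p + d.factorization p ≤ n.factorization p := by
    rw [hdeg, Nat.factorization_mul (mul_ne_zero hO0 hm) hd0, Nat.factorization_mul hO0 hm,
      Finsupp.add_apply, Finsupp.add_apply]
    omega
  obtain ⟨chi', h8, h9⟩ := Pool.Agent.Y63.NV.deflate Q hc hinf
  have h10 : n.factorization p ≤ (Nat.card (J ⧸ Q)).factorization p := by
    have : Fintype (J ⧸ Q) := Fintype.ofFinite _
    have h11 : chi' 1 = (n : ℂ) := by rw [← hn, h9 1]; rfl
    exact (Nat.factorization_le_iff_dvd hn0.ne' Nat.card_pos.ne').2 (deg_dvd h8 h11) p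
  have h12 : (Nat.card (J ⧸ Q)).factorization p + (Nat.card Q).factorization p =
      (Nat.card J).factorization p := by
    rw [Subgroup.card_eq_card_quotient_mul_card_subgroup Q,
      Nat.factorization_mul Nat.card_pos.ne' Nat.card_pos.ne', Finsupp.add_apply]
  omega

theorem orb_le {theta : X → ℂ} (h : IsIrrChar theta) : (Orb X theta).card ≤ X.index := by
  have h1 := card_Orb_mul X theta
  have h2 := Subgroup.card_mul_index X
  have h3 : Nat.card X ≤ Nat.card (St X theta) := by
    exact Nat.card_le_card_of_injective (Subgroup.inclusion (le_St X h.isClass))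
      (Subgroup.inclusion_injective _)
  have h4 : (Orb X theta).card * Nat.card X ≤ X.index * Nat.card X := by
    calc (Orb X theta).card * Nat.card X ≤ (Orb X theta).card * Nat.card (St X theta) :=
          Nat.mul_le_mul_left _ h3
      _ = X.index * Nat.card X := by rw [h1, ← h2, mul_comm]
  exact Nat.le_of_mul_le_mul_right h4 Nat.card_pos

/-- the count for a group `J` with a normal subgroup `X` -/
theorem count {Q : Subgroup J} [hQ : Q.Normal] (hQX : Q ≤ X) {F : Type} [Field F]
    (red : integralClosure ℤ ℂ →+* F) {z : J → F} (hz : InZ X z) (c : F) :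
    Nat.card {theta : X → ℂ // (IsWt p (Q.subgroupOf X) theta ∧
      centralValue red theta (fun x => z x) = c) ∧
      ¬ ∃ g : J, g ∉ X ∧ g ^ p ∈ X ∧ cj X g theta = theta} ≤ X.index * Nw p red Q z c := by
  have h1 : Nw p red Q z c =
      ((Irr J).filter fun chi => IsWt p Q chi ∧ centralValue red chi z = c).card := by
    unfold Nw
    rw [← Fintype.card_coe, ← Nat.card_eq_fintype_card]
    refine Nat.card_congr (Equiv.subtypeEquivRight fun chi => ?_)
    rw [Finset.mem_filter, mem_Irr]
    exact ⟨fun h => ⟨h.1.irr, h⟩, fun h => h.2⟩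
  have h2 : Nat.card {theta : X → ℂ // (IsWt p (Q.subgroupOf X) theta ∧
      centralValue red theta (fun x => z x) = c) ∧
      ¬ ∃ g : J, g ∉ X ∧ g ^ p ∈ X ∧ cj X g theta = theta} =
      ((Irr X).filter fun theta => (IsWt p (Q.subgroupOf X) theta ∧
      centralValue red theta (fun x => z x) = c) ∧
      ¬ ∃ g : J, g ∉ X ∧ g ^ p ∈ X ∧ cj X g theta = theta).card := by
    rw [← Fintype.card_coe, ← Nat.card_eq_fintype_card]
    refine Nat.card_congr (Equiv.subtypeEquivRight fun theta => ?_)
    rw [Finset.mem_filter, mem_Irr]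
    exact ⟨fun h => ⟨h.1.1.irr, h⟩, fun h => h.2⟩
  rw [h1, h2]
  have h3 : ∀ theta : X → ℂ, ∃ chi : J → ℂ, IsIrrChar theta → IsIrrChar chi ∧
      mult X chi theta ≠ 0 := by
    intro theta
    by_cases h : IsIrrChar theta
    · obtain ⟨chi, hc⟩ := exists_above X h
      exact ⟨chi, fun _ => hc⟩
    · exact ⟨0, fun h' => absurd h' h⟩
  choose f hf using h3
  refine Finset.card_le_mul_card_image_of_maps_to (f := f) ?_ X.index ?_
  · intro theta ht
    rw [Finset.mem_filter, mem_Irr] at ht
    obtain ⟨ht, ⟨hw, hcv⟩, hg⟩ := ht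
    obtain ⟨hc, hm⟩ := hf theta ht
    rw [Finset.mem_filter, mem_Irr]
    refine ⟨hc, above X hQX hw hg hc hm, ?_⟩
    rw [Pool.Agent.Y809.NV.cv_eq X red hc ht hm hz]
    exact hcv
  · intro chi hchi
    rw [Finset.mem_filter, mem_Irr] at hchi
    rcases Finset.eq_empty_or_nonempty (Finset.filter (fun a => f a = chi)
      (Finset.filter (fun theta => (IsWt p (Q.subgroupOf X) theta ∧
        centralValue red theta (fun x => z x) = c) ∧
        ¬ ∃ g : J, g ∉ X ∧ g ^ p ∈ X ∧ cj X g theta = theta) (Irr X))) with h0 | ⟨t0, h0⟩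
    · rw [h0, Finset.card_empty]
      exact Nat.zero_le _
    · rw [Finset.mem_filter, Finset.mem_filter, mem_Irr] at h0
      obtain ⟨⟨h4, -⟩, h5⟩ := h0
      refine (Finset.card_le_card ?_).trans (orb_le X h4)
      intro t ht
      rw [Finset.mem_filter, Finset.mem_filter, mem_Irr] at ht
      obtain ⟨⟨h6, -⟩, h7⟩ := ht
      have h8 := (hf t0 h4).2
      have h9 := (hf t h6).2
      rw [h5] at h8
      rw [h7] at h9
      exact mem_Orb_of_mult X hchi.1 h4 h6 h8 h9

end

/-- `N_K(Q)` normalises `M Q` -/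
theorem loc_normal {K : Type} [Group K] (M Q : Subgroup K) [hM : M.Normal] :
    ((loc M Q).subgroupOf (Subgroup.normalizer (Q : Set K))).Normal := by
  constructor
  intro x hx g
  rw [Subgroup.mem_subgroupOf] at hx ⊢
  refine ⟨?_, (g * x * g⁻¹).2⟩
  have h1 : (x : K) ∈ M ⊔ Q := hx.1
  have h2 : ∀ y ∈ M ⊔ Q, (g : K) * y * (g : K)⁻¹ ∈ M ⊔ Q := by
    intro y hy
    rw [Subgroup.sup_eq_closure_mul, ← SetLike.mem_coe] at hy
    rw [← Subgroup.sup_eq_closure_mul] at hy
    have h3 : M ⊔ Q ≤ (M ⊔ Q).comap (MulAut.conj (g : K)).toMonoidHom := by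
      refine sup_le ?_ ?_
      · intro m hm
        exact Subgroup.mem_sup_left (hM.conj_mem m hm g)
      · intro q hq
        exact Subgroup.mem_sup_right ((Subgroup.mem_normalizer_iff.1 g.2 q).1 hq)
    exact h3 hy
  exact h2 _ h1

/-- transport of central values along an isomorphism -/
theorem cv_iso {A B : Type} [Group A] [Group B] [Finite A] [Finite B] (e : A ≃* B) {F : Type}
    [Field F] (red : integralClosure ℤ ℂ →+* F) {χ : B → ℂ} (h : IsIrrChar χ) {f : B → F}
    (hf : IsClassFun f) :
    centralValue red (fun x => χ (e x)) (fun x => f (e x)) = centralValue red χ f := by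
  have h1 := Pool.Agent.Y930.NV.inf F red A B e.toMonoidHom χ (fun x => f (e x)) e.surjective h
    (fun g x => by
      show f (e (g * x * g⁻¹)) = f (e x)
      rw [map_mul, map_mul, map_inv]
      exact hf (e g) (e x))
  have h2 : (fun y => ∑ᶠ x : A, if e.toMonoidHom x = y then f (e x) else 0) = f := by
    funext y
    rw [finsum_eq_single _ (e.symm y)]
    · have h4 : e.toMonoidHom (e.symm y) = y := e.apply_symm_apply y
      rw [if_pos h4, e.apply_symm_apply]
    · intro x hx
      rw [if_neg]
      intro h3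
      apply hx
      rw [← h3]
      exact (e.symm_apply_apply x).symm
  rw [h2] at h1
  exact h1

theorem main : S_DDNK := by
  intro p hp F _ _ _ red K _ _ M hM z c hz Q hQ
  have hle : loc M Q ≤ Subgroup.normalizer (Q : Set K) := inf_le_right
  have hX : ((loc M Q).subgroupOf (Subgroup.normalizer (Q : Set K))).Normal := loc_normal M Q
  have : Fintype (Subgroup.normalizer (Q : Set K)) := Fintype.ofFinite _
  have hQloc : Q ≤ loc M Q := le_inf le_sup_right Subgroup.le_normalizer
  have hQn : (Q.subgroupOf (Subgroup.normalizer (Q : Set K))).Normal := Subgroup.normal_in_normalizer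
  have hQX : Q.subgroupOf (Subgroup.normalizer (Q : Set K)) ≤
      (loc M Q).subgroupOf (Subgroup.normalizer (Q : Set K)) := fun x hx => hQloc hx
  have hz' : InZ ((loc M Q).subgroupOf (Subgroup.normalizer (Q : Set K)))
      (fun x : Subgroup.normalizer (Q : Set K) => z x) := by
    refine ⟨fun g x => hz.conj g x, fun x hx => hz.supp x fun hxM => hx ?_⟩
    exact ⟨Subgroup.mem_sup_left hxM, x.2⟩
  have hcount := count ((loc M Q).subgroupOf (Subgroup.normalizer (Q : Set K))) (p := p) hQX red
    hz' c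
  have hidx : ((loc M Q).subgroupOf (Subgroup.normalizer (Q : Set K))).index ≤
      Nat.card (K ⧸ M) := by
    rw [← Subgroup.index_eq_card]
    have h1 : M.subgroupOf (Subgroup.normalizer (Q : Set K)) ≤
        (loc M Q).subgroupOf (Subgroup.normalizer (Q : Set K)) :=
      fun x hx => ⟨Subgroup.mem_sup_left hx, x.2⟩
    have h2 := Subgroup.index_dvd_of_le h1
    have h3 : (M.subgroupOf (Subgroup.normalizer (Q : Set K))).index ∣ M.index :=
      Subgroup.relIndex_dvd_index_of_normal M (Subgroup.normalizer (Q : Set K))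
    exact Nat.le_of_dvd (Nat.pos_of_ne_zero Subgroup.index_ne_zero_of_finite) (h2.trans h3)
  refine le_trans ?_ (hcount.trans (Nat.mul_le_mul_right _ hidx))
  unfold gd
  let e : (loc M Q).subgroupOf (Subgroup.normalizer (Q : Set K)) ≃* loc M Q :=
    Subgroup.subgroupOfEquivOfLe hle
  have he : ∀ x, ((e x : loc M Q) : K) = ((x : Subgroup.normalizer (Q : Set K)) : K) := fun x => rfl
  have hfin : Finite {theta : (loc M Q).subgroupOf (Subgroup.normalizer (Q : Set K)) → ℂ //
      (IsWt p ((Q.subgroupOf (Subgroup.normalizer (Q : Set K))).subgroupOf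
        ((loc M Q).subgroupOf (Subgroup.normalizer (Q : Set K)))) theta ∧
      centralValue red theta (fun x => z x) = c) ∧
      ¬ ∃ g : Subgroup.normalizer (Q : Set K),
        g ∉ (loc M Q).subgroupOf (Subgroup.normalizer (Q : Set K)) ∧
        g ^ p ∈ (loc M Q).subgroupOf (Subgroup.normalizer (Q : Set K)) ∧
        cj ((loc M Q).subgroupOf (Subgroup.normalizer (Q : Set K))) g theta = theta} :=
    (Set.Finite.subset (irr_finite (G := (loc M Q).subgroupOf (Subgroup.normalizer (Q : Set K))))
      fun χ hχ => hχ.1.1.irr).to_subtype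
  refine Nat.card_le_card_of_injective (fun ψ => ⟨fun x => ψ.1 (e x), ⟨?_, ?_⟩, ?_⟩) ?_
  · exact (Pool.Agent.Y210.NV3.wt_iff e.toMonoidHom e.surjective p (Q.subgroupOf (loc M Q)) ψ.1).2
      ψ.2.1.1
  · have h1 := cv_iso e red (χ := ψ.1) ψ.2.1.1.irr (f := fun x : loc M Q => z x)
      (fun g x => hz.conj g x)
    exact h1.trans ψ.2.1.2
  · rintro ⟨g, hg1, hg2, hg3⟩
    refine ψ.2.2 ⟨g, g.2, fun h => hg1 ⟨h, g.2⟩, hg2.1, ?_⟩
    intro x y hxy
    have h1 : ψ.1 (e (MulAut.conjNormal g (e.symm x))) = ψ.1 (e (e.symm x)) :=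
      congrFun hg3 (e.symm x)
    have h2 : e (MulAut.conjNormal g (e.symm x)) = y := by
      apply Subtype.ext
      rw [hxy, he, MulAut.conjNormal_apply]
      show (g : K) * ((e.symm x : (loc M Q).subgroupOf (Subgroup.normalizer (Q : Set K))) :
        Subgroup.normalizer (Q : Set K)) * (g : K)⁻¹ = _
      rw [← he, e.apply_symm_apply]
    rw [h2, e.apply_symm_apply] at h1
    exact h1
  · intro ψ ψ' h
    apply Subtype.ext
    funext x
    have h1 := congrFun (congrArg Subtype.val h) (e.symm x)
    simp only [e.apply_symm_apply] at h1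
    exact h1

end Pool.Agent.N85.AW.Ddn
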