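import Pool.Agent.N85.AW.Stm
import Pool.Agent.N85.WM.Pir

/-!
# The density theorem for two irreducible representations
-/

set_option autoImplicit false

open scoped Classical BigOperators MonoidAlgebra
open Representation

noncomputable section

namespace Pool.Agent.N85.AW.Dens

open Pool.Agent.Y63.NV Pool.Agent.N85.WM Pool.Agent.N85.AW
open Pool.Agent.Y914.NV (pair burn act expand)

theorem main : S_DENS := by
  intro F _ _ G _ _ V _ _ _ ρ W _ _ _ σ hρ hσ hT A
  have := hρ
  have := hσ
  have : Fintype G := Fintype.ofFinite G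
  have hV : Nontrivial V := IsSimpleModule.nontrivial F[G] ρ.asModule
  have hiso : IsEmpty (ρ.asModule ≃ₗ[F[G]] σ.asModule) := by
    refine ⟨fun e => ?_⟩
    let e2 : V ≃ₗ[F] W := ρ.asModuleEquiv.symm.trans ((e.restrictScalars F).trans σ.asModuleEquiv)
    have h1 : ∀ (g : G) (v : V), e2 (ρ g v) = σ g (e2 v) := by
      intro g v
      have h2 : ρ g v = ρ.asAlgebraHom (MonoidAlgebra.of F G g) v := by
        rw [asAlgebraHom_of]
      have h3 : σ g (e2 v) = σ.asAlgebraHom (MonoidAlgebra.of F G g) (e2 v) := by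
        rw [asAlgebraHom_of]
      rw [h2, h3, act, act]
      change σ.asModuleEquiv (e (ρ.asModuleEquiv.symm (ρ.asModuleEquiv _))) = _
      rw [LinearEquiv.symm_apply_apply, map_smul]
      change _ = σ.asModuleEquiv (_ • σ.asModuleEquiv.symm (σ.asModuleEquiv _))
      rw [LinearEquiv.symm_apply_apply]
      rfl
    have h4 := hT e2.toLinearMap h1
    obtain ⟨v, hv⟩ := exists_ne (0 : V)
    apply hv
    apply e2.injective
    rw [map_zero]
    exact congrArg (fun T : V →ₗ[F] W => T v) h4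
  obtain ⟨a, ha, hb⟩ := pair (F := F) (A := F[G]) hiso
  obtain ⟨x, hx⟩ := burn (F := F) (A := F[G]) (V := ρ.asModule)
    ((ρ.asModuleEquiv.symm : V →ₗ[F] ρ.asModule) ∘ₗ A ∘ₗ
      (ρ.asModuleEquiv : ρ.asModule →ₗ[F] V))
  obtain ⟨β, hβ⟩ := expand (x * a)
  have e1 : ρ.asAlgebraHom (x * a) = A := by
    ext w
    rw [act, mul_smul, ha, hx]
    simp
  have e2 : σ.asAlgebraHom (x * a) = 0 := by
    ext w
    rw [act, mul_smul, hb, smul_zero]
    simp
  refine ⟨β, ?_, ?_⟩
  · rw [finsum_eq_sum_of_fintype, ← e1, hβ, map_sum]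
    refine Finset.sum_congr rfl fun g _ => ?_
    rw [asAlgebraHom_single]
  · rw [finsum_eq_sum_of_fintype, ← e2, hβ, map_sum]
    refine Finset.sum_congr rfl fun g _ => ?_
    rw [asAlgebraHom_single]

end Pool.Agent.N85.AW.Dens
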