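import Pool.Agent.N85.AW.Stm
import Pool.Agent.Y210.NV2.NQ

/-!
# Characters of defect zero and normal subgroups, upper bound (helper152)
-/

set_option autoImplicit false
set_option linter.unusedSectionVars false

open scoped Classical BigOperators

noncomputable section

namespace Pool.Agent.N85.AW.Dup

open Pool.Agent.Y63.NV Pool.Agent.N85.WM Pool.Agent.N85.AW

/-- counting fibres -/
theorem card_le_mul {A B : Type} [Finite A] [Finite B] (f : A → B) (m : ℕ)
    (h : ∀ b, Nat.card {a // f a = b} ≤ m) : Nat.card A ≤ m * Nat.card B := by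
  have : Fintype B := Fintype.ofFinite B
  rw [Nat.card_congr (Equiv.sigmaFiberEquiv f).symm, Nat.card_sigma]
  refine (Finset.sum_le_sum fun b _ => h b).trans (le_of_eq ?_)
  rw [Finset.sum_const, Finset.card_univ, smul_eq_mul, Nat.card_eq_fintype_card, mul_comm]

instance fin_sub {F : Type} [Field F] [IsAlgClosed F] {G : Type} [Group G] [Finite G]
    (P : (G → F) → Prop) : Finite {φ : G → F // IsIrrTrace φ ∧ P φ} :=
  Finite.of_injective (fun φ => (⟨φ.1, φ.2.1⟩ : {φ : G → F // IsIrrTrace φ}))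
    fun _ _ h => Subtype.ext (congrArg (fun t : {φ : G → F // IsIrrTrace φ} => t.1) h)

theorem dup0 (h1 : S_REL) (h2 : S_HIG) (h3 : S_BRG) : S_DUP0 := by
  intro p _ F _ _ _ red J _ _ X _ z c hz
  have hzc : IsClassFun z := hz.conj
  have hzX : IsClassFun (fun x : X => z x) := fun g x => hz.conj g x
  rw [h3 p F red J z c hzc, h3 p F red X (fun x : X => z x) c hzX]
  obtain ⟨r1, -, -, r4, r5⟩ := h1 F J X
  have key : ∀ φ : {φ : J → F // IsIrrTrace φ ∧ Hig p φ ∧ Acts z c φ},
      ∃ θ : {θ : X → F // IsIrrTrace θ ∧ Hig p θ ∧ Acts (fun x : X => z x) c θ},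
        Rel X φ.1 θ.1 := by
    rintro ⟨φ, a1, a2, a3⟩
    obtain ⟨θ, b1, b2⟩ := r1 φ a1
    exact ⟨⟨θ, b1, h2 p F J X φ θ b2 a2, (r5 φ θ b2 z hz c).1 a3⟩, b2⟩
  choose f hf using key
  refine card_le_mul f _ fun θ => ?_
  refine le_trans ?_ (r4 θ.1 θ.2.1)
  refine Nat.card_le_card_of_injective
    (fun a : {a // f a = θ} => (⟨a.1.1, a.1.2.1, by
      have h := hf a.1
      rw [a.2] at h
      exact h⟩ : {φ : J → F // IsIrrTrace φ ∧ Rel X φ θ.1})) ?_
  intro a b h
  exact Subtype.ext (Subtype.ext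
    (congrArg (fun t : {φ : J → F // IsIrrTrace φ ∧ Rel X φ θ.1} => t.1) h))

section

variable {K : Type} [Group K] (M Q : Subgroup K) [M.Normal]

theorem mem_nrm {x : K} : x ∈ Subgroup.normalizer (Q : Set K) ↔
    ∀ h : K, h ∈ Q ↔ x * h * x⁻¹ ∈ Q := Subgroup.mem_normalizer_iff

instance nQ : (Q.subgroupOf (Subgroup.normalizer (Q : Set K))).Normal :=
  ⟨fun n hn g => ((mem_nrm Q).1 g.2 n).1 hn⟩

theorem loc_le : loc M Q ≤ Subgroup.normalizer (Q : Set K) := inf_le_right

theorem Q_le_nrm : Q ≤ Subgroup.normalizer (Q : Set K) := fun x hx => by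
  rw [mem_nrm]
  intro h
  constructor
  · intro hh
    exact Q.mul_mem (Q.mul_mem hx hh) (Q.inv_mem hx)
  · intro hh
    have h4 : h = x⁻¹ * (x * h * x⁻¹) * x := by group
    rw [h4]
    exact Q.mul_mem (Q.mul_mem (Q.inv_mem hx) hh) hx

instance nX : ((loc M Q).subgroupOf (Subgroup.normalizer (Q : Set K))).Normal := by
  refine ⟨fun n hn g => ?_⟩
  have hn' : (n : K) ∈ M ⊔ Q := (Subgroup.mem_inf.1 hn).1
  refine Subgroup.mem_inf.2 ⟨?_, (g * n * g⁻¹).2⟩
  show (g : K) * (n : K) * (g : K)⁻¹ ∈ M ⊔ Q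
  rw [← SetLike.mem_coe, Subgroup.normal_mul, Set.mem_mul] at hn'
  obtain ⟨m, hm, q, hq, hqm⟩ := hn'
  have h5 : (g : K) * (n : K) * (g : K)⁻¹ =
      ((g : K) * m * (g : K)⁻¹) * ((g : K) * q * (g : K)⁻¹) := by
    rw [← hqm]
    group
  rw [h5]
  refine (M ⊔ Q).mul_mem (le_sup_left (a := M) (b := Q) ?_) (le_sup_right (a := M) (b := Q) ?_)
  · exact Subgroup.Normal.conj_mem inferInstance m hm g
  · exact ((mem_nrm Q).1 g.2 q).1 hq

/-- the projection of `N_K(Q)` -/
abbrev pj : Subgroup.normalizer (Q : Set K) →*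
    Subgroup.normalizer (Q : Set K) ⧸ Q.subgroupOf (Subgroup.normalizer (Q : Set K)) :=
  QuotientGroup.mk' _

theorem pj_surj : Function.Surjective (pj Q) := QuotientGroup.mk'_surjective _

/-- the image of `loc M Q` -/
abbrev Xb : Subgroup (Subgroup.normalizer (Q : Set K) ⧸
    Q.subgroupOf (Subgroup.normalizer (Q : Set K))) :=
  ((loc M Q).subgroupOf (Subgroup.normalizer (Q : Set K))).map (pj Q)

instance nXb : (Xb M Q).Normal := Subgroup.Normal.map inferInstance _ (pj_surj Q)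

/-- the projection of `loc M Q` -/
def px : loc M Q →* Xb M Q :=
  ((pj Q).comp (Subgroup.inclusion (loc_le M Q))).codRestrict (Xb M Q)
    fun x => ⟨Subgroup.inclusion (loc_le M Q) x, x.2, rfl⟩

theorem px_coe (x : loc M Q) : (px M Q x).1 = pj Q (Subgroup.inclusion (loc_le M Q) x) := rfl

theorem px_surj : Function.Surjective (px M Q) := by
  rintro ⟨y, hy⟩
  obtain ⟨u, hu, rfl⟩ := hy
  exact ⟨⟨u.1, hu⟩, Subtype.ext rfl⟩

theorem comap_pj : (⊥ : Subgroup _).comap (pj Q) =
    Q.subgroupOf (Subgroup.normalizer (Q : Set K)) := by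
  rw [MonoidHom.comap_bot, QuotientGroup.ker_mk']

theorem comap_px : (⊥ : Subgroup _).comap (px M Q) = Q.subgroupOf (loc M Q) := by
  ext x
  rw [Subgroup.mem_comap, Subgroup.mem_bot, Subgroup.mem_subgroupOf]
  have h1 : px M Q x = 1 ↔ pj Q (Subgroup.inclusion (loc_le M Q) x) = 1 := by
    rw [← px_coe]
    exact ⟨fun h => congrArg Subtype.val h, fun h => Subtype.ext h⟩
  rw [h1, ← MonoidHom.mem_ker, QuotientGroup.ker_mk', Subgroup.mem_subgroupOf]
  rfl

variable {F : Type} [Field F]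

/-- the sum over the cosets of `Q` -/
def zb (z : K → F) (y : Subgroup.normalizer (Q : Set K) ⧸
    Q.subgroupOf (Subgroup.normalizer (Q : Set K))) : F :=
  ∑ᶠ x : Subgroup.normalizer (Q : Set K), if pj Q x = y then z x else 0

theorem zb_InZ {z : K → F} (hz : InZ M z) : InZ (Xb M Q) (zb Q z) := by
  constructor
  · intro g y
    obtain ⟨u, rfl⟩ := pj_surj Q g
    unfold zb
    refine (finsum_comp_equiv (MulAut.conj u).toEquiv).symm.trans (finsum_congr fun x => ?_)
    have h1 : (MulAut.conj u).toEquiv x = u * x * u⁻¹ := rfl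
    rw [h1]
    have h2 : pj Q (u * x * u⁻¹) = pj Q u * y * (pj Q u)⁻¹ ↔ pj Q x = y := by
      rw [map_mul, map_mul, map_inv, mul_left_inj, mul_right_inj]
    have h3 : z ((u * x * u⁻¹ : Subgroup.normalizer (Q : Set K)) : K) = z x := hz.conj u x
    simp only [h2, h3]
  · intro y hy
    unfold zb
    refine Eq.trans (finsum_congr fun x => ?_) finsum_zero
    by_cases h : pj Q x = y
    · rw [if_pos h]
      refine hz.supp _ fun hx => hy ?_
      rw [← h]
      exact ⟨x, Subgroup.mem_inf.2 ⟨le_sup_left (a := M) (b := Q) hx, x.2⟩, rfl⟩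
    · rw [if_neg h]

theorem zb_px (z : K → F) (y : Xb M Q) :
    (∑ᶠ x : loc M Q, if px M Q x = y then z x else 0) = zb Q z y := by
  unfold zb
  have e2 : ∀ x : Subgroup.normalizer (Q : Set K), (if pj Q x = (y : _) then z x else 0) =
      ∑ᶠ (_ : x ∈ Set.range (Subgroup.inclusion (loc_le M Q))),
        (if pj Q x = (y : _) then z x else 0) := by
    intro x
    rw [finsum_eq_if]
    by_cases hg : x ∈ Set.range (Subgroup.inclusion (loc_le M Q))
    · rw [if_pos hg]
    · rw [if_neg hg, if_neg]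
      intro h
      apply hg
      obtain ⟨u, hu, hu'⟩ := y.2
      have h3 : u⁻¹ * x ∈ (pj Q).ker := by
        rw [MonoidHom.mem_ker, map_mul, map_inv, h, hu', inv_mul_cancel]
      rw [QuotientGroup.ker_mk', Subgroup.mem_subgroupOf] at h3
      have h4 : (x : K) = (u : K) * ((u⁻¹ * x : Subgroup.normalizer (Q : Set K)) : K) := by
        rw [Subgroup.coe_mul, Subgroup.coe_inv, mul_inv_cancel_left]
      have h5 : (x : K) ∈ M ⊔ Q := by
        rw [h4]
        exact (M ⊔ Q).mul_mem (Subgroup.mem_inf.1 hu).1 (le_sup_right (a := M) (b := Q) h3)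
      exact ⟨⟨x.1, Subgroup.mem_inf.2 ⟨h5, x.2⟩⟩, Subtype.ext rfl⟩
  rw [finsum_congr e2]
  have e3 := finsum_mem_range (f := fun x : Subgroup.normalizer (Q : Set K) =>
    if pj Q x = (y : _) then z x else 0) (Subgroup.inclusion_injective (loc_le M Q))
  refine (finsum_congr fun x => ?_).trans e3.symm
  have h1 : px M Q x = y ↔ pj Q (Subgroup.inclusion (loc_le M Q) x) = y.1 := by
    rw [← px_coe]
    exact ⟨fun h => congrArg Subtype.val h, fun h => Subtype.ext h⟩
  have h2 : z ((Subgroup.inclusion (loc_le M Q) x : Subgroup.normalizer (Q : Set K)) : K) = z x :=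
    rfl
  simp only [h1, h2]

theorem idx [Finite K] : Nat.card ((Subgroup.normalizer (Q : Set K) ⧸
    Q.subgroupOf (Subgroup.normalizer (Q : Set K))) ⧸ Xb M Q) ≤ Nat.card (K ⧸ M) := by
  have h1 : (Xb M Q).index ≤ ((loc M Q).subgroupOf (Subgroup.normalizer (Q : Set K))).index :=
    Nat.le_of_dvd (Nat.pos_of_ne_zero Subgroup.index_ne_zero_of_finite)
      (Subgroup.index_map_dvd _ (pj_surj Q))
  have h2 : (loc M Q).subgroupOf (Subgroup.normalizer (Q : Set K)) =
      (M ⊔ Q).subgroupOf (Subgroup.normalizer (Q : Set K)) := Subgroup.inf_subgroupOf_right _ _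
  have h3 : ((M ⊔ Q).subgroupOf (Subgroup.normalizer (Q : Set K))).index ≤ (M ⊔ Q).index := by
    have h4 := Subgroup.relIndex_le_of_le_right (H := M ⊔ Q)
      (K := Subgroup.normalizer (Q : Set K)) (L := ⊤) le_top (by
        rw [Subgroup.relIndex_top_right]
        exact Subgroup.index_ne_zero_of_finite)
    rw [Subgroup.relIndex_top_right] at h4
    exact h4
  have h5 : (M ⊔ Q).index ≤ M.index :=
    Nat.le_of_dvd (Nat.pos_of_ne_zero Subgroup.index_ne_zero_of_finite)
      (Subgroup.index_dvd_of_le le_sup_left)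
  rw [h2] at h1
  exact h1.trans (h3.trans h5)

end

theorem dupk (h0 : S_DUP0) : S_DUPK := by
  intro p _ F _ _ _ red K _ _ M _ z c hz Q hQ
  have e1 := Pool.Agent.Y210.NV3.nw_comap (pj Q) (pj_surj Q) Pool.Agent.Y930.NV.inf p red ⊥
    (fun x : Subgroup.normalizer (Q : Set K) => z x) (fun g x => hz.conj g x) c
  have e2 := Pool.Agent.Y210.NV3.nw_comap (px M Q) (px_surj M Q) Pool.Agent.Y930.NV.inf p red ⊥
    (fun x : loc M Q => z x) (fun g x => hz.conj g x) c
  rw [comap_pj] at e1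
  rw [comap_px] at e2
  have e1' : Nw p red (Q.subgroupOf (Subgroup.normalizer (Q : Set K)))
      (fun x : Subgroup.normalizer (Q : Set K) => z x) c = Nw p red ⊥ (zb Q z) c := by
    rw [e1]
    congr 1
    funext y
    unfold zb
    congr!
  have e2' : Nw p red (Q.subgroupOf (loc M Q)) (fun x : loc M Q => z x) c =
      Nw p red ⊥ (fun y : Xb M Q => zb Q z y) c := by
    rw [e2]
    congr 1
    funext y
    rw [← zb_px M Q z y]
    congr!
  rw [e1', e2']
  refine (h0 p F red _ (Xb M Q) (zb Q z) c (zb_InZ M Q hz)).trans ?_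
  exact Nat.mul_le_mul_right _ (idx M Q)

theorem main (h1 : S_REL) (h2 : S_HIG) (h3 : S_BRG) : S_DUPK := dupk (dup0 h1 h2 h3)

end Pool.Agent.N85.AW.Dup
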