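import Pool.Agent.N85.AW.Wre
import Pool.Agent.N85.AW.Perf2

/-!
# The main argument
-/

set_option autoImplicit false

open scoped Classical BigOperators

noncomputable section

namespace Pool.Agent.N85.AW

open Pool.Agent.Y63.NV Pool.Agent.N85.WM

/-- `l(B) ≤ C |G|^ε w(B)` for the groups generated by subgroups isomorphic to `S` -/
def ApxL (p : ℕ) {F : Type} [Field F] (red : integralClosure ℤ ℂ →+* F) (S : Type) [Group S] :
    Prop :=
  ∀ ε : ℝ, 0 < ε → ∃ C : ℝ, ∀ (G : Type) [Group G] [Finite G], GenBy S G →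
    ∀ B : (G → F) → F, IsBlock B →
      (numIrrBlock B : ℝ) ≤ C * (Nat.card G : ℝ) ^ ε * numWts p red B

/-- `w(B) ≤ C |G|^ε l(B)` for the groups generated by subgroups isomorphic to `S` -/
def ApxW (p : ℕ) {F : Type} [Field F] (red : integralClosure ℤ ℂ →+* F) (S : Type) [Group S] :
    Prop :=
  ∀ ε : ℝ, 0 < ε → ∃ C : ℝ, ∀ (G : Type) [Group G] [Finite G], GenBy S G →
    ∀ B : (G → F) → F, IsBlock B →
      (numWts p red B : ℝ) ≤ C * (Nat.card G : ℝ) ^ ε * numIrrBlock B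

theorem ar1 {A B α n m g L w C ge me P : ℝ} (hα : 0 < α) (hn : 0 < n) (hm : 0 < m) (hg : 0 < g)
    (hC : 0 ≤ C) (hge : 0 ≤ ge) (hgm : ge ≤ me) (hA : 0 ≤ A) (hB : 0 ≤ B) (hP : 0 ≤ P)
    (h1 : A ≤ α * (n * L)) (h2 : L ≤ C * ge * w) (h3 : g * w ≤ P * (m * B))
    (h4 : m * n ≤ g * α) : A ≤ α ^ 2 * P * C * me * B := by
  have hmn : 0 < m * n := mul_pos hm hn
  refine le_of_mul_le_mul_left ?_ hmn
  calc m * n * A ≤ g * α * A := mul_le_mul_of_nonneg_right h4 hA
    _ ≤ g * α * (α * (n * L)) := mul_le_mul_of_nonneg_left h1 (by positivity)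
    _ ≤ g * α * (α * (n * (C * ge * w))) := by gcongr
    _ = α ^ 2 * n * C * ge * (g * w) := by ring
    _ ≤ α ^ 2 * n * C * ge * (P * (m * B)) := mul_le_mul_of_nonneg_left h3 (by positivity)
    _ ≤ α ^ 2 * n * C * me * (P * (m * B)) := by gcongr
    _ = m * n * (α ^ 2 * P * C * me * B) := by ring

theorem ar2 {A B α n m g L w C ge me P : ℝ} (hα : 0 < α) (hn : 0 < n) (hm : 0 < m)
    (hC : 0 ≤ C) (hge : 0 ≤ ge) (hgm : ge ≤ me) (hA : 0 ≤ A) (hw : 0 ≤ w) (hP : 0 ≤ P)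
    (h1 : m * B ≤ P * (g * w)) (h2 : w ≤ C * ge * L) (h3 : L ≤ n * (α * A))
    (h4 : g ≤ m * n) : B ≤ α * n ^ 2 * P * C * me * A := by
  refine le_of_mul_le_mul_left ?_ hm
  calc m * B ≤ P * (g * w) := h1
    _ ≤ P * (m * n * w) := by gcongr
    _ ≤ P * (m * n * (C * ge * L)) := by gcongr
    _ ≤ P * (m * n * (C * ge * (n * (α * A)))) := by gcongr
    _ ≤ P * (m * n * (C * me * (n * (α * A)))) := by gcongr
    _ = m * (α * n ^ 2 * P * C * me * A) := by ring

theorem sq_le (n : ℕ) : n ^ 2 ≤ 4 * 2 ^ n := by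
  have h : ∀ n : ℕ, 2 ≤ n → n ^ 2 ≤ 4 * 2 ^ n := by
    intro n hn
    induction n, hn using Nat.le_induction with
    | base => norm_num
    | succ n hn ih =>
      rcases Nat.lt_or_ge n 3 with h | h
      · have : n = 2 := by omega
        subst this
        norm_num
      · rw [pow_succ 2 n]
        nlinarith
  rcases Nat.lt_or_ge n 2 with h' | h'
  · interval_cases n <;> norm_num
  · exact h n h'

section core

variable {F : Type} [Field F] [IsAlgClosed F]
  {T H : Type} [Group T] [Fintype T] [Group H] [Finite H] (k : ℕ) {z : H → F}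

/-- the comparison for `Γ`, irreducible traces -/
theorem cmpL (p : ℕ) [Fact p.Prime] [CharP F p] (hREL : S_REL) (hz : IsIdem z) (hs : ∀ x : H, x ∉ commutator H → z x = 0) :
    (Lnum (⊤ : Subgroup H) ⊤ z 1) ^ (Nat.card T * k) ≤
        Nat.card (Abelianization (Fin k → H)) * (Nat.card T *
          Lnum (⊤ : Subgroup (Gam T (Fin k → H))) ⊤
            (fun x : Gam T (Fin k → H) => ten T k z x) 1) ∧
      Lnum (⊤ : Subgroup (Gam T (Fin k → H))) ⊤
          (fun x : Gam T (Fin k → H) => ten T k z x) 1 ≤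
        Nat.card T * (Nat.card (Abelianization (Fin k → H)) *
          (Lnum (⊤ : Subgroup H) ⊤ z 1) ^ (Nat.card T * k)) := by
  have h0 := inZ_ten (T := T) (k := k) hz.cl hs
  have h1 := san_l (Bas T (Fin k → H)) (Gam T (Fin k → H)) (z := ten T k z) 1 hREL h0
  have h2 := san_l (Gam T (Fin k → H)) (Bas T (Fin k → H)) (z := ten T k z) 1 hREL
    (inZ_symm _ _ h0)
  rw [lnum_bas p hz] at h1 h2
  refine ⟨h1.trans ?_, h2.trans ?_⟩
  · exact Nat.mul_le_mul rel1 (Nat.mul_le_mul_right _ rel2)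
  · exact Nat.mul_le_mul rel2 (Nat.mul_le_mul_right _ rel1)

/-- the comparison for `Γ`, weights -/
theorem cmpW {p : ℕ} [Fact p.Prime] [CharP F p] (red : integralClosure ℤ ℂ →+* F) (hWUP : S_WUP) (hWLO : S_WLO) (hz : IsIdem z)
    (hs : ∀ x : H, x ∉ commutator H → z x = 0) :
    (Nat.card (T → Fin k → H) : ℤ) *
        (Nat.card {y : YS p H // cvS red y z = 1} : ℤ) ^ (Nat.card T * k) ≤
      64 ^ Nat.card (Abelianization (Fin k → H)) * 64 ^ Nat.card T *
        (Nat.card (Gam T (Fin k → H)) *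
          Nat.card {y : YS p (Gam T (Fin k → H)) //
            cvS red y (fun x : Gam T (Fin k → H) => ten T k z x) = 1}) ∧
    (Nat.card (Gam T (Fin k → H)) *
          Nat.card {y : YS p (Gam T (Fin k → H)) //
            cvS red y (fun x : Gam T (Fin k → H) => ten T k z x) = 1} : ℤ) ≤
      64 ^ Nat.card (Abelianization (Fin k → H)) * 64 ^ Nat.card T *
        ((Nat.card (T → Fin k → H) : ℤ) *
          (Nat.card {y : YS p H // cvS red y z = 1} : ℤ) ^ (Nat.card T * k)) := by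
  have h0 := inZ_ten (T := T) (k := k) hz.cl hs
  have h1 := san_w (Bas T (Fin k → H)) (Gam T (Fin k → H)) (z := ten T k z) 1 red hWUP hWLO h0
  have h2 := san_w (Gam T (Fin k → H)) (Bas T (Fin k → H)) (z := ten T k z) 1 red hWUP hWLO
    (inZ_symm _ _ h0)
  have hc : IsClassFun (fun x : Gam T (Fin k → H) => ten T k z x) := fun g x => h0.conj g x
  rw [wsum_bas p red hz, wsum_top red hc] at h1 h2
  have e1 : (64 : ℤ) ^ Nat.card (Bas T (Fin k → H) ⧸
      (Gam T (Fin k → H)).subgroupOf (Bas T (Fin k → H))) ≤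
      64 ^ Nat.card (Abelianization (Fin k → H)) :=
    pow_le_pow_right₀ (by norm_num) rel1
  have e2 : (64 : ℤ) ^ Nat.card (Gam T (Fin k → H) ⧸
      (Bas T (Fin k → H)).subgroupOf (Gam T (Fin k → H))) ≤ 64 ^ Nat.card T :=
    pow_le_pow_right₀ (by norm_num) rel2
  refine ⟨h1.trans ?_, h2.trans ?_⟩
  · rw [← mul_assoc]
    refine mul_le_mul_of_nonneg_right ?_ (by positivity)
    exact mul_le_mul e1 e2 (by positivity) (by positivity)
  · rw [← mul_assoc, mul_comm ((64 : ℤ) ^ Nat.card (Gam T (Fin k → H) ⧸ _))]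
    refine mul_le_mul_of_nonneg_right ?_ (by positivity)
    exact mul_le_mul e1 e2 (by positivity) (by positivity)

end core

section main

variable {p : ℕ} [Fact p.Prime] {F : Type} [Field F] [IsAlgClosed F] [CharP F p]
  (red : integralClosure ℤ ℂ →+* F) (S : Type) [Group S] [Finite S] [Nontrivial S]

theorem card_tk (s r k h : ℕ) (S H : Type) [Finite S] [Finite H] (hs : Nat.card S = s)
    (hh : Nat.card H = h) : Nat.card ((Fin r → S) → Fin k → H) = h ^ (k * s ^ r) ∧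
      Nat.card (Fin r → S) = s ^ r := by
  have e : Nat.card (Fin r → S) = s ^ r := by
    rw [Nat.card_fun, Nat.card_eq_fintype_card (α := Fin r), Fintype.card_fin, hs]
  refine ⟨?_, e⟩
  rw [Nat.card_fun, e, Nat.card_fun, Nat.card_eq_fintype_card (α := Fin k), Fintype.card_fin,
    hh, ← pow_mul]

/-- **`l ≤ w`** -/
theorem coreL (hREL : S_REL) (hWUP : S_WUP) (hWLO : S_WLO) (hIDL : S_IDL)
    (hGROW : S_GROW) (h : ApxL p red S) (H : Type) [Group H] [Finite H]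
    (B : (H → F) → F) (hB : IsBlock B) : numIrrBlock B ≤ numWts p red B := by
  have : Fintype S := Fintype.ofFinite S
  obtain ⟨z, N, hz, hs, hN, e1, e2⟩ := hIDL p F red H B hB
  set s : ℕ := Nat.card S with hsdef
  set η : ℕ := Nat.card H with hηdef
  have hs2 : 2 ≤ s := Finite.one_lt_card
  have hη : 1 ≤ η := Nat.card_pos
  have key : Lnum (⊤ : Subgroup H) ⊤ z 1 ≤ Nat.card {y : YS p H // cvS red y z = 1} := by
    refine hGROW _ _ η s hη hs2
      ⟨fun k => (Nat.card (Abelianization (Fin k → H)) : ℝ) ^ 2 *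
        64 ^ Nat.card (Abelianization (Fin k → H)), fun ε hε => ?_⟩
    obtain ⟨C, hC⟩ := h ε hε
    refine ⟨|C|, fun k r hk hr => ?_⟩
    obtain ⟨c1, c2⟩ := card_tk s r k η S H rfl rfl
    have hab : Finite (Abelianization (Fin k → H)) :=
      inferInstanceAs (Finite ((Fin k → H) ⧸ commutator (Fin k → H)))
    have l1 := (cmpL (T := Fin r → S) k p hREL hz hs).1
    have w1 := (cmpW (T := Fin r → S) k red hWUP hWLO hz hs).2
    have g1 := le_card_gam (T := Fin r → S) (H := Fin k → H)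
    have g2 := card_gam_le (T := Fin r → S) (H := Fin k → H)
    have hc : IsClassFun (fun x : Gam (Fin r → S) (Fin k → H) => ten (Fin r → S) k z x) :=
      fun g x => (inZ_ten (T := Fin r → S) (k := k) hz.cl hs).conj g x
    have hG := Perf2.gen_gam S r hr (Fin k → H)
    have m1 := sum_le_wts (p := p) red (C * (Nat.card (Gam (Fin r → S) (Fin k → H)) : ℝ) ^ ε)
      (hC (Gam (Fin r → S) (Fin k → H)) hG) hc 1
    rw [c1] at w1 g1 g2
    rw [c2] at l1 w1 g1 g2
    set α : ℕ := Nat.card (Abelianization (Fin k → H)) with hα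
    set g : ℕ := Nat.card (Gam (Fin r → S) (Fin k → H)) with hg
    set L : ℕ := Lnum (⊤ : Subgroup (Gam (Fin r → S) (Fin k → H))) ⊤
      (fun x : Gam (Fin r → S) (Fin k → H) => ten (Fin r → S) k z x) 1 with hL
    set w : ℕ := Nat.card {y : YS p (Gam (Fin r → S) (Fin k → H)) //
      cvS red y (fun x : Gam (Fin r → S) (Fin k → H) => ten (Fin r → S) k z x) = 1} with hw
    set a : ℕ := Lnum (⊤ : Subgroup H) ⊤ z 1 with ha
    set b : ℕ := Nat.card {y : YS p H // cvS red y z = 1} with hb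
    have gpos : 0 < g := Nat.card_pos
    have apos : 0 < α := Nat.card_pos
    have spos : 0 < s := by omega
    have m2 : (L : ℝ) ≤ |C| * (g : ℝ) ^ ε * w := by
      refine m1.trans ?_
      have : 0 ≤ (g : ℝ) ^ ε := by positivity
      gcongr
      exact le_abs_self C
    have r1 : ((a : ℝ) ^ (k * s ^ r)) ≤ α * ((s : ℝ) ^ r * L) := by
      rw [mul_comm k]
      exact_mod_cast l1
    have r2 : (g : ℝ) * w ≤ (64 ^ α * 64 ^ (s ^ r)) * ((η : ℝ) ^ (k * s ^ r) *
        (b : ℝ) ^ (k * s ^ r)) := by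
      have := w1
      rw [mul_comm (s ^ r) k] at this
      exact_mod_cast this
    have r3 : (η : ℝ) ^ (k * s ^ r) * (s : ℝ) ^ r ≤ g * α := by exact_mod_cast g1
    have r4 : (g : ℝ) ≤ (η : ℝ) ^ (k * s ^ r) * (s : ℝ) ^ r := by exact_mod_cast g2
    have r5 : (g : ℝ) ^ ε ≤ ((η : ℝ) ^ (k * s ^ r) * (s : ℝ) ^ r) ^ ε :=
      Real.rpow_le_rpow (by positivity) r4 hε.le
    have fin := ar1 (A := (a : ℝ) ^ (k * s ^ r)) (B := (b : ℝ) ^ (k * s ^ r))
      (α := (α : ℝ)) (n := (s : ℝ) ^ r) (m := (η : ℝ) ^ (k * s ^ r)) (g := (g : ℝ))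
      (L := (L : ℝ)) (w := (w : ℝ)) (C := |C|) (ge := (g : ℝ) ^ ε)
      (me := ((η : ℝ) ^ (k * s ^ r) * (s : ℝ) ^ r) ^ ε) (P := 64 ^ α * 64 ^ (s ^ r))
      (by positivity) (by positivity) (by positivity) (by positivity) (abs_nonneg C)
      (by positivity) r5 (by positivity) (by positivity) (by positivity) r1 m2 r2 r3
    refine fin.trans ?_
    have r6 : (64 : ℝ) ^ (s ^ r) ≤ 128 ^ (s ^ r) := pow_le_pow_left₀ (by norm_num) (by norm_num) _
    calc (α : ℝ) ^ 2 * (64 ^ α * 64 ^ (s ^ r)) * |C| *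
          ((η : ℝ) ^ (k * s ^ r) * (s : ℝ) ^ r) ^ ε * (b : ℝ) ^ (k * s ^ r)
        ≤ (α : ℝ) ^ 2 * (64 ^ α * 128 ^ (s ^ r)) * |C| *
          ((η : ℝ) ^ (k * s ^ r) * (s : ℝ) ^ r) ^ ε * (b : ℝ) ^ (k * s ^ r) := by gcongr
      _ = |C| * ((η : ℝ) ^ (k * s ^ r) * (s : ℝ) ^ r) ^ ε * 128 ^ (s ^ r) *
          ((α : ℝ) ^ 2 * 64 ^ α) * (b : ℝ) ^ (k * s ^ r) := by ring
  rw [e1, e2] at key
  exact Nat.le_of_mul_le_mul_left key hN

/-- **`w ≤ l`** -/
theorem coreW (hREL : S_REL) (hWUP : S_WUP) (hWLO : S_WLO) (hIDL : S_IDL)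
    (hGROW : S_GROW) (h : ApxW p red S) (H : Type) [Group H] [Finite H]
    (B : (H → F) → F) (hB : IsBlock B) : numWts p red B ≤ numIrrBlock B := by
  have : Fintype S := Fintype.ofFinite S
  obtain ⟨z, N, hz, hs, hN, e1, e2⟩ := hIDL p F red H B hB
  set s : ℕ := Nat.card S with hsdef
  set η : ℕ := Nat.card H with hηdef
  have hs2 : 2 ≤ s := Finite.one_lt_card
  have hη : 1 ≤ η := Nat.card_pos
  have key : Nat.card {y : YS p H // cvS red y z = 1} ≤ Lnum (⊤ : Subgroup H) ⊤ z 1 := by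
    refine hGROW _ _ η s hη hs2
      ⟨fun k => 4 * (Nat.card (Abelianization (Fin k → H)) : ℝ) *
        64 ^ Nat.card (Abelianization (Fin k → H)), fun ε hε => ?_⟩
    obtain ⟨C, hC⟩ := h ε hε
    refine ⟨|C|, fun k r hk hr => ?_⟩
    obtain ⟨c1, c2⟩ := card_tk s r k η S H rfl rfl
    have hab : Finite (Abelianization (Fin k → H)) :=
      inferInstanceAs (Finite ((Fin k → H) ⧸ commutator (Fin k → H)))
    have l1 := (cmpL (T := Fin r → S) k p hREL hz hs).2
    have w1 := (cmpW (T := Fin r → S) k red hWUP hWLO hz hs).1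
    have g2 := card_gam_le (T := Fin r → S) (H := Fin k → H)
    have hc : IsClassFun (fun x : Gam (Fin r → S) (Fin k → H) => ten (Fin r → S) k z x) :=
      fun g x => (inZ_ten (T := Fin r → S) (k := k) hz.cl hs).conj g x
    have hG := Perf2.gen_gam S r hr (Fin k → H)
    have m1 := wts_le_sum (p := p) red (C * (Nat.card (Gam (Fin r → S) (Fin k → H)) : ℝ) ^ ε)
      (hC (Gam (Fin r → S) (Fin k → H)) hG) hc 1
    rw [c1] at w1 g2
    rw [c2] at l1 w1 g2
    set α : ℕ := Nat.card (Abelianization (Fin k → H)) with hα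
    set g : ℕ := Nat.card (Gam (Fin r → S) (Fin k → H)) with hg
    set L : ℕ := Lnum (⊤ : Subgroup (Gam (Fin r → S) (Fin k → H))) ⊤
      (fun x : Gam (Fin r → S) (Fin k → H) => ten (Fin r → S) k z x) 1 with hL
    set w : ℕ := Nat.card {y : YS p (Gam (Fin r → S) (Fin k → H)) //
      cvS red y (fun x : Gam (Fin r → S) (Fin k → H) => ten (Fin r → S) k z x) = 1} with hw
    set a : ℕ := Lnum (⊤ : Subgroup H) ⊤ z 1 with ha
    set b : ℕ := Nat.card {y : YS p H // cvS red y z = 1} with hb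
    have gpos : 0 < g := Nat.card_pos
    have apos : 0 < α := Nat.card_pos
    have spos : 0 < s := by omega
    have m2 : (w : ℝ) ≤ |C| * (g : ℝ) ^ ε * L := by
      refine m1.trans ?_
      have : 0 ≤ (g : ℝ) ^ ε := by positivity
      gcongr
      exact le_abs_self C
    have r1 : (L : ℝ) ≤ (s : ℝ) ^ r * (α * (a : ℝ) ^ (k * s ^ r)) := by
      rw [mul_comm k]
      exact_mod_cast l1
    have r2 : (η : ℝ) ^ (k * s ^ r) * (b : ℝ) ^ (k * s ^ r) ≤
        (64 ^ α * 64 ^ (s ^ r)) * ((g : ℝ) * w) := by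
      have := w1
      rw [mul_comm (s ^ r) k] at this
      exact_mod_cast this
    have r4 : (g : ℝ) ≤ (η : ℝ) ^ (k * s ^ r) * (s : ℝ) ^ r := by exact_mod_cast g2
    have r5 : (g : ℝ) ^ ε ≤ ((η : ℝ) ^ (k * s ^ r) * (s : ℝ) ^ r) ^ ε :=
      Real.rpow_le_rpow (by positivity) r4 hε.le
    have fin := ar2 (A := (a : ℝ) ^ (k * s ^ r)) (B := (b : ℝ) ^ (k * s ^ r))
      (α := (α : ℝ)) (n := (s : ℝ) ^ r) (m := (η : ℝ) ^ (k * s ^ r)) (g := (g : ℝ))
      (L := (L : ℝ)) (w := (w : ℝ)) (C := |C|) (ge := (g : ℝ) ^ ε)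
      (me := ((η : ℝ) ^ (k * s ^ r) * (s : ℝ) ^ r) ^ ε) (P := 64 ^ α * 64 ^ (s ^ r))
      (by positivity) (by positivity) (by positivity) (abs_nonneg C)
      (by positivity) r5 (by positivity) (by positivity) (by positivity) r2 m2 r1 r4
    refine fin.trans ?_
    have r7 : ((s : ℝ) ^ r) ^ 2 ≤ 4 * 2 ^ (s ^ r) := by exact_mod_cast sq_le (s ^ r)
    have r8 : (128 : ℝ) ^ (s ^ r) = 2 ^ (s ^ r) * 64 ^ (s ^ r) := by
      rw [← mul_pow]
      norm_num
    calc (α : ℝ) * ((s : ℝ) ^ r) ^ 2 * (64 ^ α * 64 ^ (s ^ r)) * |C| *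
          ((η : ℝ) ^ (k * s ^ r) * (s : ℝ) ^ r) ^ ε * (a : ℝ) ^ (k * s ^ r)
        ≤ (α : ℝ) * (4 * 2 ^ (s ^ r)) * (64 ^ α * 64 ^ (s ^ r)) * |C| *
          ((η : ℝ) ^ (k * s ^ r) * (s : ℝ) ^ r) ^ ε * (a : ℝ) ^ (k * s ^ r) := by gcongr
      _ = |C| * ((η : ℝ) ^ (k * s ^ r) * (s : ℝ) ^ r) ^ ε * (2 ^ (s ^ r) * 64 ^ (s ^ r)) *
          (4 * (α : ℝ) * 64 ^ α) * (a : ℝ) ^ (k * s ^ r) := by ring
      _ = |C| * ((η : ℝ) ^ (k * s ^ r) * (s : ℝ) ^ r) ^ ε * 128 ^ (s ^ r) *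
          (4 * (α : ℝ) * 64 ^ α) * (a : ℝ) ^ (k * s ^ r) := by rw [r8]
  rw [e1, e2] at key
  exact Nat.le_of_mul_le_mul_left key hN

end main

end Pool.Agent.N85.AW
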