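import Pool.Agent.N85.AW.Stm

/-!
# GROW: the growth argument
-/

set_option autoImplicit false

namespace Pool.Agent.N85.AW.Grow

open Pool.Agent.N85.AW

/-- the growth argument -/
theorem main : S_GROW := by
  intro a b h s hh hs ⟨D, hD⟩
  by_contra hab
  rw [not_le] at hab
  have hs0 : ∀ r : ℕ, 1 ≤ s ^ r := fun r => Nat.one_le_pow _ _ (by omega)
  rcases Nat.eq_zero_or_pos b with rfl | hb
  · obtain ⟨C, hC⟩ := hD 1 one_pos
    have h1 := hC 1 1 le_rfl le_rfl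
    have h2 : 1 * s ^ 1 ≠ 0 := by
      have := hs0 1
      omega
    rw [Nat.cast_zero, zero_pow h2, mul_zero] at h1
    have h3 : (0 : ℝ) < (a : ℝ) ^ (1 * s ^ 1) := by
      have : (0 : ℝ) < a := by exact_mod_cast hab
      positivity
    linarith
  have hbR : (0 : ℝ) < b := by exact_mod_cast hb
  have habR : (b : ℝ) < a := by exact_mod_cast hab
  obtain ⟨k, hk⟩ := pow_unbounded_of_one_lt (1024 : ℝ) ((one_lt_div hbR).2 habR)
  have hk1 : 1 ≤ k := by
    rcases Nat.eq_zero_or_pos k with rfl | h0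
    · norm_num at hk
    · exact h0
  have hhR : (1 : ℝ) ≤ h := by exact_mod_cast hh
  have hkR : (1 : ℝ) ≤ k := by exact_mod_cast hk1
  have hkh : (1 : ℝ) ≤ k * h := by nlinarith
  obtain ⟨ε, hε⟩ : ∃ ε : ℝ, ε = 1 / (k * h) := ⟨_, rfl⟩
  have hε0 : 0 < ε := by rw [hε]; positivity
  have hε1 : ε ≤ 1 := by
    rw [hε, div_le_one (by positivity)]
    exact hkh
  obtain ⟨C, hC⟩ := hD ε hε0
  have hak : 1024 * (b : ℝ) ^ k ≤ (a : ℝ) ^ k := by
    rw [div_pow, lt_div_iff₀ (by positivity)] at hk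
    exact hk.le
  have key : ∀ r : ℕ, 1 ≤ r → (2 : ℝ) ^ r ≤ |C| * |D k| := by
    intro r hr
    obtain ⟨n, hn⟩ : ∃ n : ℕ, n = s ^ r := ⟨_, rfl⟩
    have hn1 : 1 ≤ n := by rw [hn]; exact hs0 r
    have hn1R : (1 : ℝ) ≤ n := by exact_mod_cast hn1
    have h1 := hC k r hk1 hr
    have e1 : (s : ℝ) ^ r = n := by rw [hn]; push_cast; rfl
    rw [e1, ← hn] at h1
    have h2 : (((h : ℝ) ^ (k * n)) * (n : ℝ)) ^ ε ≤ 2 ^ n * n := by
      rw [Real.mul_rpow (by positivity) (by positivity)]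
      refine mul_le_mul ?_ ?_ (by positivity) (by positivity)
      · have h3 : ((h : ℝ) ^ (k * n)) ≤ (2 : ℝ) ^ (n * (k * h)) := by
          have h4 : (h : ℝ) ≤ 2 ^ h := by exact_mod_cast (Nat.lt_two_pow_self (n := h)).le
          calc (h : ℝ) ^ (k * n) ≤ ((2 : ℝ) ^ h) ^ (k * n) := pow_le_pow_left₀ (by positivity) h4 _
            _ = _ := by rw [← pow_mul]; congr 1; ring
        calc ((h : ℝ) ^ (k * n)) ^ ε ≤ ((2 : ℝ) ^ (n * (k * h))) ^ ε :=
              Real.rpow_le_rpow (by positivity) h3 hε0.le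
          _ = (2 : ℝ) ^ n := by
              rw [← Real.rpow_natCast, ← Real.rpow_mul (by norm_num), ← Real.rpow_natCast 2 n, hε]
              congr 1
              push_cast
              field_simp
      · calc (n : ℝ) ^ ε ≤ (n : ℝ) ^ (1 : ℝ) := Real.rpow_le_rpow_of_exponent_le hn1R hε1
          _ = n := Real.rpow_one _
    have h5 : (a : ℝ) ^ (k * n) ≤ (|C| * |D k|) * (2 ^ n * n) * 128 ^ n * (b : ℝ) ^ (k * n) := by
      have h0 : (0 : ℝ) ≤ (((h : ℝ) ^ (k * n)) * (n : ℝ)) ^ ε := by positivity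
      calc (a : ℝ) ^ (k * n) ≤ C * (((h : ℝ) ^ (k * n)) * (n : ℝ)) ^ ε * 128 ^ n * D k *
            (b : ℝ) ^ (k * n) := h1
        _ = (C * D k) * ((((h : ℝ) ^ (k * n)) * (n : ℝ)) ^ ε * 128 ^ n * (b : ℝ) ^ (k * n)) := by ring
        _ ≤ (|C| * |D k|) * ((((h : ℝ) ^ (k * n)) * (n : ℝ)) ^ ε * 128 ^ n * (b : ℝ) ^ (k * n)) := by
            refine mul_le_mul_of_nonneg_right ?_ (by positivity)
            rw [← abs_mul]
            exact le_abs_self _
        _ ≤ (|C| * |D k|) * ((2 ^ n * n) * 128 ^ n * (b : ℝ) ^ (k * n)) := by gcongr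
        _ = _ := by ring
    have h6 : (1024 : ℝ) ^ n * (b : ℝ) ^ (k * n) ≤ (a : ℝ) ^ (k * n) := by
      rw [pow_mul, pow_mul, ← mul_pow]
      exact pow_le_pow_left₀ (by positivity) hak n
    have h7 : (1024 : ℝ) ^ n ≤ (|C| * |D k|) * (2 ^ n * n) * 128 ^ n :=
      le_of_mul_le_mul_right (h6.trans h5) (by positivity)
    have h8 : (n : ℝ) ≤ 2 ^ n := by exact_mod_cast (Nat.lt_two_pow_self (n := n)).le
    have h9 : (1024 : ℝ) ^ n ≤ (|C| * |D k|) * 512 ^ n := by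
      calc (1024 : ℝ) ^ n ≤ (|C| * |D k|) * (2 ^ n * n) * 128 ^ n := h7
        _ ≤ (|C| * |D k|) * (2 ^ n * 2 ^ n) * 128 ^ n := by gcongr
        _ = (|C| * |D k|) * ((2 * 2 * 128) ^ n) := by rw [mul_pow, mul_pow]; ring
        _ = _ := by norm_num
    have h10 : (2 : ℝ) ^ n ≤ |C| * |D k| := by
      have e2 : (1024 : ℝ) ^ n = 2 ^ n * 512 ^ n := by rw [← mul_pow]; norm_num
      rw [e2] at h9
      exact le_of_mul_le_mul_right h9 (by positivity)
    have h11 : r ≤ n := by rw [hn]; exact (Nat.lt_pow_self (by omega)).le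
    exact (pow_le_pow_right₀ (by norm_num) h11).trans h10
  obtain ⟨r, hr⟩ := pow_unbounded_of_one_lt (|C| * |D k|) (one_lt_two (α := ℝ))
  have h1 := key (r + 1) (by omega)
  have h2 : (2 : ℝ) ^ r ≤ 2 ^ (r + 1) := pow_le_pow_right₀ (by norm_num) (by omega)
  linarith

end Pool.Agent.N85.AW.Grow
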