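import Pool.Agent.N85.AW.Stm
import Pool.Agent.N85.WM.Pir

/-!
# Project AWP, part HIG: constituents of restrictions of projective irreducible representations
-/

set_option autoImplicit false
set_option linter.unusedSectionVars false

open scoped Classical BigOperators

noncomputable section

namespace Pool.Agent.N85.AW.Hig

section irr

variable {F G V : Type} [Field F] [Group G] [AddCommGroup V] [Module F V]

lemma irr_top (ρ : Representation F G V) (hρ : ρ.IsIrreducible) (U : Submodule F V)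
    (hU : ∀ g : G, ∀ u ∈ U, ρ g u ∈ U) (hne : U ≠ ⊥) : U = ⊤ := by
  have := hρ
  rcases hρ.eq_bot_or_eq_top (⟨U, fun g u hu => hU g u hu⟩ : Subrepresentation ρ) with h | h
  · exact absurd (congrArg Subrepresentation.toSubmodule h) hne
  · exact congrArg Subrepresentation.toSubmodule h

lemma irr_nontrivial (ρ : Representation F G V) (hρ : ρ.IsIrreducible) :
    (⊤ : Submodule F V) ≠ ⊥ := by
  intro h
  obtain ⟨a, b, hab⟩ := hρ.exists_pair_ne
  apply hab
  apply Subrepresentation.toSubmodule_injective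
  have h1 : ∀ U : Submodule F V, U = ⊥ := fun U => le_bot_iff.mp (h ▸ le_top)
  rw [h1 a.toSubmodule, h1 b.toSubmodule]

/-- sums over a group, split into left cosets -/
lemma sum_coset {J M : Type} [Group J] [Fintype J] [AddCommMonoid M] (X : Subgroup J)
    (f : J → M) : ∑ g : J, f g = ∑ q : J ⧸ X, ∑ h : X, f (q.out * (h : J)) := by
  rw [← Fintype.sum_prod_type']
  symm
  refine Fintype.sum_bijective (fun q : (J ⧸ X) × X => q.1.out * (q.2 : J)) ⟨?_, ?_⟩ _ _
    (fun q => rfl)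
  · rintro ⟨q, h⟩ ⟨q', h'⟩ hq
    simp only at hq
    have h1 : q = q' := by
      have h2 := congrArg (QuotientGroup.mk (s := X)) hq
      rw [QuotientGroup.mk_mul_of_mem _ h.2, QuotientGroup.mk_mul_of_mem _ h'.2,
        QuotientGroup.out_eq', QuotientGroup.out_eq'] at h2
      exact h2
    subst h1
    have h3 := mul_left_cancel hq
    rw [Subtype.ext h3]
  · intro g
    have h1 : (QuotientGroup.mk (s := X) g).out⁻¹ * g ∈ X := by
      rw [← QuotientGroup.eq, QuotientGroup.out_eq']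
    refine ⟨⟨QuotientGroup.mk g, ⟨_, h1⟩⟩, ?_⟩
    simp

/-- a sum of a function constant on the cosets of a subgroup of order divisible by `p` -/
lemma sum_zero {J F : Type} [Group J] [Fintype J] [Field F] (p : ℕ) [CharP F p] (C : Subgroup J)
    (hC : p ∣ Nat.card C) (f : J → F) (hf : ∀ g : J, ∀ c ∈ C, f (g * c) = f g) :
    ∑ g : J, f g = 0 := by
  rw [sum_coset C f]
  refine Finset.sum_eq_zero fun q _ => ?_
  have h1 : ∀ h : C, f (q.out * (h : J)) = f q.out := fun h => hf _ _ h.2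
  simp only [h1]
  rw [Finset.sum_const, Finset.card_univ, ← Nat.card_eq_fintype_card, nsmul_eq_mul,
    (CharP.cast_eq_zero_iff F p _).mpr hC, zero_mul]

/-- the number of elements conjugating `x` to `r` -/
lemma count {J : Type} [Group J] [Fintype J] (x r g₀ : J) (h : g₀⁻¹ * x * g₀ = r) :
    (Finset.univ.filter (fun g : J => g⁻¹ * x * g = r)).card =
      Nat.card (Subgroup.centralizer ({r} : Set J)) := by
  rw [← Fintype.card_subtype, ← Nat.card_eq_fintype_card]
  refine Nat.card_congr (Equiv.symm ?_)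
  refine
    { toFun := fun c => ⟨g₀ * c, ?_⟩
      invFun := fun g => ⟨g₀⁻¹ * g, ?_⟩
      left_inv := fun c => by simp
      right_inv := fun g => by simp }
  · have hc := Subgroup.mem_centralizer_singleton_iff.mp c.2
    have : (g₀ * (c : J))⁻¹ * x * (g₀ * c) = (c : J)⁻¹ * (g₀⁻¹ * x * g₀) * c := by group
    rw [this, h, mul_assoc, ← hc]
    group
  · rw [Subgroup.mem_centralizer_singleton_iff]
    have hg := g.2
    have h1 : x = g₀ * r * g₀⁻¹ := by rw [← h]; group
    have h2 : x * (g : J) = g * r := by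
      calc x * (g : J) = g * ((g : J)⁻¹ * x * g) := by group
        _ = g * r := by rw [hg]
    calc g₀⁻¹ * (g : J) * r = g₀⁻¹ * (x * g) := by rw [h2, mul_assoc]
      _ = g₀⁻¹ * (g₀ * r * g₀⁻¹ * g) := by rw [← h1]
      _ = r * (g₀⁻¹ * (g : J)) := by group

/-- a class function of the given type is a relative trace -/
lemma trace_form {J F : Type} [Group J] [Fintype J] [Field F] (p : ℕ) [CharP F p]
    (y : J → F) (hy : ∀ g x : J, y (g * x * g⁻¹) = y x)
    (hy0 : ∀ x : J, p ∣ Nat.card (Subgroup.centralizer ({x} : Set J)) → y x = 0) :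
    ∃ α : J → F, ∀ x : J, y x = ∑ g : J, α (g⁻¹ * x * g) := by
  let rep : J → J := fun x => (ConjClasses.mk x).out
  have hrep1 : ∀ x, ∃ g₀, g₀⁻¹ * x * g₀ = rep x := by
    intro x
    have h1 : ConjClasses.mk x = ConjClasses.mk (rep x) := by
      have h2 : Quotient.mk _ ((ConjClasses.mk x).out) = ConjClasses.mk x := Quotient.out_eq _
      exact h2.symm
    rw [ConjClasses.mk_eq_mk_iff_isConj, isConj_iff] at h1
    obtain ⟨c, hc⟩ := h1
    exact ⟨c⁻¹, by rw [inv_inv]; exact hc⟩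
  have hrep2 : ∀ g x, rep (g⁻¹ * x * g) = rep x := by
    intro g x
    have h1 : ConjClasses.mk (g⁻¹ * x * g) = ConjClasses.mk x := by
      rw [ConjClasses.mk_eq_mk_iff_isConj, isConj_iff]
      exact ⟨g, by group⟩
    show (ConjClasses.mk (g⁻¹ * x * g)).out = (ConjClasses.mk x).out
    rw [h1]
  have hy' : ∀ g x : J, y (g⁻¹ * x * g) = y x := by
    intro g x
    have := hy g⁻¹ x
    rwa [inv_inv] at this
  let cc : J → F := fun z => (Nat.card (Subgroup.centralizer ({z} : Set J)) : F)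
  refine ⟨fun z => if rep z = z then y z / cc z else 0, fun x => ?_⟩
  have h1 : ∀ g : J, (if rep (g⁻¹ * x * g) = g⁻¹ * x * g then y (g⁻¹ * x * g) / cc (g⁻¹ * x * g)
      else 0) = if g⁻¹ * x * g = rep x then y x / cc (rep x) else 0 := by
    intro g
    rw [hrep2]
    by_cases h : g⁻¹ * x * g = rep x
    · rw [if_pos h.symm, if_pos h, hy', h]
    · rw [if_neg (fun h' => h h'.symm), if_neg h]
  simp only [h1]
  rw [← Finset.sum_filter, Finset.sum_const]
  obtain ⟨g₀, hg₀⟩ := hrep1 x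
  rw [count x (rep x) g₀ hg₀, nsmul_eq_mul]
  by_cases hx : y x = 0
  · rw [hx]; simp
  · have h2 : y (rep x) = y x := by rw [← hg₀, hy']
    have h3 : cc (rep x) ≠ 0 := by
      intro h0
      rw [CharP.cast_eq_zero_iff F p] at h0
      exact hx (h2 ▸ hy0 _ h0)
    exact (mul_div_cancel₀ _ h3).symm

/-- the nondegeneracy of the trace form -/
lemma eq_of_trace [FiniteDimensional F V] (A B : V →ₗ[F] V)
    (h : ∀ P : V →ₗ[F] V, LinearMap.trace F V (A ∘ₗ P) = LinearMap.trace F V (B ∘ₗ P)) :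
    A = B := by
  ext v
  rw [← sub_eq_zero]
  rw [← Module.forall_dual_apply_eq_zero_iff F]
  intro f
  have h1 := h (f.smulRight v)
  have h2 : ∀ C : V →ₗ[F] V, C ∘ₗ (f.smulRight v) = f.smulRight (C v) := by
    intro C; ext w; simp
  rw [h2, h2, LinearMap.trace_smulRight, LinearMap.trace_smulRight] at h1
  rw [map_sub, h1, sub_self]

end irr

section sec

variable {F J V W : Type} [Field F] [Group J] [AddCommGroup V] [Module F V]
  [FiniteDimensional F V] [AddCommGroup W] [Module F W]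

/-- an equivariant section -/
lemma exists_section (X : Subgroup J) [hX : X.Normal] (ρ : Representation F J V)
    (σ : Representation F X W) (hρ : ρ.IsIrreducible) (hσ : σ.IsIrreducible)
    (π : V →ₗ[F] W) (hπ : π ≠ 0) (hπe : ∀ (x : X) (v : V), π (ρ x v) = σ x (π v)) :
    ∃ s : W →ₗ[F] V, (∀ w, π (s w) = w) ∧ ∀ (x : X) (w : W), s (σ x w) = ρ x (s w) := by
  -- a minimal invariant subspace
  let S : Set (Submodule F V) := {U | U ≠ ⊥ ∧ ∀ x : X, ∀ u ∈ U, ρ x u ∈ U}
  have hS : S.Nonempty := ⟨⊤, irr_nontrivial ρ hρ, fun _ _ _ => Submodule.mem_top⟩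
  obtain ⟨U, ⟨hU0, hUX⟩, hUmin⟩ :=
    (wellFounded_lt : WellFounded ((· < ·) : Submodule F V → Submodule F V → Prop)).has_min S hS
  have hconj : ∀ (g : J) (x : X), g * (x : J) * g⁻¹ ∈ X := fun g x => hX.conj_mem _ x.2 g
  have hconj' : ∀ (g : J) (x : X), g⁻¹ * (x : J) * g ∈ X := fun g x => by
    have := hX.conj_mem _ x.2 g⁻¹
    rwa [inv_inv] at this
  have hmul : ∀ (g h : J) (v : V), ρ g (ρ h v) = ρ (g * h) v := fun g h v => by
    rw [map_mul]; rfl
  -- the kernel of `π ∘ ρ g` on `U`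
  have hker : ∀ g : J, U ⊓ LinearMap.ker (π ∘ₗ ρ g) = ⊥ ∨ U ≤ LinearMap.ker (π ∘ₗ ρ g) := by
    intro g
    by_cases h : U ⊓ LinearMap.ker (π ∘ₗ ρ g) = ⊥
    · exact Or.inl h
    · right
      have hmem : U ⊓ LinearMap.ker (π ∘ₗ ρ g) ∈ S := by
        refine ⟨h, ?_⟩
        rintro x u ⟨hu1, hu2⟩
        refine ⟨hUX x u hu1, ?_⟩
        rw [SetLike.mem_coe, LinearMap.mem_ker, LinearMap.comp_apply] at hu2 ⊢
        have h1 : ρ g (ρ (x : J) u) = ρ (g * (x : J) * g⁻¹) (ρ g u) := by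
          rw [hmul, hmul]; congr 2; group
        rw [h1]
        have h2 := hπe ⟨g * (x : J) * g⁻¹, hconj g x⟩ (ρ g u)
        rw [hu2, map_zero] at h2
        exact h2
      have h3 := hUmin _ hmem
      have h4 : U ⊓ LinearMap.ker (π ∘ₗ ρ g) = U := by
        by_contra hne
        exact h3 (lt_of_le_of_ne inf_le_left hne)
      exact inf_eq_left.mp h4
  obtain ⟨g, hg⟩ : ∃ g : J, ¬ U ≤ LinearMap.ker (π ∘ₗ ρ g) := by
    by_contra hcon
    push Not at hcon
    let N : Submodule F V := ⨅ g : J, LinearMap.ker (π ∘ₗ ρ g)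
    have hUN : U ≤ N := le_iInf hcon
    have hN : N = ⊤ := by
      refine irr_top ρ hρ N ?_ (fun h => hU0 (le_bot_iff.mp (h ▸ hUN)))
      intro h u hu
      rw [Submodule.mem_iInf] at hu ⊢
      intro i
      have := hu (i * h)
      rw [LinearMap.mem_ker, LinearMap.comp_apply] at this ⊢
      rwa [hmul]
    apply hπ
    ext v
    have hv : v ∈ N := hN ▸ Submodule.mem_top
    have := (Submodule.mem_iInf _).mp hv 1
    rw [LinearMap.mem_ker, LinearMap.comp_apply, map_one] at this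
    exact this
  have hinj : U ⊓ LinearMap.ker (π ∘ₗ ρ g) = ⊥ := (hker g).resolve_right hg
  -- the equivalence
  let f : U →ₗ[F] W := (π ∘ₗ ρ g) ∘ₗ U.subtype
  have hf : ∀ u : U, f u = π (ρ g u) := fun u => rfl
  have hfe : ∀ (x : X) (u : U), ∃ u' : U, (u' : V) = ρ (g⁻¹ * (x : J) * g) u ∧
      f u' = σ x (f u) := by
    intro x u
    refine ⟨⟨ρ (g⁻¹ * (x : J) * g) u, hUX ⟨_, hconj' g x⟩ u u.2⟩, rfl, ?_⟩
    rw [hf, hf]
    simp only
    rw [hmul, ← hπe, hmul]
    congr 3
    group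
  have hfinj : Function.Injective f := by
    rw [← LinearMap.ker_eq_bot]
    rw [eq_bot_iff]
    intro u hu
    have h1 : (u : V) ∈ U ⊓ LinearMap.ker (π ∘ₗ ρ g) := ⟨u.2, hu⟩
    rw [hinj, Submodule.mem_bot] at h1
    rw [Submodule.mem_bot]
    exact Subtype.ext h1
  have hfsurj : Function.Surjective f := by
    rw [← LinearMap.range_eq_top]
    refine irr_top σ hσ _ ?_ ?_
    · rintro x _ ⟨u, rfl⟩
      obtain ⟨u', _, hu'⟩ := hfe x u
      exact ⟨u', hu'⟩
    · intro h
      apply hg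
      intro u hu
      have h1 : f ⟨u, hu⟩ ∈ LinearMap.range f := ⟨_, rfl⟩
      rw [h, Submodule.mem_bot] at h1
      exact h1
  let e := LinearEquiv.ofBijective f ⟨hfinj, hfsurj⟩
  have he : ∀ w, f (e.symm w) = w := fun w => e.apply_symm_apply w
  refine ⟨(ρ g) ∘ₗ U.subtype ∘ₗ e.symm.toLinearMap, ?_, ?_⟩
  · intro w
    exact he w
  · intro x w
    obtain ⟨u', hu1, hu2⟩ := hfe x (e.symm w)
    have h1 : e.symm (σ x w) = u' := by
      apply hfinj
      rw [he, hu2, he]
    show ρ g ((e.symm (σ x w) : U) : V) = ρ x (ρ g ((e.symm w : U) : V))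
    rw [h1, hu1, hmul, hmul]
    congr 2
    group

end sec

section main

variable {F J V W : Type} [Field F] [Group J] [Fintype J] [AddCommGroup V] [Module F V]
  [FiniteDimensional F V] [AddCommGroup W] [Module F W] [FiniteDimensional F W]

/-- the core of the argument -/
lemma core (p : ℕ) [CharP F p] (X : Subgroup J) [hX : X.Normal] (ρ : Representation F J V)
    (σ : Representation F X W) (hρ : ρ.IsIrreducible) (hσ : σ.IsIrreducible)
    (bρ : ∀ P : V →ₗ[F] V, ∃ a : J → F, P = ∑ g, a g • ρ g)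
    (bσ : ∀ P : W →ₗ[F] W, ∃ a : X → F, P = ∑ g, a g • σ g)
    (π : V →ₗ[F] W) (hπ : π ≠ 0) (hπe : ∀ (x : X) (v : V), π (ρ x v) = σ x (π v))
    (y : J → F) (hy : ∀ g x : J, y (g * x * g⁻¹) = y x)
    (hy0 : ∀ x : J, p ∣ Nat.card (Subgroup.centralizer ({x} : Set J)) → y x = 0)
    (hy1 : ∀ x : J, ∑ g : J, y g * ρ.character (g * x) = ρ.character x) :
    ∃ y' : X → F, (∀ g x : X, y' (g * x * g⁻¹) = y' x) ∧
      (∀ x : X, p ∣ Nat.card (Subgroup.centralizer ({x} : Set X)) → y' x = 0) ∧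
      ∀ x : X, ∑ g : X, y' g * σ.character (g * x) = σ.character x := by
  -- `y` acts as the identity
  have hid : ∑ g : J, y g • ρ g = LinearMap.id := by
    refine eq_of_trace _ _ fun P => ?_
    obtain ⟨a, rfl⟩ := bρ P
    have h1 : ∀ h : J, LinearMap.trace F V ((∑ g : J, y g • ρ g) ∘ₗ ρ h) =
        LinearMap.trace F V (ρ h) := by
      intro h
      have h2 : (∑ g : J, y g • ρ g) ∘ₗ ρ h = ∑ g : J, y g • ρ (g * h) := by
        rw [← Module.End.mul_eq_comp, Finset.sum_mul]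
        refine Finset.sum_congr rfl fun g _ => ?_
        rw [smul_mul_assoc, map_mul]
      rw [h2, map_sum]
      have := hy1 h
      simp only [map_smul, smul_eq_mul]
      exact this
    rw [LinearMap.id_comp, ← Module.End.mul_eq_comp, Finset.mul_sum, map_sum, map_sum]
    refine Finset.sum_congr rfl fun h _ => ?_
    rw [mul_smul_comm, map_smul, map_smul, Module.End.mul_eq_comp, h1]
  obtain ⟨α, hα⟩ := trace_form p y hy hy0
  have hmul : ∀ (g h : J) (v : V), ρ g (ρ h v) = ρ (g * h) v := fun g h v => by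
    rw [map_mul]; rfl
  have hmulσ : ∀ (g h : X) (v : W), σ g (σ h v) = σ (g * h) v := fun g h v => by
    rw [map_mul]; rfl
  let a : V →ₗ[F] V := ∑ z : J, α z • ρ z
  have ha : ∀ v, a v = ∑ z : J, α z • ρ z v := fun v => by
    simp [a, LinearMap.sum_apply]
  have h3 : ∀ v : V, v = ∑ g : J, ρ g⁻¹ (a (ρ g v)) := by
    intro v
    have h4 : v = ∑ x : J, y x • ρ x v := by
      have := LinearMap.congr_fun hid v
      rw [LinearMap.sum_apply] at this
      exact this.symm
    rw [← Equiv.sum_comp (Equiv.inv J)]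
    simp only [Equiv.inv_apply, inv_inv, ha, map_sum, map_smul, hmul]
    conv_lhs => rw [h4]
    have h5 : ∀ x : J, y x • ρ x v = ∑ g : J, α (g⁻¹ * x * g) • ρ x v := by
      intro x
      rw [hα x, Finset.sum_smul]
    simp only [h5]
    rw [Finset.sum_comm]
    refine Finset.sum_congr rfl fun g _ => ?_
    refine Fintype.sum_equiv ((Equiv.mulLeft g⁻¹).trans (Equiv.mulRight g)) _ _ fun x => ?_
    simp only [Equiv.trans_apply, Equiv.coe_mulLeft, Equiv.coe_mulRight]
    congr 2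
    group
  -- splitting into cosets
  let a' : V →ₗ[F] V := ∑ q : J ⧸ X, ρ q.out⁻¹ ∘ₗ a ∘ₗ ρ q.out
  have h4 : ∀ v : V, v = ∑ h : X, ρ (h : J)⁻¹ (a' (ρ (h : J) v)) := by
    intro v
    conv_lhs => rw [h3 v]
    rw [sum_coset X, Finset.sum_comm]
    refine Finset.sum_congr rfl fun h _ => ?_
    simp only [a', LinearMap.sum_apply, map_sum, LinearMap.comp_apply]
    refine Finset.sum_congr rfl fun q _ => ?_
    rw [hmul, hmul, mul_inv_rev]
  obtain ⟨s, hs1, hs2⟩ := exists_section X ρ σ hρ hσ π hπ hπe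
  obtain ⟨β, hβ⟩ := bσ (π ∘ₗ a' ∘ₗ s)
  have h5 : ∀ w : W, w = ∑ h : X, σ h⁻¹ ((π ∘ₗ a' ∘ₗ s) (σ h w)) := by
    intro w
    calc w = π (s w) := (hs1 w).symm
      _ = π (∑ h : X, ρ (h : J)⁻¹ (a' (ρ (h : J) (s w)))) := by rw [← h4 (s w)]
      _ = ∑ h : X, π (ρ (h : J)⁻¹ (a' (ρ (h : J) (s w)))) := map_sum _ _ _
      _ = ∑ h : X, σ h⁻¹ ((π ∘ₗ a' ∘ₗ s) (σ h w)) := by
        refine Finset.sum_congr rfl fun h _ => ?_
        have h7 := hπe h⁻¹ (a' (ρ (h : J) (s w)))
        rw [InvMemClass.coe_inv] at h7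
        rw [h7, LinearMap.comp_apply, LinearMap.comp_apply, hs2]
  have h6 : ∀ w : W, w = ∑ u : X, (∑ h : X, β (h * u * h⁻¹)) • σ u w := by
    intro w
    conv_lhs => rw [h5 w]
    simp only [hβ, LinearMap.sum_apply, LinearMap.smul_apply, map_sum, map_smul, hmulσ,
      Finset.sum_smul]
    rw [Finset.sum_comm]
    conv_rhs => rw [Finset.sum_comm]
    rw [Finset.sum_comm]
    refine Finset.sum_congr rfl fun h _ => ?_
    refine Fintype.sum_equiv ((Equiv.mulLeft h⁻¹).trans (Equiv.mulRight h)) _ _ fun u => ?_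
    simp only [Equiv.trans_apply, Equiv.coe_mulLeft, Equiv.coe_mulRight]
    congr 2
    · group
    · group
  refine ⟨fun u => ∑ h : X, β (h * u * h⁻¹), ?_, ?_, ?_⟩
  · intro g x
    refine Fintype.sum_equiv (Equiv.mulRight g) _ _ fun h => ?_
    simp only [Equiv.coe_mulRight]
    congr 1
    group
  · intro u hu
    refine sum_zero p (Subgroup.centralizer ({u} : Set X)) hu (fun h => β (h * u * h⁻¹)) ?_
    intro g c hc
    rw [Subgroup.mem_centralizer_singleton_iff] at hc
    congr 1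
    have h7 : g * c * u * (g * c)⁻¹ = g * (c * u) * c⁻¹ * g⁻¹ := by group
    rw [h7, hc]
    group
  · intro x
    have h8 : σ x = ∑ g : X, (∑ h : X, β (h * g * h⁻¹)) • σ (g * x) := by
      ext w
      rw [LinearMap.sum_apply]
      conv_lhs => rw [h6 (σ x w)]
      refine Finset.sum_congr rfl fun g _ => ?_
      rw [hmulσ]; rfl
    have h9 := congrArg (LinearMap.trace F W) h8
    rw [map_sum] at h9
    simp only [map_smul, smul_eq_mul] at h9
    exact h9.symm

end main

open Pool.Agent.Y63.NV Pool.Agent.N85.WM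

/-- **HIG**. -/
theorem main : S_HIG := by
  intro p _ F _ _ _ J _ _ X _ φ θ hrel hig
  have : Fintype J := Fintype.ofFinite J
  obtain ⟨V, _, _, _, ρ, W, _, _, _, σ, hρ, hσ, rfl, rfl, π, hπ, hπe⟩ := hrel
  obtain ⟨y, hy, hy0, hy1⟩ := hig
  have hy1' : ∀ x : J, ∑ g : J, y g * ρ.character (g * x) = ρ.character x := by
    intro x
    have := hy1 x
    rwa [finsum_eq_sum_of_fintype, one_mul] at this
  obtain ⟨y', h1, h2, h3⟩ := core p X ρ σ hρ hσ
    (fun P => Pool.Agent.N85.WM.Pir.burnG ρ hρ P) (fun P => Pool.Agent.N85.WM.Pir.burnG σ hσ P)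
    π hπ hπe y hy hy0 hy1'
  refine ⟨y', h1, h2, fun x => ?_⟩
  rw [finsum_eq_sum_of_fintype, one_mul]
  exact h3 x

end Pool.Agent.N85.AW.Hig
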