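import Pool.Agent.N85.AW.Stm
import Pool.Agent.Y624.NV.Trn

/-!
# AWP/LOC: change of the ambient group (helper99)

`S_LOC` for class functions `z`: the value `centralValue` uses `z` at the chosen representatives of
the conjugacy classes, therefore the transport between `loc M Q` and the normalizer of `Q` in `E`
needs that `z` is a class function.
-/

set_option autoImplicit false

open scoped Classical BigOperators

noncomputable section

namespace Pool.Agent.N85.AW.Loc

open Pool.Agent.Y63.NV Pool.Agent.N85.WM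
open Pool.Agent.Y624.NV (nEquiv pg_iff nw_congr)

theorem sup_iff {K : Type} [Group K] (M E Q : Subgroup K) (hM : M ≤ E) (hQ : Q ≤ E) :
    M.subgroupOf E ⊔ Q.subgroupOf E = ⊤ ↔ M ⊔ Q = E := by
  rw [← Subgroup.subgroupOf_sup hM hQ, Subgroup.subgroupOf_eq_top]
  exact ⟨fun h => le_antisymm (sup_le hM hQ) h, fun h => h.ge⟩

/-- LOC: change of the ambient group, for class functions -/
theorem main (p : ℕ) (F : Type) [Field F] (red : integralClosure ℤ ℂ →+* F) (K : Type) [Group K]
    [Finite K] (M E : Subgroup K) (z : K → F) (c : F) (hz : IsClassFun z) (hM : M ≤ E) :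
    WC p red M E z c = Wsum p red (M.subgroupOf E) ⊤ (fun x : E => z x) c := by
  have e0 : WC p red M E z c = ∑ᶠ Q : Subgroup K, if IsPGroup p Q ∧ M ⊔ Q = E then
      (Nat.card ↥(E ⊓ Subgroup.normalizer (Q : Set K)) : ℤ) *
        Nw p red (Q.subgroupOf (E ⊓ Subgroup.normalizer (Q : Set K))) (fun x => z x) c else 0 := by
    unfold WC
    refine finsum_congr fun Q => ?_
    by_cases h : IsPGroup p Q ∧ M ⊔ Q = E
    · rw [if_pos h, if_pos h]
      have h1 : loc M Q = E ⊓ Subgroup.normalizer (Q : Set K) := by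
        change (M ⊔ Q) ⊓ _ = _
        rw [h.2]
      rw [h1]
    · rw [if_neg h, if_neg h]
  rw [e0]
  unfold Wsum
  have key : ∀ Q : Subgroup K, Q ≤ E →
      (if IsPGroup p Q ∧ M ⊔ Q = E then
        (Nat.card ↥(E ⊓ Subgroup.normalizer (Q : Set K)) : ℤ) *
          Nw p red (Q.subgroupOf (E ⊓ Subgroup.normalizer (Q : Set K))) (fun x => z x) c else 0) =
      (if IsPGroup p (Q.subgroupOf E) ∧ Q.subgroupOf E ≤ ⊤ ∧ M.subgroupOf E ⊔ Q.subgroupOf E = ⊤
        then (Nat.card ↥((⊤ : Subgroup E) ⊓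
            Subgroup.normalizer ((Q.subgroupOf E : Subgroup E) : Set E)) : ℤ) *
          Nw p red ((Q.subgroupOf E).subgroupOf ((⊤ : Subgroup E) ⊓
            Subgroup.normalizer ((Q.subgroupOf E : Subgroup E) : Set E)))
            (fun x => z ((x : E) : K)) c else 0) := by
    intro Q hQ
    have hiff : (IsPGroup p Q ∧ M ⊔ Q = E) ↔
        (IsPGroup p (Q.subgroupOf E) ∧ Q.subgroupOf E ≤ ⊤ ∧
          M.subgroupOf E ⊔ Q.subgroupOf E = ⊤) := by
      rw [pg_iff p E Q hQ, sup_iff M E Q hM hQ]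
      exact ⟨fun h => ⟨h.1, le_top, h.2⟩, fun h => ⟨h.1, h.2.2⟩⟩
    rw [if_congr hiff rfl rfl]
    refine if_congr Iff.rfl ?_ rfl
    have h1 : Nat.card ↥(E ⊓ Subgroup.normalizer (Q : Set K)) =
        Nat.card ↥((⊤ : Subgroup E) ⊓
            Subgroup.normalizer ((Q.subgroupOf E : Subgroup E) : Set E)) :=
      Nat.card_congr (nEquiv E Q hQ).toEquiv
    have h2 : Nw p red (Q.subgroupOf (E ⊓ Subgroup.normalizer (Q : Set K))) (fun x => z x) c =
        Nw p red ((Q.subgroupOf E).subgroupOf ((⊤ : Subgroup E) ⊓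
            Subgroup.normalizer ((Q.subgroupOf E : Subgroup E) : Set E)))
            (fun x => z ((x : E) : K)) c := by
      refine nw_congr p red (nEquiv E Q hQ)
        (Q := Q.subgroupOf (E ⊓ Subgroup.normalizer (Q : Set K)))
        (Q' := (Q.subgroupOf E).subgroupOf ((⊤ : Subgroup E) ⊓
            Subgroup.normalizer ((Q.subgroupOf E : Subgroup E) : Set E)))
        (f := fun x => z x.1) (f' := fun x => z (x.1 : E).1)
        (fun x => Iff.rfl) (fun x => rfl) ?_ c
      intro g x
      exact hz g.1.1 x.1.1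
    rw [h1, h2]
  have hinj : Function.Injective (fun Q' : Subgroup E => Q'.map E.subtype) :=
    Subgroup.map_injective E.subtype_injective
  have hrange : ∀ Q : Subgroup K, Q ≤ E → (Q.subgroupOf E).map E.subtype = Q := fun Q hQ =>
    Subgroup.map_subgroupOf_eq_of_le hQ
  have hcomap : ∀ Q' : Subgroup E, (Q'.map E.subtype).subgroupOf E = Q' := fun Q' =>
    Subgroup.comap_map_eq_self_of_injective E.subtype_injective Q'
  set A : Subgroup K → ℤ := fun Q => if IsPGroup p Q ∧ M ⊔ Q = E then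
        (Nat.card ↥(E ⊓ Subgroup.normalizer (Q : Set K)) : ℤ) *
          Nw p red (Q.subgroupOf (E ⊓ Subgroup.normalizer (Q : Set K))) (fun x => z x) c else 0
    with hA
  set B : Subgroup E → ℤ := fun Q => if IsPGroup p Q ∧ Q ≤ ⊤ ∧ M.subgroupOf E ⊔ Q = ⊤ then
        (Nat.card ↥(⊤ ⊓ Subgroup.normalizer (Q : Set E)) : ℤ) *
          Nw p red (Q.subgroupOf (⊤ ⊓ Subgroup.normalizer (Q : Set E)))
            (fun x => z ((x : E) : K)) c else 0
    with hB
  have e1 : ∑ᶠ Q, A Q = ∑ᶠ Q ∈ Set.range (fun Q' : Subgroup E => Q'.map E.subtype), A Q := by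
    refine finsum_congr fun Q => ?_
    by_cases hQ : Q ≤ E
    · have hm : Q ∈ Set.range (fun Q' : Subgroup E => Q'.map E.subtype) := ⟨_, hrange Q hQ⟩
      rw [finsum_eq_if, if_pos hm]
    · have h0 : A Q = 0 := by
        rw [hA]
        refine if_neg fun h : IsPGroup p Q ∧ M ⊔ Q = E => hQ ?_
        have h5 : Q ≤ M ⊔ Q := le_sup_right
        rwa [h.2] at h5
      rw [h0, finsum_eq_if, ite_self]
  change ∑ᶠ Q, A Q = ∑ᶠ Q, B Q
  rw [e1, finsum_mem_range hinj]
  refine finsum_congr fun Q' => ?_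
  have h3 : Q'.map E.subtype ≤ E := Subgroup.map_subtype_le Q'
  have h4 := key _ h3
  rw [hcomap] at h4
  exact h4

/-- the form with `InZ M z` -/
theorem main' (p : ℕ) (F : Type) [Field F] (red : integralClosure ℤ ℂ →+* F) (K : Type) [Group K]
    [Finite K] (M E : Subgroup K) (z : K → F) (c : F) (hz : InZ M z) (hM : M ≤ E) :
    WC p red M E z c = Wsum p red (M.subgroupOf E) ⊤ (fun x : E => z x) c :=
  main p F red K M E z c hz.conj hM

end Pool.Agent.N85.AW.Loc
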