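import Pool.Agent.N85.AW.Stm

/-!
# AWP/PERF: the kernel group `Gam T H`, `T = S^r`, is generated by its subgroups isomorphic to `S`
-/

set_option autoImplicit false
set_option linter.unusedSectionVars false

open scoped Classical BigOperators

noncomputable section

namespace Pool.Agent.N85.AW
namespace Perf

open Pool.Agent.N85.AW
open scoped commutatorElement

variable {T H : Type} [Group T] [Group H]

/-- value `g` at `u`, value `g⁻¹` at `v` -/
def dd (u v : T) (g : H) : T → H := Pi.mulSingle u g * Pi.mulSingle v g⁻¹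

lemma dd_mul (u v w : T) (g : H) : dd u v g * dd v w g = dd u w g := by
  unfold dd
  have : (Pi.mulSingle v g⁻¹ : T → H) * Pi.mulSingle v g = 1 := by
    rw [← Pi.mulSingle_mul]; simp
  calc _ = Pi.mulSingle u g * (Pi.mulSingle v g⁻¹ * Pi.mulSingle v g) * Pi.mulSingle w g⁻¹ := by
        simp only [mul_assoc]
    _ = _ := by rw [this, mul_one]

lemma sh_mulSingle (s u : T) (g : H) : shT T H s (Pi.mulSingle u g) = Pi.mulSingle (s * u) g := by
  funext x
  show (Pi.mulSingle u g : T → H) (s⁻¹ * x) = _
  by_cases h : x = s * u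
  · subst h; simp
  · rw [Pi.mulSingle_eq_of_ne h, Pi.mulSingle_eq_of_ne]
    intro h'
    apply h
    rw [← h']; simp

lemma sh_dd (s u v : T) (g : H) : shT T H s (dd u v g) = dd (s * u) (s * v) g := by
  unfold dd
  rw [map_mul, sh_mulSingle, sh_mulSingle]

lemma dd_comm (u v w : T) (g : H) : dd u v g * dd u w g = dd u w g * dd u v g := by
  funext x
  have key : ∀ (y : T) (k : H), (k = g ∨ k = g⁻¹) → Commute ((Pi.mulSingle y k : T → H) x) g := by
    intro y k hk
    by_cases h : x = y
    · subst h
      rcases hk with rfl | rfl <;> simp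
    · rw [Pi.mulSingle_eq_of_ne h]; exact Commute.one_left _
  have key2 : ∀ (y z : T) (k l : H), (k = g ∨ k = g⁻¹) → (l = g ∨ l = g⁻¹) →
      Commute ((Pi.mulSingle y k : T → H) x) ((Pi.mulSingle z l : T → H) x) := by
    intro y z k l hk hl
    by_cases h : x = z
    · subst h
      rcases hl with rfl | rfl
      · simpa using key y k hk
      · simpa using (key y k hk).inv_right
    · rw [Pi.mulSingle_eq_of_ne h]; exact Commute.one_right _
  have : Commute (dd u v g x) (dd u w g x) := by
    unfold dd
    simp only [Pi.mul_apply]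
    refine Commute.mul_left (Commute.mul_right ?_ ?_) (Commute.mul_right ?_ ?_) <;>
      · apply key2 <;> simp
  exact this

section

variable [Fintype T]

lemma mem_Gam_inl (f : T → H) :
    (SemidirectProduct.inl f : RW T H) ∈ Gam T H ↔ ∏ u : T, Abelianization.of (f u) = 1 := by
  unfold Gam
  rw [MonoidHom.mem_ker]
  rfl

lemma mem_Gam_inr (t : T) : (SemidirectProduct.inr t : RW T H) ∈ Gam T H := by
  unfold Gam
  rw [MonoidHom.mem_ker]
  show ∏ u : T, Abelianization.of ((SemidirectProduct.inr t : RW T H).left u) = 1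
  simp

lemma prod_mulSingle (u : T) (g : H) :
    ∏ x : T, Abelianization.of ((Pi.mulSingle u g : T → H) x) = Abelianization.of g := by
  rw [Finset.prod_eq_single u]
  · simp
  · intro x _ hx
    rw [Pi.mulSingle_eq_of_ne hx, map_one]
  · intro h; exact absurd (Finset.mem_univ u) h

lemma prod_dd (u v : T) (g : H) : ∏ x : T, Abelianization.of (dd u v g x) = 1 := by
  unfold dd
  simp only [Pi.mul_apply, map_mul, Finset.prod_mul_distrib, prod_mulSingle]
  simp

lemma mem_Gam_dd (u v : T) (g : H) : (SemidirectProduct.inl (dd u v g) : RW T H) ∈ Gam T H :=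
  (mem_Gam_inl _).2 (prod_dd u v g)

/-- the abstract form: a normal subgroup `R` of `Gam` which contains the top group is everything -/
lemma top_of_normal (hT : commutator T = ⊤) (v w : T) (hv : v ≠ 1) (hw : w ≠ 1) (hvw : v ≠ w)
    (R : Subgroup (Gam T H)) [R.Normal]
    (hR : ∀ t : T, (⟨SemidirectProduct.inr t, mem_Gam_inr t⟩ : Gam T H) ∈ R) : R = ⊤ := by
  -- step 1: the elements `dd 1 t g`
  have h1 : ∀ (g : H) (t : T), (⟨SemidirectProduct.inl (dd 1 t g), mem_Gam_dd 1 t g⟩ : Gam T H) ∈ R := by
    intro g
    let D : T → Gam T H := fun t => ⟨SemidirectProduct.inl (dd 1 t g), mem_Gam_dd 1 t g⟩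
    have hD : ∀ s t : T, D (s * t) = D s *
        ((⟨SemidirectProduct.inr s, mem_Gam_inr s⟩ : Gam T H) * D t *
          (⟨SemidirectProduct.inr s, mem_Gam_inr s⟩ : Gam T H)⁻¹) := by
      intro s t
      apply Subtype.ext
      show (SemidirectProduct.inl (dd 1 (s * t) g) : RW T H) =
        SemidirectProduct.inl (dd 1 s g) * (SemidirectProduct.inr s *
          SemidirectProduct.inl (dd 1 t g) * (SemidirectProduct.inr s)⁻¹)
      rw [← map_inv, ← SemidirectProduct.inl_aut, sh_dd, mul_one, ← map_mul, dd_mul]
    have hI : ∀ s : T, (QuotientGroup.mk' R) (⟨SemidirectProduct.inr s, mem_Gam_inr s⟩ : Gam T H) = 1 :=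
      fun s => (QuotientGroup.eq_one_iff _).2 (hR s)
    have hmul : ∀ s t : T, QuotientGroup.mk' R (D (s * t)) =
        QuotientGroup.mk' R (D s) * QuotientGroup.mk' R (D t) := by
      intro s t
      rw [hD, map_mul, map_mul, map_mul, map_inv, hI]
      simp
    let φ : T →* (Gam T H ⧸ R) := MonoidHom.mk' (fun t => QuotientGroup.mk' R (D t)) hmul
    have hcomm : ∀ s t : T, φ s * φ t = φ t * φ s := by
      intro s t
      show QuotientGroup.mk' R (D s) * QuotientGroup.mk' R (D t) =
        QuotientGroup.mk' R (D t) * QuotientGroup.mk' R (D s)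
      rw [← map_mul, ← map_mul]
      congr 1
      apply Subtype.ext
      show (SemidirectProduct.inl (dd 1 s g) : RW T H) * SemidirectProduct.inl (dd 1 t g) =
        SemidirectProduct.inl (dd 1 t g) * SemidirectProduct.inl (dd 1 s g)
      rw [← map_mul, ← map_mul, dd_comm]
    have hker : commutator T ≤ φ.ker := by
      rw [commutator_def, Subgroup.commutator_le]
      intro s _ t _
      rw [MonoidHom.mem_ker, map_commutatorElement, commutatorElement_eq_one_iff_mul_comm]
      exact hcomm s t
    intro t
    have : t ∈ φ.ker := hker (hT ▸ Subgroup.mem_top t)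
    rw [MonoidHom.mem_ker] at this
    exact (QuotientGroup.eq_one_iff _).1 this
  -- pass to the ambient group
  let R' : Subgroup (RW T H) := R.map (Gam T H).subtype
  have hmem : ∀ x : Gam T H, x ∈ R ↔ (x : RW T H) ∈ R' := by
    intro x
    constructor
    · intro hx; exact ⟨x, hx, rfl⟩
    · rintro ⟨y, hy, hyx⟩
      have : y = x := Subtype.ext hyx
      exact this ▸ hy
  let P : Subgroup (T → H) := R'.comap (SemidirectProduct.inl : (T → H) →* RW T H)
  have hP1 : ∀ (t : T) (g : H), dd 1 t g ∈ P := fun t g => (hmem _).1 (h1 g t)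
  -- step 2: commutators at `1`
  have h2 : ∀ c ∈ commutator H, (Pi.mulSingle 1 c : T → H) ∈ P := by
    have hle : commutator H ≤ P.comap (MonoidHom.mulSingle (fun _ : T => H) 1) := by
      rw [commutator_def, Subgroup.commutator_le]
      intro g _ h _
      show (Pi.mulSingle 1 ⁅g, h⁆ : T → H) ∈ P
      have hc : (Pi.mulSingle 1 ⁅g, h⁆ : T → H) = ⁅dd 1 v g, dd 1 w h⁆ := by
        funext x
        rw [commutatorElement_def g h, commutatorElement_def (dd 1 v g)]
        simp only [dd, Pi.mul_apply, Pi.inv_apply]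
        by_cases hx1 : x = 1
        · subst hx1
          rw [Pi.mulSingle_eq_same, Pi.mulSingle_eq_same, Pi.mulSingle_eq_same,
            Pi.mulSingle_eq_of_ne (Ne.symm hv), Pi.mulSingle_eq_of_ne (Ne.symm hw)]
          simp
        · rw [Pi.mulSingle_eq_of_ne hx1, Pi.mulSingle_eq_of_ne hx1, Pi.mulSingle_eq_of_ne hx1]
          by_cases hxv : x = v
          · subst hxv
            rw [Pi.mulSingle_eq_same, Pi.mulSingle_eq_of_ne hvw]
            simp
          · rw [Pi.mulSingle_eq_of_ne hxv]
            simp
      rw [hc]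
      rw [commutatorElement_def]
      exact P.mul_mem (P.mul_mem (P.mul_mem (hP1 v g) (hP1 w h)) (P.inv_mem (hP1 v g)))
        (P.inv_mem (hP1 w h))
    intro c hc
    exact hle hc
  -- step 3: all functions
  have h3 : ∀ (s : Finset T) (f : T → H), (∀ u, u ∉ s → u ≠ 1 → f u = 1) →
      ∏ u : T, Abelianization.of (f u) = 1 → f ∈ P := by
    intro s
    induction s using Finset.induction_on with
    | empty =>
      intro f hf hprod
      have hf' : f = Pi.mulSingle 1 (f 1) := by
        funext x
        by_cases hx : x = 1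
        · subst hx; simp
        · rw [Pi.mulSingle_eq_of_ne hx]; exact hf x (by simp) hx
      rw [hf']
      apply h2
      rw [hf', prod_mulSingle] at hprod
      rw [← Abelianization.ker_of, MonoidHom.mem_ker]
      simpa using hprod
    | insert a s ha ih =>
      intro f hf hprod
      by_cases ha1 : a = 1
      · refine ih f (fun u hu hu1 => hf u ?_ hu1) hprod
        rw [Finset.mem_insert]
        rintro (h | h)
        · exact hu1 (h.trans ha1)
        · exact hu h
      · have hf' : f * dd 1 a (f a) ∈ P := by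
          refine ih _ (fun u hu hu1 => ?_) ?_
          · simp only [dd, Pi.mul_apply]
            rw [Pi.mulSingle_eq_of_ne hu1]
            by_cases hua : u = a
            · subst hua; simp
            · rw [Pi.mulSingle_eq_of_ne hua, hf u (by simp [hua, hu]) hu1]
              simp
          · simp only [Pi.mul_apply, map_mul]
            rw [Finset.prod_mul_distrib, hprod, prod_dd, one_mul]
        have := P.mul_mem hf' (P.inv_mem (hP1 a (f a)))
        rwa [mul_inv_cancel_right] at this
  -- conclusion
  rw [eq_top_iff]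
  rintro ⟨x, hx⟩ -
  rw [hmem]
  show x ∈ R'
  rw [← SemidirectProduct.inl_left_mul_inr_right x]
  refine R'.mul_mem ?_ ?_
  · refine h3 Finset.univ x.left (fun u hu => absurd (Finset.mem_univ u) hu) ?_
    unfold Gam at hx
    rw [MonoidHom.mem_ker] at hx
    exact hx
  · exact (hmem ⟨_, mem_Gam_inr x.right⟩).1 (hR x.right)

end

/-- the subgroup generated by the copies of `S` is normal -/
lemma normal_gen (S G : Type) [Group S] [Group G] :
    (⨆ S' : {S' : Subgroup G // Nonempty (S' ≃* S)}, S'.1).Normal := by
  constructor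
  intro x hx g
  have hle : (⨆ S' : {S' : Subgroup G // Nonempty (S' ≃* S)}, S'.1) ≤
      (⨆ S' : {S' : Subgroup G // Nonempty (S' ≃* S)}, S'.1).comap (MulAut.conj g).toMonoidHom := by
    refine iSup_le fun S' => ?_
    intro y hy
    rw [Subgroup.mem_comap]
    obtain ⟨e⟩ := S'.2
    have e' : (S'.1.map (MulAut.conj g).toMonoidHom) ≃* S :=
      (S'.1.equivMapOfInjective (MulAut.conj g).toMonoidHom (MulAut.conj g).injective).symm.trans e
    exact (le_iSup (fun S' : {S' : Subgroup G // Nonempty (S' ≃* S)} => S'.1)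
      ⟨S'.1.map (MulAut.conj g).toMonoidHom, ⟨e'⟩⟩) (Subgroup.mem_map_of_mem _ hy)
  have := hle hx
  rw [Subgroup.mem_comap] at this
  simpa using this

lemma commutator_pi_top (S : Type) [Group S] (hS : commutator S = ⊤) (r : ℕ) :
    commutator (Fin r → S) = ⊤ := by
  have h := Subgroup.commutator_pi_pi_of_finite (η := Fin r) (Gs := fun _ => S)
    (fun _ => (⊤ : Subgroup S)) (fun _ => (⊤ : Subgroup S))
  rw [commutator_def]
  have ht : Subgroup.pi Set.univ (fun _ : Fin r => (⊤ : Subgroup S)) = ⊤ := by
    ext x; simp [Subgroup.mem_pi]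
  rw [ht] at h
  rw [h]
  have : (fun _ : Fin r => ⁅(⊤ : Subgroup S), (⊤ : Subgroup S)⁆) = fun _ => ⊤ := by
    funext i
    rw [← commutator_def, hS]
  rw [this, ht]

lemma exists_noncomm (T : Type) [Group T] [Nontrivial T] (hT : commutator T = ⊤) :
    ∃ v w : T, v ≠ 1 ∧ w ≠ 1 ∧ v ≠ w := by
  by_contra hne
  push Not at hne
  have hc : ∀ s t : T, s * t = t * s := by
    intro s t
    by_cases hs : s = 1
    · subst hs; simp
    · by_cases ht : t = 1
      · subst ht; simp
      · rw [hne s t hs ht]
  have : commutator T ≤ ⊥ := by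
    rw [commutator_def, Subgroup.commutator_le]
    intro s _ t _
    rw [Subgroup.mem_bot, commutatorElement_eq_one_iff_mul_comm]
    exact hc s t
  rw [hT] at this
  exact top_ne_bot (le_bot_iff.1 this)

theorem main : S_PERF := by
  intro S _ _ _ hS r hr H _ _
  have hT : commutator (Fin r → S) = ⊤ := commutator_pi_top S hS r
  have : Nonempty (Fin r) := ⟨⟨0, hr⟩⟩
  obtain ⟨v, w, hv, hw, hvw⟩ := exists_noncomm (Fin r → S) hT
  unfold GenBy
  have := normal_gen S (Gam (Fin r → S) H)
  refine top_of_normal hT v w hv hw hvw _ ?_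
  intro t
  let ι : (Fin r → S) →* Gam (Fin r → S) H :=
    (SemidirectProduct.inr : (Fin r → S) →* RW (Fin r → S) H).codRestrict _ mem_Gam_inr
  have hι : Function.Injective ι := by
    intro a b hab
    have := congrArg Subtype.val hab
    exact SemidirectProduct.inr_injective this
  set R := ⨆ S' : {S' : Subgroup (Gam (Fin r → S) H) // Nonempty (S' ≃* S)}, S'.1 with hRdef
  show t ∈ R.comap ι
  apply Subgroup.pi_mem_of_mulSingle_mem
  intro i
  let j : S →* Gam (Fin r → S) H := ι.comp (MonoidHom.mulSingle (fun _ : Fin r => S) i)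
  have hj : Function.Injective j := by
    intro a b hab
    exact Pi.mulSingle_injective (M := fun _ : Fin r => S) i (hι hab)
  have hle : j.range ≤ R := by
    rw [hRdef]
    exact le_iSup (fun S' : {S' : Subgroup (Gam (Fin r → S) H) // Nonempty (S' ≃* S)} => S'.1)
      ⟨j.range, ⟨(MonoidHom.ofInjective hj).symm⟩⟩
  exact hle ⟨t i, rfl⟩

end Perf

end Pool.Agent.N85.AW
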