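import Pool.Agent.N85.AW.Stm
import Pool.Agent.N85.WM.Lw
import Pool.Agent.N85.WM.Ww
import Pool.Agent.N85.WM.Pir
import Pool.Agent.N85.WM.Wpi
import Pool.Agent.N85.KM.A

/-!
# Direct powers
-/

set_option autoImplicit false

open scoped Classical BigOperators

noncomputable section

namespace Pool.Agent.N85.AW

open Pool.Agent.Y63.NV Pool.Agent.N85.WM

/-- `Lnum` counts the irreducible traces on which `z` acts as `c` -/
theorem lnum_acts {F : Type} [Field F] {G : Type} [Group G] (z : G → F) (c : F) :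
    Lnum (⊤ : Subgroup G) ⊤ z c = Nat.card {φ : G → F // IsIrrTrace φ ∧ Acts z c φ} := by
  rw [Lw.lnum_card (⊤ : Subgroup G) ⊤ Subgroup.topEquiv.symm z z c (fun a => rfl)
    (fun _ => True) ?_]
  · refine Nat.card_congr (Equiv.subtypeEquivRight fun φ => ?_)
    simp only [true_and, Acts]
  · intro φ hφ
    refine iff_of_true ?_ trivial
    rintro h - x y hxy
    have h1 : ∀ x : (⊤ : Subgroup G), Subgroup.topEquiv.symm.symm x = (x : G) := fun _ => rfl
    simp only [h1]
    rw [hxy]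
    exact Lw.irr_cl hφ h x

section pow

variable {p : ℕ} [Fact p.Prime] {F : Type} [Field F] [IsAlgClosed F] [CharP F p]
  {ι G : Type} [Fintype ι] [Group G] [Finite G] {e : G → F}

/-- irreducible traces of a direct power -/
theorem powL (p : ℕ) [Fact p.Prime] {F : Type} [Field F] [IsAlgClosed F] [CharP F p]
    {ι G : Type} [Fintype ι] [Group G] [Finite G] {e : G → F} (he : IsIdem e) :
    Lnum (⊤ : Subgroup (ι → G)) ⊤ (tensF fun _ => e) 1 =
      (Lnum (⊤ : Subgroup G) ⊤ e 1) ^ Fintype.card ι := by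
  obtain ⟨h1, h2⟩ := Pir.main p F ι G
  rw [lnum_acts, Lw.card_A e]
  let T : (ι → Lw.A e) → {φ : (ι → G) → F // IsIrrTrace φ ∧ Acts (tensF fun _ => e) 1 φ} :=
    fun θ => ⟨tensF (fun i => (θ i).1), (h1 _).2 ⟨_, fun i => (θ i).2.1, rfl⟩,
      (Lw.key (fun i => (θ i).1) (fun i => (θ i).2.1) e he).2 fun i => (θ i).2.2⟩
  have hT : Function.Bijective T := by
    constructor
    · intro θ θ' hh
      have h3 := congrArg Subtype.val hh
      have h4 := h2 _ _ (fun i => (θ i).2.1) (fun i => (θ' i).2.1) h3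
      funext i
      exact Subtype.ext (congrFun h4 i)
    · rintro ⟨φ, hφ, hc⟩
      obtain ⟨θ, hθ, rfl⟩ := (h1 φ).1 hφ
      refine ⟨fun i => ⟨θ i, hθ i, (Lw.key θ hθ e he).1 hc i⟩, rfl⟩
  rw [← Nat.card_congr (Equiv.ofBijective T hT), Nat.card_fun, Nat.card_eq_fintype_card (α := ι)]

/-- weights of a direct power -/
theorem powW (p : ℕ) [Fact p.Prime] {F : Type} [Field F] [IsAlgClosed F] [CharP F p]
    (red : integralClosure ℤ ℂ →+* F)
    {ι G : Type} [Fintype ι] [Group G] [Finite G] {e : G → F} (he : IsIdem e) :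
    Wsum p red (⊤ : Subgroup (ι → G)) ⊤ (tensF fun _ => e) 1 =
      (Wsum p red (⊤ : Subgroup G) ⊤ e 1) ^ Fintype.card ι := by
  rw [Ww.wsum_tot, Ww.wsum_tot]
  exact Ww.tot_pi Wpi.main Wpi.wpc he

end pow

end Pool.Agent.N85.AW
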