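import Pool.Agent.N85.AW.Stm

/-!
# Project AWP (helper85): the recursion for weights

By helper415.
-/

set_option autoImplicit false

open scoped Classical BigOperators

noncomputable section

namespace Pool.Agent.N85.AW.Rec

open Pool.Agent.Y63.NV Pool.Agent.N85.WM Pool.Agent.N85.AW
open Pool.Agent.Y63.AWC (IsIrreducibleCharacter)
open Pool.Agent.Y210.NV3 (wt_iff)

/-! ### group theory -/

section grp

variable {K : Type} [Group K]

/-- normalizers of products -/
theorem mem_norm_sup {M Q : Subgroup K} [M.Normal] {g : K}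
    (hg : g ∈ Subgroup.normalizer (Q : Set K)) :
    g ∈ Subgroup.normalizer ((M ⊔ Q : Subgroup K) : Set K) := by
  have key : ∀ g ∈ Subgroup.normalizer (Q : Set K), ∀ x ∈ M ⊔ Q, g * x * g⁻¹ ∈ M ⊔ Q := by
    intro g hg x hx
    rw [Subgroup.mem_sup_of_normal_left] at hx
    obtain ⟨m, hm, q, hq, rfl⟩ := hx
    have h1 : g * (m * q) * g⁻¹ = (g * m * g⁻¹) * (g * q * g⁻¹) := by group
    rw [h1]
    refine Subgroup.mul_mem_sup ((inferInstance : M.Normal).conj_mem m hm g) ?_
    exact (Subgroup.mem_normalizer_iff.1 hg q).1 hq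
  rw [Subgroup.mem_normalizer_iff]
  intro x
  refine ⟨key g hg x, fun h => ?_⟩
  have h1 := key g⁻¹ (Subgroup.inv_mem _ hg) _ h
  have h2 : g⁻¹ * (g * x * g⁻¹) * g⁻¹⁻¹ = x := by group
  rwa [h2] at h1

/-- adjoining an element of order `p` modulo `E` -/
theorem adjoin_prime {p : ℕ} [Fact p.Prime] {E : Subgroup K} {g : K}
    (hg : g ∈ Subgroup.normalizer (E : Set K)) (hgE : g ∉ E) (hgp : g ^ p ∈ E) :
    ((E.subgroupOf (E ⊔ Subgroup.zpowers g)).Normal) ∧
      E.relIndex (E ⊔ Subgroup.zpowers g) = p := by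
  have hn : (E.subgroupOf (E ⊔ Subgroup.zpowers g)).Normal := by
    rw [Subgroup.normal_subgroupOf_iff_le_normalizer le_sup_left]
    refine sup_le Subgroup.le_normalizer ?_
    rwa [Subgroup.zpowers_le]
  refine ⟨hn, ?_⟩
  set E' := E ⊔ Subgroup.zpowers g with hE'
  have hgE' : g ∈ E' := (le_sup_right : Subgroup.zpowers g ≤ E') (Subgroup.mem_zpowers g)
  set u : E' ⧸ E.subgroupOf E' := ((⟨g, hgE'⟩ : E') : E' ⧸ E.subgroupOf E') with hu
  have hu1 : u ≠ 1 := fun h => hgE ((QuotientGroup.eq_one_iff (⟨g, hgE'⟩ : E')).1 h)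
  have hup : u ^ p = 1 := by
    rw [hu, ← QuotientGroup.mk_pow, QuotientGroup.eq_one_iff]
    exact hgp
  have hord : orderOf u = p := orderOf_eq_prime hup hu1
  have htop : Subgroup.zpowers u = ⊤ := by
    have h1 : E' ≤ ((Subgroup.zpowers u).comap (QuotientGroup.mk' (E.subgroupOf E'))).map
        E'.subtype := by
      conv_lhs => rw [hE']
      refine sup_le (fun x hx => ?_) ?_
      · have hx' : x ∈ E' := (le_sup_left : E ≤ E') hx
        refine ⟨⟨x, hx'⟩, ?_, rfl⟩
        show ((⟨x, hx'⟩ : E') : E' ⧸ E.subgroupOf E') ∈ Subgroup.zpowers u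
        rw [(QuotientGroup.eq_one_iff (⟨x, hx'⟩ : E')).2 hx]
        exact Subgroup.one_mem _
      · rw [Subgroup.zpowers_le]
        exact ⟨⟨g, hgE'⟩, Subgroup.mem_zpowers u, rfl⟩
    rw [eq_top_iff]
    intro y _
    obtain ⟨x, rfl⟩ := QuotientGroup.mk'_surjective _ y
    obtain ⟨x', hx', hxx⟩ := h1 x.2
    have h2 : x' = x := Subtype.ext hxx
    rw [← h2]
    exact hx'
  have h3 : E.relIndex E' = Nat.card (E' ⧸ E.subgroupOf E') := rfl
  rw [h3, ← hord, ← Nat.card_zpowers, htop]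
  exact (Nat.card_congr Subgroup.topEquiv.toEquiv).symm

end grp

/-! ### characters -/

/-- central characters and isomorphisms -/
theorem cv_iso {F A B : Type} [Field F] [Group A] [Group B] [Finite A] [Finite B]
    (red : integralClosure ℤ ℂ →+* F) (π : A →* B) (hπ : Function.Bijective π) (χ : B → ℂ)
    (hχ : IsIrreducibleCharacter χ) (f : B → F) (hf : IsClassFun f) :
    centralValue red (fun x => χ (π x)) (fun x => f (π x)) = centralValue red χ f := by
  have hcl : IsClassFun (fun x => f (π x)) := by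
    intro g x
    show f (π (g * x * g⁻¹)) = f (π x)
    rw [map_mul, map_mul, map_inv]
    exact hf _ _
  rw [Pool.Agent.Y930.NV.inf F red A B π χ _ hπ.2 hχ hcl]
  congr 1
  funext y
  obtain ⟨x, rfl⟩ := hπ.2 y
  rw [finsum_eq_single _ x]
  · rw [if_pos rfl]
  · intro x' hx'
    rw [if_neg]
    intro h
    exact hx' (hπ.1 h)

section loc

variable {K : Type} [Group K] [Finite K] {p : ℕ} {F : Type} [Field F]

/-- the characters which are fixed by an element of `E'` outside `E` -/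
def bad (p : ℕ) {F : Type} [Field F] (red : integralClosure ℤ ℂ →+* F) {K : Type} [Group K]
    (M E E' Q : Subgroup K) (z : K → F) (c : F) : ℕ :=
  Nat.card {ψ : loc M Q → ℂ // (IsWt p (Q.subgroupOf (loc M Q)) ψ ∧
    centralValue red ψ (fun x => z x) = c) ∧
    ∃ g ∈ Subgroup.normalizer (Q : Set K), g ∈ E' ∧ g ∉ E ∧
      ∀ x y : loc M Q, (y : K) = g * x * g⁻¹ → ψ y = ψ x}

theorem wt_fin (J : Type) [Group J] [Finite J] (P : (J → ℂ) → Prop)
    (hP : ∀ χ, P χ → IsIrreducibleCharacter χ) : Finite {χ : J → ℂ // P χ} := by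
  have : Fintype J := Fintype.ofFinite _
  have h1 : Finite {χ : J → ℂ // IsIrreducibleCharacter χ} :=
    (Pool.Agent.Helper884.IC.irr_finite (G := J)).to_subtype
  exact Finite.of_injective (fun χ : {χ : J → ℂ // P χ} =>
    (⟨χ.1, hP _ χ.2⟩ : {χ : J → ℂ // IsIrreducibleCharacter χ})) (fun χ χ' h =>
      Subtype.ext (congrArg (fun t : {χ : J → ℂ // IsIrreducibleCharacter χ} => t.1) h))

/-- good and bad characters -/
theorem nw_le [Fact p.Prime] (red : integralClosure ℤ ℂ →+* F) (M E Q : Subgroup K) [M.Normal]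
    (hMQ : M ⊔ Q = E) (z : K → F) (c : F) [Fintype (Subgroup K)] :
    Nw p red (Q.subgroupOf (loc M Q)) (fun x => z x) c ≤ gd p red M Q z c +
      ∑ E' : Subgroup K, if E ≤ E' ∧ (E.subgroupOf E').Normal ∧ E.relIndex E' = p then
        bad p red M E E' Q z c else 0 := by
  have hfin : Finite {ψ : loc M Q → ℂ // IsWt p (Q.subgroupOf (loc M Q)) ψ ∧
      centralValue red ψ (fun x => z x) = c} := wt_fin _ _ fun χ hχ => hχ.1.irr
  have hft : Fintype {ψ : loc M Q → ℂ // IsWt p (Q.subgroupOf (loc M Q)) ψ ∧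
      centralValue red ψ (fun x => z x) = c} := Fintype.ofFinite _
  have e1 : Nw p red (Q.subgroupOf (loc M Q)) (fun x => z x) c =
      Fintype.card {ψ : loc M Q → ℂ // IsWt p (Q.subgroupOf (loc M Q)) ψ ∧
        centralValue red ψ (fun x => z x) = c} := by
    rw [Nw, Nat.card_eq_fintype_card]
  have e2 : ∀ B : (loc M Q → ℂ) → Prop, Nat.card {ψ : loc M Q → ℂ //
      (IsWt p (Q.subgroupOf (loc M Q)) ψ ∧ centralValue red ψ (fun x => z x) = c) ∧ B ψ} =
      (Finset.univ.filter fun ψ : {ψ : loc M Q → ℂ // IsWt p (Q.subgroupOf (loc M Q)) ψ ∧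
        centralValue red ψ (fun x => z x) = c} => B ψ.1).card := by
    intro B
    rw [← Nat.card_congr (Equiv.subtypeSubtypeEquivSubtypeInter (fun ψ : loc M Q → ℂ =>
      IsWt p (Q.subgroupOf (loc M Q)) ψ ∧ centralValue red ψ (fun x => z x) = c) B),
      Nat.card_eq_fintype_card, Fintype.card_subtype]
  rw [e1]
  unfold gd bad
  simp only [e2]
  rw [← Finset.sum_filter, ← Finset.card_univ]
  have hmain : (Finset.univ : Finset {ψ : loc M Q → ℂ // IsWt p (Q.subgroupOf (loc M Q)) ψ ∧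
        centralValue red ψ (fun x => z x) = c}).card ≤
      (Finset.univ.filter fun ψ : {ψ : loc M Q → ℂ // IsWt p (Q.subgroupOf (loc M Q)) ψ ∧
        centralValue red ψ (fun x => z x) = c} =>
      ¬ ∃ g ∈ Subgroup.normalizer (Q : Set K), g ∉ M ⊔ Q ∧ g ^ p ∈ M ⊔ Q ∧
      ∀ x y : loc M Q, (y : K) = g * x * g⁻¹ → ψ.1 y = ψ.1 x).card +
    ∑ E' ∈ (Finset.univ.filter fun E' : Subgroup K => E ≤ E' ∧ (E.subgroupOf E').Normal ∧
      E.relIndex E' = p), (Finset.univ.filter fun ψ :
    {ψ : loc M Q → ℂ // IsWt p (Q.subgroupOf (loc M Q)) ψ ∧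
        centralValue red ψ (fun x => z x) = c} =>
      ∃ g ∈ Subgroup.normalizer (Q : Set K), g ∈ E' ∧ g ∉ E ∧
      ∀ x y : loc M Q, (y : K) = g * x * g⁻¹ → ψ.1 y = ψ.1 x).card := by
    refine le_trans ?_ (add_le_add le_rfl Finset.card_biUnion_le)
    refine le_trans ?_ (Finset.card_union_le _ _)
    refine Finset.card_le_card ?_
    intro ψ _
    rw [Finset.mem_union, Finset.mem_filter, Finset.mem_biUnion]
    by_cases hB : ∃ g ∈ Subgroup.normalizer (Q : Set K), g ∉ M ⊔ Q ∧ g ^ p ∈ M ⊔ Q ∧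
        ∀ x y : loc M Q, (y : K) = g * x * g⁻¹ → ψ.1 y = ψ.1 x
    · right
      obtain ⟨g, hg, hg1, hg2, hg3⟩ := hB
      rw [hMQ] at hg1 hg2
      have hgN : g ∈ Subgroup.normalizer (E : Set K) := by
        rw [← hMQ]
        exact mem_norm_sup hg
      obtain ⟨h1, h2⟩ := adjoin_prime hgN hg1 hg2
      refine ⟨E ⊔ Subgroup.zpowers g, ?_, ?_⟩
      · rw [Finset.mem_filter]
        exact ⟨Finset.mem_univ _, le_sup_left, h1, h2⟩
      · rw [Finset.mem_filter]
        exact ⟨Finset.mem_univ _, g, hg,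
          (le_sup_right : Subgroup.zpowers g ≤ E ⊔ Subgroup.zpowers g) (Subgroup.mem_zpowers g),
          hg1, hg3⟩
    · left
      exact ⟨Finset.mem_univ _, hB⟩
  convert hmain

/-- the translation -/
theorem bad_le [Fact p.Prime] (red : integralClosure ℤ ℂ →+* F) (M E E' Q : Subgroup K)
    [M.Normal] (hE : E ≤ E') [(E.subgroupOf E').Normal] (hQ : IsPGroup p Q) (hMQ : M ⊔ Q = E)
    (z : K → F) (hz : ∀ g x : K, z (g * x * g⁻¹) = z x) (c : F) (ι : E.subgroupOf E' →* K)
    (hι : ∀ x, ι x = ((x : E') : K)) :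
    Nat.card (loc M Q) =
      Nat.card (Subgroup.normalizer ((Q.comap ι : Subgroup _) : Set (E.subgroupOf E'))) ∧
    bad p red M E E' Q z c ≤ Nat.card {χ : E.subgroupOf E' → ℂ // IsW p (Q.comap ι) χ ∧
      wcv red (Q.comap ι) χ (fun x : E.subgroupOf E' => z (x : E')) = c ∧
        FixedOut (E.subgroupOf E') (Q.comap ι) χ} := by
  have hιi : Function.Injective ι := by
    intro x y h
    rw [hι, hι] at h
    exact Subtype.ext (Subtype.ext h)
  have hιr : ∀ y : K, y ∈ E → ∃ x, ι x = y := fun y hy => ⟨⟨⟨y, hE hy⟩, hy⟩, hι _⟩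
  have hιE : ∀ x, ι x ∈ E := fun x => by rw [hι]; exact x.2
  have hQE : Q ≤ E := by rw [← hMQ]; exact le_sup_right
  have hQr : Q ≤ ι.range := fun y hy => by
    obtain ⟨x, hx⟩ := hιr y (hQE hy)
    exact ⟨x, hx⟩
  have hN := Subgroup.comap_normalizer_eq_of_le_range (f := ι) hQr
  have hmN : ∀ x, x ∈ Subgroup.normalizer ((Q.comap ι : Subgroup _) : Set (E.subgroupOf E')) ↔
      ι x ∈ Subgroup.normalizer (Q : Set K) := fun x => by rw [← hN]; rfl
  have hml : ∀ x, ι x ∈ loc M Q ↔ ι x ∈ Subgroup.normalizer (Q : Set K) := fun x => by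
    refine ⟨fun h => h.2, fun h => ⟨?_, h⟩⟩
    rw [hMQ]
    exact hιE x
  let θ : Subgroup.normalizer ((Q.comap ι : Subgroup _) : Set (E.subgroupOf E')) →* loc M Q :=
    (ι.comp (Subgroup.subtype _)).codRestrict (loc M Q) fun x => (hml x).2 ((hmN x).1 x.2)
  have hθ : ∀ x, ((θ x : loc M Q) : K) = ι x := fun x => rfl
  have hθb : Function.Bijective θ := by
    refine ⟨fun x y h => Subtype.ext (hιi (congrArg Subtype.val h)), fun y => ?_⟩
    have hyE : (y : K) ∈ E := by
      have := y.2.1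
      rwa [hMQ] at this
    obtain ⟨x, hx⟩ := hιr y hyE
    exact ⟨⟨x, (hmN x).2 (by rw [hx]; exact y.2.2)⟩, Subtype.ext hx⟩
  refine ⟨(Nat.card_congr (Equiv.ofBijective θ hθb)).symm, ?_⟩
  -- the extension by zero
  let ex : (loc M Q → ℂ) → (E.subgroupOf E' → ℂ) := fun ψ x =>
    if h : ι x ∈ loc M Q then ψ ⟨ι x, h⟩ else 0
  have hex : ∀ ψ : loc M Q → ℂ, (fun x : Subgroup.normalizer ((Q.comap ι : Subgroup _) :
      Set (E.subgroupOf E')) => ex ψ x) = fun x => ψ (θ x) := by
    intro ψ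
    funext x
    exact dif_pos (θ x).2
  have hfin : Finite {χ : E.subgroupOf E' → ℂ // IsW p (Q.comap ι) χ ∧
      wcv red (Q.comap ι) χ (fun x : E.subgroupOf E' => z (x : E')) = c ∧
        FixedOut (E.subgroupOf E') (Q.comap ι) χ} := by
    have h1 : Finite {w : Subgroup (E.subgroupOf E') × (E.subgroupOf E' → ℂ) //
      IsW p w.1 w.2} := Pool.Agent.N85.WM.Ww.isW_fin
    exact Finite.of_injective (fun χ : {χ : E.subgroupOf E' → ℂ // IsW p (Q.comap ι) χ ∧
      wcv red (Q.comap ι) χ (fun x : E.subgroupOf E' => z (x : E')) = c ∧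
        FixedOut (E.subgroupOf E') (Q.comap ι) χ} =>
      (⟨(Q.comap ι, χ.1), χ.2.1⟩ : {w : Subgroup (E.subgroupOf E') × (E.subgroupOf E' → ℂ) //
      IsW p w.1 w.2})) (fun χ χ' h => Subtype.ext (congrArg (fun w : {w : Subgroup
        (E.subgroupOf E') × (E.subgroupOf E' → ℂ) // IsW p w.1 w.2} => w.1.2) h))
  unfold bad
  refine Nat.card_le_card_of_injective (fun ψ => ⟨ex ψ.1, ?_, ?_, ?_⟩) ?_
  · obtain ⟨ψ, ⟨h1, h2⟩, h3⟩ := ψ
    refine ⟨hQ.comap_of_injective ι hιi, fun x hx => ?_, ?_⟩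
    · exact dif_neg fun h => hx ((hmN x).2 ((hml x).1 h))
    · show IsWt p _ (fun x : Subgroup.normalizer ((Q.comap ι : Subgroup _) :
        Set (E.subgroupOf E')) => ex ψ x)
      rw [hex]
      exact (wt_iff θ hθb.2 p (Q.subgroupOf (loc M Q)) ψ).2 h1
  · obtain ⟨ψ, ⟨h1, h2⟩, h3⟩ := ψ
    show centralValue red (fun x : Subgroup.normalizer ((Q.comap ι : Subgroup _) :
        Set (E.subgroupOf E')) => ex ψ x) _ = c
    rw [hex]
    have h4 := cv_iso red θ hθb ψ h1.irr (fun x : loc M Q => z x) (fun g x => hz _ _)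
    rw [h2] at h4
    rw [← h4]
    congr 1
    funext x
    rw [hθ, hι]
  · obtain ⟨ψ, ⟨h1, h2⟩, g, hg, hg1, hg2, hg3⟩ := ψ
    have hxy : ∀ x y : E.subgroupOf E', (y : E') = (⟨g, hg1⟩ : E') * x * (⟨g, hg1⟩ : E')⁻¹ →
        ι y = g * ι x * g⁻¹ := by
      intro x y h
      rw [hι, hι, h]
      rfl
    refine ⟨⟨g, hg1⟩, fun h => hg2 h, fun x y h => ?_, fun x y h => ?_⟩
    · rw [Subgroup.mem_comap, Subgroup.mem_comap, hxy x y h]
      exact Subgroup.mem_normalizer_iff.1 hg _
    · have h5 := hxy x y h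
      show ex ψ x = ex ψ y
      by_cases hx : ι x ∈ loc M Q
      · have hy : ι y ∈ loc M Q := by
          rw [hml, h5]
          exact Subgroup.mul_mem _ (Subgroup.mul_mem _ hg hx.2) (Subgroup.inv_mem _ hg)
        have h6 : ex ψ x = ψ ⟨ι x, hx⟩ := dif_pos hx
        have h7 : ex ψ y = ψ ⟨ι y, hy⟩ := dif_pos hy
        rw [h6, h7]
        exact (hg3 ⟨ι x, hx⟩ ⟨ι y, hy⟩ h5).symm
      · have hy : ι y ∉ loc M Q := by
          intro hy
          apply hx
          rw [hml]
          have h8 := Subgroup.mul_mem _ (Subgroup.mul_mem _ (Subgroup.inv_mem _ hg) hy.2) hg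
          have h9 : g⁻¹ * ι y * g = ι x := by rw [h5]; group
          rwa [h9] at h8
        have h6 : ex ψ x = 0 := dif_neg hx
        have h7 : ex ψ y = 0 := dif_neg hy
        rw [h6, h7]
  · intro ψ ψ' h
    apply Subtype.ext
    have h1 : ex ψ.1 = ex ψ'.1 := congrArg Subtype.val h
    funext y
    obtain ⟨x, rfl⟩ := hθb.2 y
    have h2 := congrFun (hex ψ.1) x
    have h3 := congrFun (hex ψ'.1) x
    rw [← h2, ← h3, h1]

end loc

theorem main (h1 : S_LOC) (h2 : S_COVR) : S_REC := by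
  intro p _ F _ _ red K _ _ M E _ z c hz hME
  have hft : Fintype (Subgroup K) := Fintype.ofFinite _
  have hp : p.Prime := Fact.out
  have key : ∀ E' : Subgroup K, E ≤ E' → (E.subgroupOf E').Normal → E.relIndex E' = p →
      ∑ Q : Subgroup K, (if IsPGroup p Q ∧ M ⊔ Q = E then
        (Nat.card (loc M Q) : ℤ) * bad p red M E E' Q z c else 0) ≤ WC p red M E' z c := by
    intro E' hE hn hrel
    have hM' : (M.subgroupOf E').Normal := inferInstance
    have hle : M.subgroupOf E' ≤ E.subgroupOf E' := fun x hx => hME hx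
    have hzE : InZ (E.subgroupOf E') (fun x : E' => z x) :=
      ⟨fun g x => hz.conj _ _, fun x hx => hz.supp _ fun h => hx (hME h)⟩
    have e1 := h1 p F red K M E' z c hz.conj (hME.trans hE)
    have e2 := h2 p F red E' (M.subgroupOf E') (E.subgroupOf E') (fun x : E' => z x) c hle hrel hzE
    have hft' : Fintype (Subgroup (E.subgroupOf E')) := Fintype.ofFinite _
    rw [e1, e2, finsum_eq_sum_of_fintype]
    obtain ⟨ι, hι⟩ : ∃ ι : E.subgroupOf E' →* K, ∀ x, ι x = ((x : E') : K) :=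
      ⟨E'.subtype.comp (E.subgroupOf E').subtype, fun x => rfl⟩
    have hιr : E ≤ ι.range := fun y hy => ⟨⟨⟨y, hE hy⟩, hy⟩, hι _⟩
    have hMc : (M.subgroupOf E').subgroupOf (E.subgroupOf E') = M.comap ι := by
      ext x
      rw [Subgroup.mem_comap, hι]
      rfl
    -- the terms
    obtain ⟨t, ht⟩ : ∃ t : Subgroup (E.subgroupOf E') → ℤ, t = fun Q : Subgroup _ =>
      (Nat.card (Subgroup.normalizer (Q : Set (E.subgroupOf E'))) : ℤ) *
        Nat.card {χ : E.subgroupOf E' → ℂ // IsW p Q χ ∧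
          wcv red Q χ (fun x : E.subgroupOf E' => z (x : E')) = c ∧
          FixedOut (E.subgroupOf E') Q χ} := ⟨_, rfl⟩
    have ht0 : ∀ Q, 0 ≤ t Q := fun Q => by
      rw [ht]; exact mul_nonneg (Int.natCast_nonneg _) (Int.natCast_nonneg _)
    have hstep : ∑ Q : Subgroup K, (if IsPGroup p Q ∧ M ⊔ Q = E then
        (Nat.card (loc M Q) : ℤ) * bad p red M E E' Q z c else 0) ≤
        ∑ Q : Subgroup (E.subgroupOf E'),
          if (M.subgroupOf E').subgroupOf (E.subgroupOf E') ⊔ Q = ⊤ then t Q else 0 := by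
      rw [← Finset.sum_filter, ← Finset.sum_filter]
      calc ∑ Q ∈ Finset.univ.filter (fun Q : Subgroup K => IsPGroup p Q ∧ M ⊔ Q = E),
            (Nat.card (loc M Q) : ℤ) * bad p red M E E' Q z c
          ≤ ∑ Q ∈ Finset.univ.filter (fun Q : Subgroup K => IsPGroup p Q ∧ M ⊔ Q = E),
              t (Q.comap ι) := by
            refine Finset.sum_le_sum fun Q hQ => ?_
            rw [Finset.mem_filter] at hQ
            obtain ⟨e3, e4⟩ := bad_le red M E E' Q hE hQ.2.1 hQ.2.2 z hz.conj c ι hι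
            rw [e3, ht]
            refine mul_le_mul_of_nonneg_left ?_ (Int.natCast_nonneg _)
            exact_mod_cast e4
        _ = ∑ Q ∈ (Finset.univ.filter (fun Q : Subgroup K => IsPGroup p Q ∧ M ⊔ Q = E)).image
              (fun Q => Q.comap ι), t Q := by
            rw [Finset.sum_image]
            intro Q hQ Q' hQ' hQQ
            rw [Finset.mem_coe, Finset.mem_filter] at hQ hQ'
            have a1 : Q ≤ ι.range := (le_sup_right.trans hQ.2.2.le).trans hιr
            have a2 : Q' ≤ ι.range := (le_sup_right.trans hQ'.2.2.le).trans hιr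
            have a3 : Q.comap ι = Q'.comap ι := hQQ
            rw [← Subgroup.map_comap_eq_self a1, ← Subgroup.map_comap_eq_self a2, a3]
        _ ≤ _ := by
            refine Finset.sum_le_sum_of_subset_of_nonneg ?_ fun Q _ _ => ht0 Q
            intro Q1 hQ1
            rw [Finset.mem_image] at hQ1
            obtain ⟨Q, hQ, rfl⟩ := hQ1
            rw [Finset.mem_filter] at hQ ⊢
            refine ⟨Finset.mem_univ _, ?_⟩
            have a1 : Q ≤ ι.range := (le_sup_right.trans hQ.2.2.le).trans hιr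
            rw [hMc, Subgroup.comap_sup_eq_of_le_range ι (hME.trans hιr) a1, hQ.2.2, eq_top_iff]
            intro x _
            rw [Subgroup.mem_comap, hι]
            exact x.2
    have hS0 : 0 ≤ ∑ Q : Subgroup (E.subgroupOf E'),
          if (M.subgroupOf E').subgroupOf (E.subgroupOf E') ⊔ Q = ⊤ then t Q else 0 :=
      Finset.sum_nonneg fun Q _ => by split_ifs; exacts [ht0 Q, le_rfl]
    have hp1 : (1 : ℤ) ≤ p := by exact_mod_cast hp.one_le
    refine hstep.trans ?_
    rw [ht]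
    rw [ht] at hS0
    nlinarith
  have hA : WC p red M E z c = ∑ Q : Subgroup K, (if IsPGroup p Q ∧ M ⊔ Q = E then
      (Nat.card (loc M Q) : ℤ) * Nw p red (Q.subgroupOf (loc M Q)) (fun x => z x) c else 0) := by
    rw [WC, finsum_eq_sum_of_fintype]
  have hG : GD p red M E z c = ∑ Q : Subgroup K, (if IsPGroup p Q ∧ M ⊔ Q = E then
      (Nat.card (loc M Q) : ℤ) * gd p red M Q z c else 0) := by
    rw [GD, finsum_eq_sum_of_fintype]
  rw [hA, hG, finsum_eq_sum_of_fintype]
  have step : ∀ Q : Subgroup K, (if IsPGroup p Q ∧ M ⊔ Q = E then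
      (Nat.card (loc M Q) : ℤ) * Nw p red (Q.subgroupOf (loc M Q)) (fun x => z x) c else 0) ≤
      (if IsPGroup p Q ∧ M ⊔ Q = E then (Nat.card (loc M Q) : ℤ) * gd p red M Q z c else 0) +
      ∑ E' : Subgroup K, (if E ≤ E' ∧ (E.subgroupOf E').Normal ∧ E.relIndex E' = p then
        (if IsPGroup p Q ∧ M ⊔ Q = E then
          (Nat.card (loc M Q) : ℤ) * bad p red M E E' Q z c else 0) else 0) := by
    intro Q
    by_cases hQ : IsPGroup p Q ∧ M ⊔ Q = E
    · simp only [if_pos hQ]
      have e5 := nw_le (p := p) red M E Q hQ.2 z c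
      have e6 : (Nw p red (Q.subgroupOf (loc M Q)) (fun x => z x) c : ℤ) ≤
          gd p red M Q z c + ∑ E' : Subgroup K,
            (if E ≤ E' ∧ (E.subgroupOf E').Normal ∧ E.relIndex E' = p then
              (bad p red M E E' Q z c : ℤ) else 0) := by
        have e7 : ((∑ E' : Subgroup K, if E ≤ E' ∧ (E.subgroupOf E').Normal ∧
            E.relIndex E' = p then bad p red M E E' Q z c else 0 : ℕ) : ℤ) =
            ∑ E' : Subgroup K, (if E ≤ E' ∧ (E.subgroupOf E').Normal ∧ E.relIndex E' = p then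
              (bad p red M E E' Q z c : ℤ) else 0) := by
          push_cast
          rfl
        rw [← e7]
        exact_mod_cast e5
      refine (mul_le_mul_of_nonneg_left e6 (Int.natCast_nonneg _)).trans (le_of_eq ?_)
      rw [mul_add, Finset.mul_sum]
      congr 1
      refine Finset.sum_congr rfl fun E' _ => ?_
      rw [mul_ite, mul_zero]
    · simp only [if_neg hQ, ite_self, Finset.sum_const_zero, add_zero, le_refl]
  refine (Finset.sum_le_sum fun Q _ => step Q).trans ?_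
  rw [Finset.sum_add_distrib, Finset.sum_comm]
  refine add_le_add le_rfl (Finset.sum_le_sum fun E' _ => ?_)
  by_cases hE' : E ≤ E' ∧ (E.subgroupOf E').Normal ∧ E.relIndex E' = p
  · simp only [if_pos hE']
    exact key E' hE'.1 hE'.2.1 hE'.2.2
  · simp only [if_neg hE', Finset.sum_const_zero, le_refl]

end Pool.Agent.N85.AW.Rec
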