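import Pool.Agent.N85.AW.Cnt

/-!
# Two normal subgroups and their intersection
-/

set_option autoImplicit false

open scoped Classical BigOperators

noncomputable section

namespace Pool.Agent.N85.AW

open Pool.Agent.Y63.NV Pool.Agent.N85.WM

/-- the intersection as a subgroup of both groups -/
def interEquiv {K : Type} [Group K] (A B : Subgroup K) : (B.subgroupOf A) ≃* (A.subgroupOf B) where
  toFun x := ⟨⟨x.1.1, x.2⟩, x.1.2⟩
  invFun x := ⟨⟨x.1.1, x.2⟩, x.1.2⟩
  left_inv _ := rfl
  right_inv _ := rfl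
  map_mul' _ _ := rfl

section san

variable {F : Type} [Field F] {K : Type} [Group K] [Finite K] (A B : Subgroup K)
  {z : K → F} (c : F)

omit [Finite K] in
theorem inZ_sub (hz : InZ (A ⊓ B) z) : InZ (B.subgroupOf A) (fun x : A => z x) where
  conj g x := hz.conj g x
  supp x hx := hz.supp x fun h => hx h.2

omit [Finite K] in
theorem inZ_symm (hz : InZ (A ⊓ B) z) : InZ (B ⊓ A) z := by
  rwa [inf_comm]

theorem san_l [IsAlgClosed F] (h : S_REL) [A.Normal] [B.Normal] (hz : InZ (A ⊓ B) z) :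
    Lnum (⊤ : Subgroup A) ⊤ (fun x : A => z x) c ≤
      Nat.card (A ⧸ B.subgroupOf A) * (Nat.card (B ⧸ A.subgroupOf B) *
        Lnum (⊤ : Subgroup B) ⊤ (fun x : B => z x) c) := by
  have h1 := l_up h (B.subgroupOf A) (inZ_sub A B hz) c
  have h2 := l_lo h (A.subgroupOf B) (inZ_sub B A (inZ_symm A B hz)) c
  have h3 := Pool.Agent.N85.KM.lnum_iso (interEquiv A B)
    (fun x : A.subgroupOf B => z x) c
  refine h1.trans (Nat.mul_le_mul_left _ ?_)
  refine le_trans (le_of_eq ?_) h2
  exact h3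

theorem san_w {p : ℕ} [Fact p.Prime] [IsAlgClosed F] [CharP F p] (red : integralClosure ℤ ℂ →+* F)
    (hu : S_WUP) (hl : S_WLO) [A.Normal] [B.Normal] (hz : InZ (A ⊓ B) z) :
    Wsum p red (⊤ : Subgroup A) ⊤ (fun x : A => z x) c ≤
      64 ^ Nat.card (A ⧸ B.subgroupOf A) * (64 ^ Nat.card (B ⧸ A.subgroupOf B) *
        Wsum p red (⊤ : Subgroup B) ⊤ (fun x : B => z x) c) := by
  have h1 := hu p F red A (B.subgroupOf A) (fun x : A => z x) c (inZ_sub A B hz)
  have h2 := hl p F red B (A.subgroupOf B) (fun x : B => z x) c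
    (inZ_sub B A (inZ_symm A B hz))
  have h3 := Pool.Agent.N85.KM.wsum_iso (p := p) red (interEquiv A B)
    (z := fun x : A.subgroupOf B => z x) (fun g x => hz.conj g x) c
  refine h1.trans (mul_le_mul_of_nonneg_left ?_ (by positivity))
  refine le_trans (le_of_eq ?_) h2
  exact h3

end san

end Pool.Agent.N85.AW
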