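import Pool.Agent.N85.WM.Fin

/-!
# The weight conjecture and groups generated by copies of a perfect group: definitions and statements

Notation of `Pool/Agent/Y63/NV/Defs.lean` and `Pool/Agent/N85/WM/{Stm,Sep,Modp,Val}.lean`:
`IsIrrTrace`, `IsClassFun`, `IsBlock`, `InZ`, `IsWt`, `centralValue`, `Lnum`, `Lsum`, `Wsum`, `Nw`,
`IsW`, `wcv`, `FixedOut`, `IsIdem`, `tensF`, `BEq`, `YS`, `cvS`, `numIrrBlock`, `numWts`.
-/

set_option autoImplicit false

open scoped Classical BigOperators

noncomputable section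

namespace Pool.Agent.N85.AW

open Pool.Agent.Y63.NV Pool.Agent.N85.WM

/-! ### representations over `F` -/

/-- the element `z` of the group algebra acts as the scalar `c` on the representation with the
trace `φ` -/
def Acts {F G : Type} [Field F] [Group G] (z : G → F) (c : F) (φ : G → F) : Prop :=
  ∀ x : G, ∑ᶠ g : G, z g * φ (g * x) = c * φ x

/-- DENS: the density theorem for two irreducible representations which are not isomorphic -/
def S_DENS : Prop := ∀ (F : Type) [Field F] [IsAlgClosed F] (G : Type) [Group G] [Finite G]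
  (V : Type) [AddCommGroup V] [Module F V] [FiniteDimensional F V] (ρ : Representation F G V)
  (W : Type) [AddCommGroup W] [Module F W] [FiniteDimensional F W] (σ : Representation F G W),
    ρ.IsIrreducible → σ.IsIrreducible →
    (∀ T : V →ₗ[F] W, (∀ (g : G) (v : V), T (ρ g v) = σ g (T v)) → T = 0) →
    ∀ A : V →ₗ[F] V, ∃ β : G → F, ∑ᶠ g : G, β g • ρ g = A ∧ ∑ᶠ g : G, β g • σ g = 0

/-- `φ` and `θ` are the traces of irreducible representations `V` of `J` and `W` of `X` such that `W`
is a quotient of the restriction of `V` to `X` -/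
def Rel {F J : Type} [Field F] [Group J] (X : Subgroup J) (φ : J → F) (θ : X → F) : Prop :=
  ∃ (V : Type) (_ : AddCommGroup V) (_ : Module F V) (_ : FiniteDimensional F V)
    (ρ : Representation F J V) (W : Type) (_ : AddCommGroup W) (_ : Module F W)
    (_ : FiniteDimensional F W) (σ : Representation F X W),
    ρ.IsIrreducible ∧ σ.IsIrreducible ∧ φ = ρ.character ∧ θ = σ.character ∧
    ∃ π : V →ₗ[F] W, π ≠ 0 ∧ ∀ (x : X) (v : V), π (ρ x v) = σ x (π v)

/-- REL: Clifford theory for irreducible representations over `F`, crude form -/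
def S_REL : Prop := ∀ (F : Type) [Field F] [IsAlgClosed F] (J : Type) [Group J] [Finite J]
  (X : Subgroup J) [X.Normal],
    (∀ φ : J → F, IsIrrTrace φ → ∃ θ : X → F, IsIrrTrace θ ∧ Rel X φ θ) ∧
    (∀ θ : X → F, IsIrrTrace θ → ∃ φ : J → F, IsIrrTrace φ ∧ Rel X φ θ) ∧
    (∀ φ : J → F, IsIrrTrace φ →
      Nat.card {θ : X → F // IsIrrTrace θ ∧ Rel X φ θ} ≤ Nat.card (J ⧸ X)) ∧
    (∀ θ : X → F, IsIrrTrace θ →
      Nat.card {φ : J → F // IsIrrTrace φ ∧ Rel X φ θ} ≤ Nat.card (J ⧸ X)) ∧
    ∀ (φ : J → F) (θ : X → F), Rel X φ θ → ∀ z : J → F, InZ X z → ∀ c : F,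
      (Acts z c φ ↔ Acts (fun x : X => z x) c θ)

/-- a central element supported on the elements `x` with `|C_G(x)|` prime to `p` acts as `1` on the
representation with the trace `φ` (so this representation is projective) -/
def Hig (p : ℕ) {F G : Type} [Field F] [Group G] (φ : G → F) : Prop :=
  ∃ y : G → F, IsClassFun y ∧
    (∀ x : G, p ∣ Nat.card (Subgroup.centralizer ({x} : Set G)) → y x = 0) ∧ Acts y 1 φ

/-- HIG: constituents of restrictions of projective irreducible representations to normal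
subgroups -/
def S_HIG : Prop := ∀ (p : ℕ) [Fact p.Prime] (F : Type) [Field F] [IsAlgClosed F] [CharP F p]
  (J : Type) [Group J] [Finite J] (X : Subgroup J) [X.Normal] (φ : J → F) (θ : X → F),
    Rel X φ θ → Hig p φ → Hig p θ

/-- BRG: characters of defect zero and projective irreducible representations over `F` -/
def S_BRG : Prop := ∀ (p : ℕ) [Fact p.Prime] (F : Type) [Field F] [IsAlgClosed F] [CharP F p]
  (red : integralClosure ℤ ℂ →+* F) (J : Type) [Group J] [Finite J] (z : J → F) (c : F),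
    IsClassFun z → Nw p red (⊥ : Subgroup J) z c =
      Nat.card {φ : J → F // IsIrrTrace φ ∧ Hig p φ ∧ Acts z c φ}

/-! ### characters of defect zero of local subgroups -/

/-- `N_{MQ}(Q)` -/
abbrev loc {K : Type} [Group K] (M Q : Subgroup K) : Subgroup K :=
  (M ⊔ Q) ⊓ Subgroup.normalizer (Q : Set K)

/-- DUP0: characters of defect zero and normal subgroups, upper bound -/
def S_DUP0 : Prop := ∀ (p : ℕ) [Fact p.Prime] (F : Type) [Field F] [IsAlgClosed F] [CharP F p]
  (red : integralClosure ℤ ℂ →+* F) (J : Type) [Group J] [Finite J] (X : Subgroup J) [X.Normal]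
  (z : J → F) (c : F), InZ X z →
    Nw p red (⊥ : Subgroup J) z c ≤
      Nat.card (J ⧸ X) * Nw p red (⊥ : Subgroup X) (fun x : X => z x) c

/-- DUPK: upper bound -/
def S_DUPK : Prop := ∀ (p : ℕ) [Fact p.Prime] (F : Type) [Field F] [IsAlgClosed F] [CharP F p]
  (red : integralClosure ℤ ℂ →+* F) (K : Type) [Group K] [Finite K] (M : Subgroup K) [M.Normal]
  (z : K → F) (c : F), InZ M z → ∀ Q : Subgroup K, IsPGroup p Q →
    Nw p red (Q.subgroupOf (Subgroup.normalizer (Q : Set K))) (fun x => z x) c ≤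
      Nat.card (K ⧸ M) * Nw p red (Q.subgroupOf (loc M Q)) (fun x => z x) c

/-- the number of characters counted by `Nw p red (Q.subgroupOf (loc M Q))` which are not fixed by any
element `g ∈ N_K(Q)` of order `p` modulo `MQ` -/
def gd (p : ℕ) {F : Type} [Field F] (red : integralClosure ℤ ℂ →+* F) {K : Type} [Group K]
    (M Q : Subgroup K) (z : K → F) (c : F) : ℕ :=
  Nat.card {ψ : loc M Q → ℂ // (IsWt p (Q.subgroupOf (loc M Q)) ψ ∧
    centralValue red ψ (fun x => z x) = c) ∧
    ¬ ∃ g ∈ Subgroup.normalizer (Q : Set K), g ∉ M ⊔ Q ∧ g ^ p ∈ M ⊔ Q ∧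
      ∀ x y : loc M Q, (y : K) = g * x * g⁻¹ → ψ y = ψ x}

/-- DDNK: lower bound -/
def S_DDNK : Prop := ∀ (p : ℕ) [Fact p.Prime] (F : Type) [Field F] [IsAlgClosed F] [CharP F p]
  (red : integralClosure ℤ ℂ →+* F) (K : Type) [Group K] [Finite K] (M : Subgroup K) [M.Normal]
  (z : K → F) (c : F), InZ M z → ∀ Q : Subgroup K, IsPGroup p Q →
    gd p red M Q z c ≤ Nat.card (K ⧸ M) *
      Nw p red (Q.subgroupOf (Subgroup.normalizer (Q : Set K))) (fun x => z x) c

/-! ### weights and normal subgroups -/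

/-- the weighted number of the weights `Q` of `E` with `MQ = E` -/
def WC (p : ℕ) {F : Type} [Field F] (red : integralClosure ℤ ℂ →+* F) {K : Type} [Group K]
    (M E : Subgroup K) (z : K → F) (c : F) : ℤ :=
  ∑ᶠ Q : Subgroup K, if IsPGroup p Q ∧ M ⊔ Q = E then
    (Nat.card (loc M Q) : ℤ) * Nw p red (Q.subgroupOf (loc M Q)) (fun x => z x) c else 0

/-- the part of this number which comes from the good characters -/
def GD (p : ℕ) {F : Type} [Field F] (red : integralClosure ℤ ℂ →+* F) {K : Type} [Group K]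
    (M E : Subgroup K) (z : K → F) (c : F) : ℤ :=
  ∑ᶠ Q : Subgroup K, if IsPGroup p Q ∧ M ⊔ Q = E then
    (Nat.card (loc M Q) : ℤ) * gd p red M Q z c else 0

/-- LOC: change of the ambient group -/
def S_LOC : Prop := ∀ (p : ℕ) [Fact p.Prime] (F : Type) [Field F]
  (red : integralClosure ℤ ℂ →+* F) (K : Type) [Group K] [Finite K] (M E : Subgroup K) [M.Normal]
  (z : K → F) (c : F), IsClassFun z → M ≤ E →
    WC p red M E z c = Wsum p red (M.subgroupOf E) ⊤ (fun x : E => z x) c

/-- COVR: the relative version of `S_COV` -/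
def S_COVR : Prop := ∀ (p : ℕ) [Fact p.Prime] (F : Type) [Field F] [CharP F p]
  (red : integralClosure ℤ ℂ →+* F) (Y : Type) [Group Y] [Finite Y] (M E : Subgroup Y)
  [M.Normal] [E.Normal] (z : Y → F) (c : F), M ≤ E → Nat.card (Y ⧸ E) = p → InZ E z →
    Wsum p red M ⊤ z c = (p : ℤ) * ∑ᶠ Q : Subgroup E, if M.subgroupOf E ⊔ Q = ⊤ then
      (Nat.card (Subgroup.normalizer (Q : Set E)) : ℤ) *
        Nat.card {χ : E → ℂ // IsW p Q χ ∧ wcv red Q χ (fun x : E => z x) = c ∧ FixedOut E Q χ}
      else 0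

/-- REC: the recursion -/
def S_REC : Prop := ∀ (p : ℕ) [Fact p.Prime] (F : Type) [Field F] [CharP F p]
  (red : integralClosure ℤ ℂ →+* F) (K : Type) [Group K] [Finite K] (M E : Subgroup K) [M.Normal]
  (z : K → F) (c : F), InZ M z → M ≤ E →
    WC p red M E z c ≤ GD p red M E z c + ∑ᶠ E' : Subgroup K,
      if E ≤ E' ∧ (E.subgroupOf E').Normal ∧ E.relIndex E' = p then WC p red M E' z c else 0

/-- WPG: weights and extensions by `p`-groups -/
def S_WPG : Prop := ∀ (p : ℕ) [Fact p.Prime] (F : Type) [Field F] [CharP F p]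
  (red : integralClosure ℤ ℂ →+* F) (Y : Type) [Group Y] [Finite Y] (M : Subgroup Y) [M.Normal]
  (z : Y → F) (c : F), IsPGroup p (Y ⧸ M) → InZ M z →
    Wsum p red (⊤ : Subgroup Y) ⊤ z c ≤
      (Nat.card (Y ⧸ M) : ℤ) * Wsum p red (⊤ : Subgroup M) ⊤ (fun x : M => z x) c

/-- WUP: weights and normal subgroups, upper bound -/
def S_WUP : Prop := ∀ (p : ℕ) [Fact p.Prime] (F : Type) [Field F] [IsAlgClosed F] [CharP F p]
  (red : integralClosure ℤ ℂ →+* F) (K : Type) [Group K] [Finite K] (M : Subgroup K) [M.Normal]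
  (z : K → F) (c : F), InZ M z →
    Wsum p red (⊤ : Subgroup K) ⊤ z c ≤
      64 ^ Nat.card (K ⧸ M) * Wsum p red (⊤ : Subgroup M) ⊤ (fun x : M => z x) c

/-- WLO: weights and normal subgroups, lower bound -/
def S_WLO : Prop := ∀ (p : ℕ) [Fact p.Prime] (F : Type) [Field F] [IsAlgClosed F] [CharP F p]
  (red : integralClosure ℤ ℂ →+* F) (K : Type) [Group K] [Finite K] (M : Subgroup K) [M.Normal]
  (z : K → F) (c : F), InZ M z →
    Wsum p red (⊤ : Subgroup M) ⊤ (fun x : M => z x) c ≤
      64 ^ Nat.card (K ⧸ M) * Wsum p red (⊤ : Subgroup K) ⊤ z c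

/-! ### twisting with linear characters -/

/-- the block `λ B` -/
def twist {F G : Type} [Field F] [Group G] (l : G →* Fˣ) (B : (G → F) → F) : (G → F) → F :=
  fun f => B (fun x => (l x : F) * f x)

/-- TWW: invariance under twisting -/
def S_TWW : Prop := ∀ (p : ℕ) [Fact p.Prime] (F : Type) [Field F] [IsAlgClosed F] [CharP F p]
  (red : integralClosure ℤ ℂ →+* F) (H : Type) [Group H] [Finite H] (l : H →* Fˣ)
  (B : (H → F) → F), IsBlock B → IsBlock (twist l B) ∧
    numIrrBlock (twist l B) = numIrrBlock B ∧ numWts p red (twist l B) = numWts p red B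

/-- RSEP: the blocks with the same restriction to the commutator subgroup -/
def S_RSEP : Prop := ∀ (p : ℕ) [Fact p.Prime] (F : Type) [Field F] [IsAlgClosed F] [CharP F p]
  (H : Type) [Group H] [Finite H] (B : (H → F) → F), IsBlock B →
    ∃ z : H → F, IsIdem z ∧ (∀ x : H, x ∉ commutator H → z x = 0) ∧ B z = 1 ∧
      ∀ B' : (H → F) → F, IsBlock B' → B' z = 1 → ∃ l : H →* Fˣ, BEq B' (twist l B)

/-- IDL -/
def S_IDL : Prop := ∀ (p : ℕ) [Fact p.Prime] (F : Type) [Field F] [IsAlgClosed F] [CharP F p]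
  (red : integralClosure ℤ ℂ →+* F) (H : Type) [Group H] [Finite H] (B : (H → F) → F), IsBlock B →
    ∃ (z : H → F) (N : ℕ), IsIdem z ∧ (∀ x : H, x ∉ commutator H → z x = 0) ∧ 1 ≤ N ∧
      Lnum (⊤ : Subgroup H) ⊤ z 1 = N * numIrrBlock B ∧
      Nat.card {y : YS p H // cvS red y z = 1} = N * numWts p red B

/-! ### the groups -/

/-- `G` is generated by its subgroups isomorphic to `S` -/
def GenBy (S G : Type) [Group S] [Group G] : Prop :=
  ⨆ S' : {S' : Subgroup G // Nonempty (S' ≃* S)}, S'.1 = ⊤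

/-- the regular action of `T` on the functions `T → H` -/
def shT (T H : Type) [Group T] [Group H] : T →* MulAut (T → H) where
  toFun t :=
    { toFun := fun f u => f (t⁻¹ * u)
      invFun := fun f u => f (t * u)
      left_inv := fun f => by funext u; simp
      right_inv := fun f => by funext u; simp
      map_mul' := fun f g => rfl }
  map_one' := by ext f u; simp
  map_mul' s t := by
    ext f u
    simp [mul_assoc]

/-- the regular wreath product -/
abbrev RW (T H : Type) [Group T] [Group H] : Type := (T → H) ⋊[shT T H] T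

/-- the product of the components modulo the commutator subgroup -/
def prT (T H : Type) [Group T] [Fintype T] [Group H] : RW T H →* Abelianization H where
  toFun x := ∏ u : T, Abelianization.of (x.left u)
  map_one' := by simp
  map_mul' x y := by
    have h : ∀ u : T, (x * y).left u = x.left u * y.left (x.right⁻¹ * u) := fun u => rfl
    simp only [h, map_mul]
    rw [Finset.prod_mul_distrib]
    congr 1
    exact Equiv.prod_comp (Equiv.mulLeft x.right⁻¹) (fun u => Abelianization.of (y.left u))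

/-- the kernel of `prT` -/
def Gam (T H : Type) [Group T] [Fintype T] [Group H] : Subgroup (RW T H) := (prT T H).ker

/-- the base group -/
def Bas (T H : Type) [Group T] [Group H] : Subgroup (RW T H) :=
  (SemidirectProduct.inl : (T → H) →* RW T H).range

/-- `z ⊗ ⋯ ⊗ z` on the base group, extended by zero -/
def tenR {F : Type} [Field F] {T H : Type} [Group T] [Fintype T] [Group H] (z : H → F)
    (x : RW T H) : F :=
  if x.right = 1 then ∏ u : T, z (x.left u) else 0

/-- PERF -/
def S_PERF : Prop := ∀ (S : Type) [Group S] [Fintype S] [Nontrivial S], commutator S = ⊤ →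
  ∀ r : ℕ, 0 < r → ∀ (H : Type) [Group H] [Finite H], GenBy S (Gam (Fin r → S) H)

/-- GROW: the growth argument -/
def S_GROW : Prop := ∀ (a b h s : ℕ), 1 ≤ h → 2 ≤ s →
  (∃ D : ℕ → ℝ, ∀ ε : ℝ, 0 < ε → ∃ C : ℝ, ∀ k r : ℕ, 1 ≤ k → 1 ≤ r →
    (a : ℝ) ^ (k * s ^ r) ≤
      C * ((h : ℝ) ^ (k * s ^ r) * (s : ℝ) ^ r) ^ ε * 128 ^ (s ^ r) * D k *
        (b : ℝ) ^ (k * s ^ r)) → a ≤ b

end Pool.Agent.N85.AW
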