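import Pool.Agent.N85.AW.Stm

/-!
# WLO: weights and normal subgroups, lower bound
-/

set_option autoImplicit false

open scoped Classical BigOperators

noncomputable section

namespace Pool.Agent.N85.AW.Wlo

open Pool.Agent.Y63.NV Pool.Agent.N85.WM Pool.Agent.N85.AW

/-! ### arithmetic -/

theorem two_pow_clog {m : ℕ} (hm : 1 ≤ m) : 2 ^ Nat.clog 2 m ≤ 2 * m := by
  rcases Nat.eq_or_lt_of_le hm with h | h
  · rw [← h]; simp
  · have h1 := Nat.pow_pred_clog_lt_self (b := 2) (x := m) (by norm_num) h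
    have h2 : 0 < Nat.clog 2 m := Nat.clog_pos (by norm_num) h
    obtain ⟨k, hk⟩ : ∃ k, Nat.clog 2 m = k + 1 := ⟨Nat.clog 2 m - 1, by omega⟩
    rw [hk] at h1 ⊢
    rw [Nat.pred_succ] at h1
    rw [pow_succ]
    omega

theorem quad_le (k : ℕ) : k + (k + 1) ^ 2 ≤ 3 * 2 ^ k := by
  rcases Nat.lt_or_ge k 2 with h | h
  · interval_cases k <;> norm_num
  · induction k, h using Nat.le_induction with
    | base => norm_num
    | succ k hk ih =>
      have h1 : (2 : ℕ) ^ (k + 1) = 2 * 2 ^ k := by ring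
      rw [h1]
      nlinarith

theorem arith {m : ℕ} (hm : 1 ≤ m) : m * (m + 1) ^ (Nat.clog 2 m + 1) ≤ 64 ^ m := by
  set k := Nat.clog 2 m with hk
  have h1 : m ≤ 2 ^ k := Nat.le_pow_clog (by norm_num) m
  have h2 : 2 ^ k ≤ 2 * m := two_pow_clog hm
  have h3 : m + 1 ≤ 2 ^ (k + 1) := by
    rw [pow_succ]
    have : 1 ≤ 2 ^ k := Nat.one_le_two_pow
    omega
  have h4 := quad_le k
  calc m * (m + 1) ^ (k + 1) ≤ 2 ^ k * (2 ^ (k + 1)) ^ (k + 1) :=
        Nat.mul_le_mul h1 (Nat.pow_le_pow_left h3 _)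
    _ = 2 ^ (k + (k + 1) ^ 2) := by rw [← pow_mul, ← pow_add, sq]
    _ ≤ 2 ^ (6 * m) := Nat.pow_le_pow_right (by norm_num) (by omega)
    _ = 64 ^ m := by rw [pow_mul]; norm_num

/-! ### groups between -/

section grp

variable {K : Type} [Group K] [Finite K]

omit [Finite K] in
theorem eq_sup {p : ℕ} (hp : p.Prime) {E H E' : Subgroup K} (h1 : E ≤ H) (h2 : H ≤ E')
    (h3 : E.relIndex E' = p) (h4 : ¬ H ≤ E) : H = E' := by
  have h5 := Subgroup.relIndex_mul_relIndex E H E' h1 h2
  rw [h3] at h5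
  rcases (Nat.dvd_prime hp).1 (Dvd.intro _ h5) with h6 | h6
  · exact absurd (Subgroup.relIndex_eq_one.1 h6) h4
  · rw [h6] at h5
    have h7 : H.relIndex E' = 1 := by
      have := hp.pos
      exact Nat.eq_of_mul_eq_mul_left this (by rw [h5, mul_one])
    exact le_antisymm h2 (Subgroup.relIndex_eq_one.1 h7)

theorem card_over {p : ℕ} (hp : p.Prime) (M E : Subgroup K) (hME : M ≤ E) [Fintype (Subgroup K)] :
    (Finset.univ.filter fun E' : Subgroup K => E ≤ E' ∧ E.relIndex E' = p).card ≤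
      Nat.card (K ⧸ M) := by
  have : Fintype (K ⧸ M) := Fintype.ofFinite _
  rw [Nat.card_eq_fintype_card, ← Finset.card_univ]
  refine le_trans (Finset.card_le_card ?_) (Finset.card_image_le
    (f := fun q : K ⧸ M => E ⊔ Subgroup.zpowers q.out))
  intro E' hE'
  rw [Finset.mem_filter] at hE'
  obtain ⟨-, h1, h2⟩ := hE'
  have h3 : ¬ E' ≤ E := by
    intro h
    rw [Subgroup.relIndex_eq_one.2 h] at h2
    exact hp.one_lt.ne h2
  obtain ⟨g, hg1, hg2⟩ := SetLike.not_le_iff_exists.1 h3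
  rw [Finset.mem_image]
  refine ⟨(g : K ⧸ M), Finset.mem_univ _, ?_⟩
  obtain ⟨x, hx⟩ := QuotientGroup.mk_out_eq_mul M g
  have hxE : (x : K) ∈ E := hME x.2
  rw [hx]
  refine eq_sup hp le_sup_left ?_ h2 ?_
  · refine sup_le h1 ?_
    rw [Subgroup.zpowers_le]
    exact E'.mul_mem hg1 (h1 hxE)
  · intro h
    apply hg2
    have h4 : g * (x : K) ∈ E := h (Subgroup.mem_sup_right (Subgroup.mem_zpowers _))
    have h5 := E.mul_mem h4 (E.inv_mem hxE)
    rwa [mul_inv_cancel_right] at h5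

end grp

/-! ### the sums -/

section sums

variable {p : ℕ} {F : Type} [Field F] (red : integralClosure ℤ ℂ →+* F) {K : Type} [Group K]
  [Finite K] (M : Subgroup K) (z : K → F) (c : F)

/-- the sum of all `GD` -/
def G0 (p : ℕ) {F : Type} [Field F] (red : integralClosure ℤ ℂ →+* F) {K : Type} [Group K]
    (M : Subgroup K) (z : K → F) (c : F) : ℤ :=
  ∑ᶠ Q : Subgroup K, if IsPGroup p Q then
    (Nat.card (loc M Q) : ℤ) * gd p red M Q z c else 0

theorem g0_nonneg : 0 ≤ G0 p red M z c := by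
  have : Fintype (Subgroup K) := Fintype.ofFinite _
  unfold G0
  rw [finsum_eq_sum_of_fintype]
  refine Finset.sum_nonneg fun Q _ => ?_
  split_ifs
  · positivity
  · exact le_rfl

theorem gd_le (E : Subgroup K) : GD p red M E z c ≤ G0 p red M z c := by
  have : Fintype (Subgroup K) := Fintype.ofFinite _
  unfold GD G0
  rw [finsum_eq_sum_of_fintype, finsum_eq_sum_of_fintype]
  refine Finset.sum_le_sum fun Q _ => ?_
  by_cases h : IsPGroup p Q
  · rw [if_pos h]
    split_ifs
    · exact le_rfl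
    · positivity
  · rw [if_neg h, if_neg fun h' => h h'.1]

omit [Finite K] in
theorem wsum_eq : Wsum p red (⊤ : Subgroup K) ⊤ z c = ∑ᶠ Q : Subgroup K, if IsPGroup p Q then
    (Nat.card ↥(Subgroup.normalizer (Q : Set K)) : ℤ) *
      Nw p red (Q.subgroupOf (Subgroup.normalizer (Q : Set K))) (fun x => z x) c else 0 := by
  unfold Wsum
  refine finsum_congr fun Q => ?_
  rw [top_inf_eq]
  by_cases h : IsPGroup p Q
  · rw [if_pos h, if_pos ⟨h, le_top, top_sup_eq _⟩]
  · rw [if_neg h, if_neg fun h' => h h'.1]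

theorem wsum_nonneg : 0 ≤ Wsum p red (⊤ : Subgroup K) ⊤ z c := by
  have : Fintype (Subgroup K) := Fintype.ofFinite _
  rw [wsum_eq, finsum_eq_sum_of_fintype]
  refine Finset.sum_nonneg fun Q _ => ?_
  split_ifs
  · positivity
  · exact le_rfl

theorem g0_le [Fact p.Prime] [IsAlgClosed F] [CharP F p] (h2 : S_DDNK) [M.Normal]
    (hz : InZ M z) : G0 p red M z c ≤
      (Nat.card (K ⧸ M) : ℤ) * Wsum p red (⊤ : Subgroup K) ⊤ z c := by
  have : Fintype (Subgroup K) := Fintype.ofFinite _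
  rw [wsum_eq]
  unfold G0
  rw [finsum_eq_sum_of_fintype, finsum_eq_sum_of_fintype, Finset.mul_sum]
  refine Finset.sum_le_sum fun Q _ => ?_
  by_cases h : IsPGroup p Q
  · rw [if_pos h, if_pos h]
    have h3 := h2 p F red K M z c hz Q h
    have h4 : Nat.card (loc M Q) ≤ Nat.card ↥(Subgroup.normalizer (Q : Set K)) :=
      Nat.card_le_card_of_injective _ (Subgroup.inclusion_injective inf_le_right)
    have h5 := Nat.mul_le_mul h4 h3
    have h6 : ((Nat.card (loc M Q) * gd p red M Q z c : ℕ) : ℤ) ≤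
        ((Nat.card ↥(Subgroup.normalizer (Q : Set K)) * (Nat.card (K ⧸ M) *
          Nw p red (Q.subgroupOf (Subgroup.normalizer (Q : Set K))) (fun x => z x) c) : ℕ) : ℤ) := by
      exact_mod_cast h5
    push_cast at h6
    refine h6.trans (le_of_eq ?_)
    ring
  · rw [if_neg h, if_neg h, mul_zero]

theorem wc_le [Fact p.Prime] [CharP F p] (h1 : S_REC) [M.Normal] (hz : InZ M z) (i : ℕ) :
    ∀ E : Subgroup K, M ≤ E → E.index ≤ 2 ^ i →
      WC p red M E z c ≤ ((Nat.card (K ⧸ M) : ℤ) + 1) ^ (i + 1) * G0 p red M z c := by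
  have hp : p.Prime := Fact.out
  have : Fintype (Subgroup K) := Fintype.ofFinite _
  have hG := g0_nonneg (p := p) red M z c
  set m : ℤ := (Nat.card (K ⧸ M) : ℤ) with hm
  have hm0 : 0 ≤ m := by rw [hm]; positivity
  induction i with
  | zero =>
    intro E hME hi
    have h3 := h1 p F red K M E z c hz hME
    have h4 : (∑ᶠ E' : Subgroup K, if E ≤ E' ∧ (E.subgroupOf E').Normal ∧ E.relIndex E' = p then
        WC p red M E' z c else 0) = 0 := by
      rw [finsum_eq_sum_of_fintype]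
      refine Finset.sum_eq_zero fun E' _ => ?_
      rw [if_neg]
      rintro ⟨h5, -, h6⟩
      have h7 := Subgroup.relIndex_mul_index h5
      rw [h6] at h7
      have h8 : E.index ≠ 0 := Subgroup.index_ne_zero_of_finite
      have h9 : E'.index ≠ 0 := Subgroup.index_ne_zero_of_finite
      have h10 : E.index = 1 := by
        rw [pow_zero] at hi; omega
      rw [h10] at h7
      have := Nat.eq_one_of_mul_eq_one_right h7
      exact hp.one_lt.ne' this
    rw [h4, add_zero] at h3
    refine (h3.trans (gd_le red M z c E)).trans ?_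
    rw [zero_add, pow_one]
    nlinarith
  | succ i ih =>
    intro E hME hi
    have h3 := h1 p F red K M E z c hz hME
    have h4 : (∑ᶠ E' : Subgroup K, if E ≤ E' ∧ (E.subgroupOf E').Normal ∧ E.relIndex E' = p then
        WC p red M E' z c else 0) ≤ m * ((m + 1) ^ (i + 1) * G0 p red M z c) := by
      rw [finsum_eq_sum_of_fintype]
      have h5 : ∀ E' : Subgroup K, (if E ≤ E' ∧ (E.subgroupOf E').Normal ∧ E.relIndex E' = p then
          WC p red M E' z c else 0) ≤ if E ≤ E' ∧ E.relIndex E' = p then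
          (m + 1) ^ (i + 1) * G0 p red M z c else 0 := by
        intro E'
        have h0 : 0 ≤ (m + 1) ^ (i + 1) * G0 p red M z c := by positivity
        by_cases h6 : E ≤ E' ∧ E.relIndex E' = p
        · rw [if_pos h6]
          split_ifs
          · refine ih E' (hME.trans h6.1) ?_
            have h7 := Subgroup.relIndex_mul_index h6.1
            rw [h6.2] at h7
            have h8 := hp.two_le
            rw [pow_succ] at hi
            by_contra hc
            rw [not_le] at hc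
            have : 2 * (2 ^ i + 1) ≤ p * E'.index := Nat.mul_le_mul h8 hc
            omega
          · exact h0
        · rw [if_neg h6, if_neg fun h' => h6 ⟨h'.1, h'.2.2⟩]
      refine (Finset.sum_le_sum fun E' _ => h5 E').trans ?_
      rw [← Finset.sum_filter, Finset.sum_const, nsmul_eq_mul]
      refine mul_le_mul_of_nonneg_right ?_ (by positivity)
      rw [hm]
      exact_mod_cast card_over hp M E hME
    have h5 := gd_le (p := p) red M z c E
    have h6 : 1 ≤ (m + 1) ^ (i + 1) := one_le_pow₀ (by linarith)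
    calc WC p red M E z c ≤ G0 p red M z c + m * ((m + 1) ^ (i + 1) * G0 p red M z c) := by
          linarith
      _ ≤ (m + 1) ^ (i + 1) * G0 p red M z c + m * ((m + 1) ^ (i + 1) * G0 p red M z c) := by
          have := mul_le_mul_of_nonneg_right h6 hG
          linarith
      _ = (m + 1) ^ (i + 1 + 1) * G0 p red M z c := by ring

end sums

theorem main (h1 : S_REC) (h2 : S_DDNK) (h3 : S_LOC) : S_WLO := by
  intro p _ F _ _ _ red K _ _ M _ z c hz
  have h4 := h3 p F red K M M z c hz.conj le_rfl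
  rw [Subgroup.subgroupOf_self] at h4
  rw [← h4]
  have hm : 1 ≤ Nat.card (K ⧸ M) := Nat.one_le_iff_ne_zero.2 Nat.card_pos.ne'
  have h5 := wc_le red M z c h1 hz (Nat.clog 2 (Nat.card (K ⧸ M))) M le_rfl
    (Nat.le_pow_clog (by norm_num) _)
  refine h5.trans ?_
  have h6 := g0_le red M z c h2 hz
  have h7 := wsum_nonneg (p := p) red z c
  have h8 := arith hm
  have h9 : ((Nat.card (K ⧸ M) : ℤ)) * ((Nat.card (K ⧸ M) : ℤ) + 1) ^
      (Nat.clog 2 (Nat.card (K ⧸ M)) + 1) ≤ 64 ^ Nat.card (K ⧸ M) := by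
    exact_mod_cast h8
  calc ((Nat.card (K ⧸ M) : ℤ) + 1) ^ (Nat.clog 2 (Nat.card (K ⧸ M)) + 1) * G0 p red M z c
      ≤ ((Nat.card (K ⧸ M) : ℤ) + 1) ^ (Nat.clog 2 (Nat.card (K ⧸ M)) + 1) *
        ((Nat.card (K ⧸ M) : ℤ) * Wsum p red (⊤ : Subgroup K) ⊤ z c) :=
        mul_le_mul_of_nonneg_left h6 (by positivity)
    _ = ((Nat.card (K ⧸ M) : ℤ)) * ((Nat.card (K ⧸ M) : ℤ) + 1) ^
        (Nat.clog 2 (Nat.card (K ⧸ M)) + 1) * Wsum p red (⊤ : Subgroup K) ⊤ z c := by ring
    _ ≤ _ := mul_le_mul_of_nonneg_right h9 h7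

end Pool.Agent.N85.AW.Wlo
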