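import Pool.Agent.N85.AW.Stm
import Pool.Agent.N85.WM.Cov
import Pool.Agent.N85.WM.Ww
import Pool.Agent.N85.KM.A
import Pool.Agent.Y63.NV.PeL

/-!
# Weights and extensions by `p`-groups (project AWP of helper85; helper216)
-/

set_option autoImplicit false

open scoped Classical

noncomputable section

namespace Pool.Agent.N85.AW.Wpg

open Pool.Agent.Y63.NV Pool.Agent.N85.WM Pool.Agent.N85.AW
open Pool.Agent.N85.WM.Ww (tot isW_fin wsum_tot)

section

variable {p : ℕ} {F : Type} [Field F] (red : integralClosure ℤ ℂ →+* F)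

/-- the weights for `Q` form a finite set -/
theorem fin_w [Fact p.Prime] {H : Type} [Group H] [Finite H] (Q : Subgroup H) (z : H → F)
    (c : F) : Finite {χ : H → ℂ // IsW p Q χ ∧ wcv red Q χ z = c} := by
  have := isW_fin (p := p) (H := H)
  refine Finite.of_injective (β := {w : Subgroup H × (H → ℂ) // IsW p w.1 w.2})
    (fun χ => ⟨(Q, χ.1), χ.2.1⟩) ?_
  intro χ χ' h
  have := congrArg (fun w => w.1.2) h
  exact Subtype.ext this

theorem wsum_nonneg {H : Type} [Group H] [Finite H] (z : H → F) (c : F) :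
    0 ≤ Wsum p red (⊤ : Subgroup H) ⊤ z c := by
  rw [wsum_tot]
  unfold tot
  exact finsum_nonneg fun Q => by positivity

/-- one step -/
theorem step [Fact p.Prime] [CharP F p] {Y : Type} [Group Y] [Finite Y] (E : Subgroup Y)
    [E.Normal] (z : Y → F) (c : F) (hE : Nat.card (Y ⧸ E) = p) (hz : InZ E z) :
    Wsum p red (⊤ : Subgroup Y) ⊤ z c ≤ (p : ℤ) * Wsum p red (⊤ : Subgroup E) ⊤
      (fun x : E => z x) c := by
  have hp : (0 : ℤ) < p := by exact_mod_cast (Fact.out : p.Prime).pos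
  have hp1 : (1 : ℤ) ≤ p := by exact_mod_cast (Fact.out : p.Prime).one_le
  have h1 := pewL' p F red Y E z c hE hz
  have h2 := Pool.Agent.N85.WM.Cov.main p F red Y E z c hE hz
  have h3 : (∑ᶠ Q : Subgroup E, (Nat.card (Subgroup.normalizer (Q : Set E)) : ℤ) *
      Nat.card {χ : E → ℂ // IsW p Q χ ∧ wcv red Q χ (fun x : E => z x) = c ∧
        FixedOut E Q χ}) ≤ Wsum p red (⊤ : Subgroup E) ⊤ (fun x : E => z x) c := by
    rw [wsum_tot]
    unfold tot
    have : Fintype (Subgroup E) := Fintype.ofFinite _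
    rw [finsum_eq_sum_of_fintype, finsum_eq_sum_of_fintype]
    refine Finset.sum_le_sum fun Q _ => ?_
    refine mul_le_mul_of_nonneg_left ?_ (by positivity)
    have := fin_w (p := p) red Q (fun x : E => z x) c
    have h4 : Nat.card {χ : E → ℂ // IsW p Q χ ∧ wcv red Q χ (fun x : E => z x) = c ∧
        FixedOut E Q χ} ≤ Nat.card {χ : E → ℂ // IsW p Q χ ∧
          wcv red Q χ (fun x : E => z x) = c} := by
      refine Nat.card_le_card_of_injective (fun χ => ⟨χ.1, χ.2.1, χ.2.2.1⟩) ?_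
      intro χ χ' h
      simp only [Subtype.mk.injEq] at h
      exact Subtype.ext h
    exact_mod_cast h4
  have h5 := wsum_nonneg (p := p) red (fun x : E => z x) c
  have h6 : (p : ℤ) * Wsum p red (⊤ : Subgroup Y) ⊤ z c ≤
      p * (p * Wsum p red (⊤ : Subgroup E) ⊤ (fun x : E => z x) c) := by
    rw [h1, h2]
    have h7 := mul_le_mul_of_nonneg_left h3 (mul_nonneg (sub_nonneg.2 hp1) hp.le)
    nlinarith [h7]
  exact le_of_mul_le_mul_left h6 hp

/-- a normal subgroup of index `p` -/
theorem exists_E [Fact p.Prime] {Y : Type} [Group Y] [Finite Y] (M : Subgroup Y) [M.Normal]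
    (k : ℕ) (hM : Nat.card (Y ⧸ M) = p ^ (k + 1)) :
    ∃ E : Subgroup Y, E.Normal ∧ M ≤ E ∧ Nat.card (Y ⧸ E) = p := by
  have hp : p.Prime := Fact.out
  obtain ⟨H, hH⟩ := Sylow.exists_subgroup_card_pow_prime (G := Y ⧸ M) p (n := k) (by
    rw [hM]
    exact pow_dvd_pow p (Nat.le_succ k))
  have hidx : H.index = p := by
    have h1 := H.card_mul_index
    rw [hH, hM, pow_succ] at h1
    exact Nat.eq_of_mul_eq_mul_left (pow_pos hp.pos k) h1
  have hn : H.Normal := Subgroup.normal_of_index_eq_minFac_card (by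
    rw [hidx, hM, hp.pow_minFac (Nat.succ_ne_zero k)])
  refine ⟨H.comap (QuotientGroup.mk' M), inferInstance, QuotientGroup.le_comap_mk' M H, ?_⟩
  have h2 := Subgroup.index_comap_of_surjective H (QuotientGroup.mk'_surjective M)
  rw [hidx] at h2
  exact h2

theorem main_aux [Fact p.Prime] [CharP F p] (k : ℕ) : ∀ (Y : Type) [Group Y] [Finite Y]
    (M : Subgroup Y) [M.Normal] (z : Y → F) (c : F), Nat.card (Y ⧸ M) = p ^ k → InZ M z →
    Wsum p red (⊤ : Subgroup Y) ⊤ z c ≤
      (p : ℤ) ^ k * Wsum p red (⊤ : Subgroup M) ⊤ (fun x : M => z x) c := by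
  induction k with
  | zero =>
    intro Y _ _ M _ z c hM hz
    have hMt : M = ⊤ := Subgroup.index_eq_one.1 (by
      change Nat.card (Y ⧸ M) = 1
      rw [hM, pow_zero])
    subst hMt
    rw [pow_zero, one_mul]
    have h1 := Pool.Agent.N85.KM.wsum_iso (p := p) red (Subgroup.topEquiv (G := Y)) (z := z)
      hz.conj c
    exact h1.symm.le
  | succ k ih =>
    intro Y _ _ M _ z c hM hz
    have hp : p.Prime := Fact.out
    obtain ⟨E, hEn, hME, hE⟩ := exists_E (p := p) M k hM
    have hzE : InZ E z := ⟨hz.conj, fun x hx => hz.supp x fun h => hx (hME h)⟩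
    have h1 := step red E z c hE hzE
    have hM' : Nat.card (E ⧸ M.subgroupOf E) = p ^ k := by
      have h2 := Subgroup.relIndex_mul_index hME
      have h3 : M.index = p ^ (k + 1) := hM
      have h4 : E.index = p := hE
      rw [h3, h4, pow_succ] at h2
      exact Nat.eq_of_mul_eq_mul_right hp.pos h2
    have hzM : InZ (M.subgroupOf E) (fun x : E => z x) :=
      ⟨fun g x => hz.conj g x, fun x hx => hz.supp x fun h => hx h⟩
    have h2 := ih E (M.subgroupOf E) (fun x : E => z x) c hM' hzM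
    have h3 := Pool.Agent.N85.KM.wsum_iso (p := p) red (Subgroup.subgroupOfEquivOfLe hME)
      (z := fun x : M => z x) (fun g x => hz.conj g x) c
    have h4 : Wsum p red (⊤ : Subgroup (M.subgroupOf E)) ⊤ (fun x : M.subgroupOf E =>
        z ((x : E) : Y)) c = Wsum p red (⊤ : Subgroup M) ⊤ (fun x : M => z x) c := h3
    rw [h4] at h2
    have hp0 : (0 : ℤ) ≤ p := Int.natCast_nonneg p
    calc Wsum p red (⊤ : Subgroup Y) ⊤ z c ≤ _ := h1
      _ ≤ p * (p ^ k * Wsum p red (⊤ : Subgroup M) ⊤ (fun x : M => z x) c) :=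
        mul_le_mul_of_nonneg_left h2 hp0
      _ = _ := by ring

end

theorem main : S_WPG := by
  intro p _ F _ _ red Y _ _ M _ z c hp hz
  obtain ⟨k, hk⟩ := (IsPGroup.iff_card (p := p)).1 hp
  rw [hk]
  push_cast
  exact main_aux red k Y M z c hk hz

end Pool.Agent.N85.AW.Wpg
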