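import Pool.Agent.N85.AW.San

/-!
# Regular wreath products
-/

set_option autoImplicit false

open scoped Classical BigOperators

noncomputable section

namespace Pool.Agent.N85.AW

open Pool.Agent.Y63.NV Pool.Agent.N85.WM

section basics

variable {T H : Type} [Group T] [Group H]

theorem mem_bas {x : RW T H} : x ∈ Bas T H ↔ x.right = 1 := by
  unfold Bas
  rw [SemidirectProduct.range_inl_eq_ker_rightHom, MonoidHom.mem_ker]
  rfl

instance bas_normal : (Bas T H).Normal := by
  unfold Bas
  rw [SemidirectProduct.range_inl_eq_ker_rightHom]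
  infer_instance

instance gam_normal [Fintype T] : (Gam T H).Normal := by
  unfold Gam
  infer_instance

instance rw_finite [Finite T] [Finite H] : Finite (RW T H) :=
  Finite.of_equiv _ SemidirectProduct.equivProd.symm

theorem card_rw : Nat.card (RW T H) = Nat.card (T → H) * Nat.card T :=
  SemidirectProduct.card

theorem index_bas : (Bas T H).index = Nat.card T := by
  unfold Bas
  rw [SemidirectProduct.range_inl_eq_ker_rightHom, Subgroup.index_ker,
    MonoidHom.range_eq_top.2 SemidirectProduct.rightHom_surjective, Nat.card_congr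
      Subgroup.topEquiv.toEquiv]

theorem index_gam_le [Fintype T] [Finite H] :
    (Gam T H).index ≤ Nat.card (Abelianization H) := by
  have : Finite (Abelianization H) := inferInstanceAs (Finite (H ⧸ commutator H))
  unfold Gam
  rw [Subgroup.index_ker]
  exact Nat.card_le_card_of_injective _ Subtype.val_injective

/-- the isomorphism with the base group -/
def basE (T H : Type) [Group T] [Group H] : (T → H) ≃* Bas T H :=
  MonoidHom.ofInjective (f := (SemidirectProduct.inl : (T → H) →* RW T H))
    SemidirectProduct.inl_injective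

theorem basE_coe (x : T → H) : ((basE T H x : Bas T H) : RW T H) = SemidirectProduct.inl x := rfl

/-- the indices -/
theorem rel1 [Fintype T] [Finite H] :
    Nat.card (Bas T H ⧸ (Gam T H).subgroupOf (Bas T H)) ≤ Nat.card (Abelianization H) := by
  have h1 : (Gam T H).relIndex (Bas T H) ∣ (Gam T H).index :=
    Subgroup.relIndex_dvd_index_of_normal _ _
  exact (Nat.le_of_dvd (Nat.pos_of_ne_zero Subgroup.index_ne_zero_of_finite) h1).trans
    index_gam_le

theorem rel2 [Fintype T] [Finite H] :
    Nat.card (Gam T H ⧸ (Bas T H).subgroupOf (Gam T H)) ≤ Nat.card T := by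
  have h1 : (Bas T H).relIndex (Gam T H) ∣ (Bas T H).index :=
    Subgroup.relIndex_dvd_index_of_normal _ _
  exact (Nat.le_of_dvd (Nat.pos_of_ne_zero Subgroup.index_ne_zero_of_finite) h1).trans
    (le_of_eq index_bas)

theorem card_gam_le [Fintype T] [Finite H] :
    Nat.card (Gam T H) ≤ Nat.card (T → H) * Nat.card T := by
  rw [← card_rw]
  exact Nat.card_le_card_of_injective _ Subtype.val_injective

theorem le_card_gam [Fintype T] [Finite H] :
    Nat.card (T → H) * Nat.card T ≤ Nat.card (Gam T H) * Nat.card (Abelianization H) := by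
  rw [← card_rw, ← (Gam T H).card_mul_index]
  exact Nat.mul_le_mul_left _ index_gam_le

theorem inZ_tenR [Fintype T] {F : Type} [Field F] {z : H → F} (hz : IsClassFun z)
    (hs : ∀ x : H, x ∉ commutator H → z x = 0) :
    InZ (Bas T H ⊓ Gam T H) (tenR z : RW T H → F) where
  conj := by
    intro g x
    unfold tenR
    have hr : (g * x * g⁻¹).right = g.right * x.right * g.right⁻¹ := by
      simp only [SemidirectProduct.mul_right, SemidirectProduct.inv_right]
    rw [hr]
    by_cases hx : x.right = 1
    · have hx1 : g.right * x.right * g.right⁻¹ = 1 := by rw [hx]; group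
      rw [if_pos hx, if_pos hx1]
      have hl : ∀ u, (g * x * g⁻¹).left u =
          g.left u * x.left (g.right⁻¹ * u) * (g.left u)⁻¹ := by
        intro u
        simp only [SemidirectProduct.mul_left, SemidirectProduct.inv_left,
          SemidirectProduct.mul_right, hx, mul_one, Pi.mul_apply]
        change g.left u * x.left (g.right⁻¹ * u) *
          (g.left (g.right⁻¹⁻¹ * (g.right⁻¹ * u)))⁻¹ = _
        congr 3
        group
      have hl' : ∀ u, z ((g * x * g⁻¹).left u) = z (x.left (g.right⁻¹ * u)) := fun u => by
        rw [hl]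
        exact hz _ _
      rw [Finset.prod_congr rfl fun u _ => hl' u]
      exact Equiv.prod_comp (Equiv.mulLeft g.right⁻¹) (fun u => z (x.left u))
    · have hx1 : ¬ g.right * x.right * g.right⁻¹ = 1 := by
        intro h
        apply hx
        have := congrArg (fun y => g.right⁻¹ * y * g.right) h
        simpa [mul_assoc] using this
      rw [if_neg hx, if_neg hx1]
  supp := by
    intro x hx
    unfold tenR
    by_cases h1 : x.right = 1
    · rw [if_pos h1]
      have h2 : x ∉ Gam T H := fun h => hx ⟨mem_bas.2 h1, h⟩
      have h3 : ∃ u : T, x.left u ∉ commutator H := by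
        by_contra hcon
        push Not at hcon
        apply h2
        unfold Gam
        rw [MonoidHom.mem_ker]
        change ∏ u : T, Abelianization.of (x.left u) = 1
        refine Finset.prod_eq_one fun u _ => ?_
        have := hcon u
        rwa [← Abelianization.ker_of, MonoidHom.mem_ker] at this
      obtain ⟨u, hu⟩ := h3
      exact Finset.prod_eq_zero (Finset.mem_univ u) (hs _ hu)
    · rw [if_neg h1]

end basics

/-! ### powers -/

section pow

variable {T H : Type} [Group T] [Fintype T] [Group H] {F : Type} [Field F] {k : ℕ}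

theorem cl_tens {z : H → F} (hz : IsClassFun z) :
    IsClassFun (tensF (fun _ : Fin k => z)) := by
  intro g x
  unfold tensF
  exact Finset.prod_congr rfl fun i _ => hz (g i) (x i)

theorem supp_tens {z : H → F} (hs : ∀ x : H, x ∉ commutator H → z x = 0)
    (x : Fin k → H) (hx : x ∉ commutator (Fin k → H)) : tensF (fun _ : Fin k => z) x = 0 := by
  have h1 : commutator (Fin k → H) = Subgroup.pi Set.univ fun _ => commutator H := by
    have h2 := Subgroup.commutator_pi_pi_of_finite (η := Fin k) (Gs := fun _ => H)
      (fun _ => ⊤) (fun _ => ⊤)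
    rw [Subgroup.pi_top] at h2
    exact h2
  have h3 : ∃ j, x j ∉ commutator H := by
    by_contra hcon
    push Not at hcon
    apply hx
    rw [h1, Subgroup.mem_pi]
    exact fun j _ => hcon j
  obtain ⟨j, hj⟩ := h3
  exact Finset.prod_eq_zero (Finset.mem_univ j) (hs _ hj)

/-- the class function on the wreath product -/
abbrev ten (T : Type) [Group T] [Fintype T] (k : ℕ) (z : H → F) : RW T (Fin k → H) → F :=
  tenR (tensF fun _ : Fin k => z)

theorem inZ_ten {z : H → F} (hz : IsClassFun z) (hs : ∀ x : H, x ∉ commutator H → z x = 0) :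
    InZ (Bas T (Fin k → H) ⊓ Gam T (Fin k → H)) (ten T k z) :=
  inZ_tenR (cl_tens hz) (supp_tens hs)

/-- currying -/
def curE (T H : Type) [Group T] [Group H] (k : ℕ) : (T × Fin k → H) ≃* (T → Fin k → H) where
  toFun f t j := f (t, j)
  invFun f i := f i.1 i.2
  left_inv _ := rfl
  right_inv _ := rfl
  map_mul' _ _ := rfl

theorem ten_cur (z : H → F) (x : T × Fin k → H) :
    ten T k z (basE T (Fin k → H) (curE T H k x) : Bas T (Fin k → H)) =
      tensF (fun _ : T × Fin k => z) x := by
  rw [basE_coe]
  unfold ten tenR tensF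
  rw [if_pos (by simp), Fintype.prod_prod_type]
  simp only [SemidirectProduct.left_inl]
  rfl

variable [IsAlgClosed F] [Finite H]

theorem lnum_bas (p : ℕ) [Fact p.Prime] [CharP F p] {z : H → F} (hz : IsIdem z) :
    Lnum (⊤ : Subgroup (Bas T (Fin k → H))) ⊤ (fun x : Bas T (Fin k → H) => ten T k z x) 1 =
      (Lnum (⊤ : Subgroup H) ⊤ z 1) ^ (Nat.card T * k) := by
  rw [← Pool.Agent.N85.KM.lnum_iso ((curE T H k).trans (basE T (Fin k → H)))
    (fun x : Bas T (Fin k → H) => ten T k z x) 1]
  have h1 : (fun x : T × Fin k → H => (fun y : Bas T (Fin k → H) => ten T k z y)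
      (((curE T H k).trans (basE T (Fin k → H))) x)) = tensF fun _ : T × Fin k => z :=
    funext fun x => ten_cur z x
  rw [h1, powL p hz, Fintype.card_prod, Fintype.card_fin, Nat.card_eq_fintype_card]

theorem wsum_bas (p : ℕ) [Fact p.Prime] [CharP F p] (red : integralClosure ℤ ℂ →+* F) {z : H → F}
    (hz : IsIdem z) :
    Wsum p red (⊤ : Subgroup (Bas T (Fin k → H))) ⊤
        (fun x : Bas T (Fin k → H) => ten T k z x) 1 =
      (Nat.card (T → Fin k → H) : ℤ) *
        (Nat.card {y : YS p H // cvS red y z = 1} : ℤ) ^ (Nat.card T * k) := by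
  have hc : IsClassFun (fun x : Bas T (Fin k → H) => ten T k z x) := by
    intro g x
    have hr : ∀ y : Bas T (Fin k → H), (y : RW T (Fin k → H)).right = 1 := fun y =>
      mem_bas.1 y.2
    obtain ⟨g', rfl⟩ := (basE T (Fin k → H)).surjective g
    obtain ⟨x', rfl⟩ := (basE T (Fin k → H)).surjective x
    rw [← map_inv, ← map_mul, ← map_mul]
    obtain ⟨g, rfl⟩ := (curE T H k).surjective g'
    obtain ⟨x, rfl⟩ := (curE T H k).surjective x'
    rw [← map_inv, ← map_mul, ← map_mul]
    change ten T k z (basE T (Fin k → H) (curE T H k (g * x * g⁻¹)) : Bas T (Fin k → H)) =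
      ten T k z (basE T (Fin k → H) (curE T H k x) : Bas T (Fin k → H))
    rw [ten_cur, ten_cur]
    unfold tensF
    exact Finset.prod_congr rfl fun i _ => hz.cl (g i) (x i)
  rw [← Pool.Agent.N85.KM.wsum_iso (p := p) red ((curE T H k).trans (basE T (Fin k → H))) hc 1]
  have h1 : (fun x : T × Fin k → H => (fun y : Bas T (Fin k → H) => ten T k z y)
      (((curE T H k).trans (basE T (Fin k → H))) x)) = tensF fun _ : T × Fin k => z :=
    funext fun x => ten_cur z x
  rw [h1, powW p red hz, wsum_top red hz.cl, mul_pow, Fintype.card_prod, Fintype.card_fin,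
    Nat.card_eq_fintype_card (α := T)]
  congr 1
  rw [Nat.card_fun, Nat.card_fun, Nat.card_eq_fintype_card (α := T),
    Nat.card_eq_fintype_card (α := Fin k), Fintype.card_fin]
  push_cast
  rw [← pow_mul, mul_comm]

end pow

end Pool.Agent.N85.AW
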