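import Pool.Agent.N85.AW.Stm
import Pool.Agent.N85.KM.A

/-!
# Project AWP (helper85), part WUP: weights and normal subgroups, upper bound (by helper273)
-/

set_option autoImplicit false

open scoped Classical BigOperators Pointwise

noncomputable section

namespace Pool.Agent.N85.AW.Wup

open Pool.Agent.Y63.NV Pool.Agent.N85.WM Pool.Agent.N85.AW

section gen

variable {p : ℕ} {F : Type} [Field F] (red : integralClosure ℤ ℂ →+* F)

theorem wsum_nonneg {K : Type} [Group K] (G H : Subgroup K) (z : K → F) (c : F) :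
    0 ≤ Wsum p red G H z c := by
  unfold Wsum
  refine finsum_nonneg fun Q => ?_
  split_ifs
  · positivity
  · exact le_rfl

theorem wsum_le_top {K : Type} [Group K] [Finite K] (G : Subgroup K) (z : K → F) (c : F) :
    Wsum p red G ⊤ z c ≤ Wsum p red ⊤ ⊤ z c := by
  unfold Wsum
  have : Fintype (Subgroup K) := Fintype.ofFinite _
  rw [finsum_eq_sum_of_fintype, finsum_eq_sum_of_fintype]
  refine Finset.sum_le_sum fun Q _ => ?_
  by_cases h : IsPGroup p Q
  · rw [if_pos (⟨h, le_top, top_sup_eq _⟩ : IsPGroup p Q ∧ Q ≤ ⊤ ∧ (⊤ : Subgroup K) ⊔ Q = ⊤)]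
    split_ifs
    · exact le_rfl
    · positivity
  · rw [if_neg (fun h' => h h'.1), if_neg (fun h' => h h'.1)]

theorem wsum_eq {K : Type} [Group K] (z : K → F) (c : F) :
    Wsum p red (⊤ : Subgroup K) ⊤ z c = ∑ᶠ Q : Subgroup K, if IsPGroup p Q then
      (Nat.card ↥(Subgroup.normalizer (Q : Set K)) : ℤ) *
        Nw p red (Q.subgroupOf (Subgroup.normalizer (Q : Set K))) (fun x => z x) c else 0 := by
  unfold Wsum
  refine finsum_congr fun Q => ?_
  rw [top_inf_eq]
  by_cases h : IsPGroup p Q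
  · rw [if_pos h, if_pos ⟨h, le_top, top_sup_eq _⟩]
  · rw [if_neg h, if_neg fun h' => h h'.1]

theorem card_norm {K : Type} [Group K] [Finite K] (M Q : Subgroup K) :
    Nat.card ↥(Subgroup.normalizer (Q : Set K)) ≤ Nat.card (K ⧸ M) * Nat.card (loc M Q) := by
  have h1 : loc M Q ≤ Subgroup.normalizer (Q : Set K) := inf_le_right
  have h2 := Subgroup.relIndex_mul_relIndex ⊥ (loc M Q) _ bot_le h1
  rw [Subgroup.relIndex_bot_left, Subgroup.relIndex_bot_left, Subgroup.inf_relIndex_right] at h2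
  have h3 : (M ⊔ Q).relIndex (Subgroup.normalizer (Q : Set K)) ≤ Nat.card (K ⧸ M) := by
    have h4 := Subgroup.relIndex_mul_index (le_sup_left : M ≤ M ⊔ Q)
    have h5 : (M ⊔ Q).relIndex (Subgroup.normalizer (Q : Set K)) ≤ (M ⊔ Q).index := by
      rw [← Subgroup.relIndex_top_right]
      refine Subgroup.relIndex_le_of_le_right le_top ?_
      rw [Subgroup.relIndex_top_right]
      exact Subgroup.FiniteIndex.index_ne_zero
    have h6 : (M ⊔ Q).index ≤ M.index := by
      rw [← h4]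
      exact Nat.le_mul_of_pos_left _ (Nat.pos_of_ne_zero Subgroup.FiniteIndex.index_ne_zero)
    exact h5.trans h6
  rw [← h2, mul_comm]
  exact Nat.mul_le_mul_right _ h3

theorem relIndex_le {K : Type} [Group K] [Finite K] {M E : Subgroup K} (h : M ≤ E) :
    Nat.card (E ⧸ M.subgroupOf E) ≤ Nat.card (K ⧸ M) := by
  have h4 := Subgroup.relIndex_mul_index h
  change M.relIndex E ≤ M.index
  rw [← h4]
  exact Nat.le_mul_of_pos_right _ (Nat.pos_of_ne_zero Subgroup.FiniteIndex.index_ne_zero)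

/-- `MQ/M` is a `p`-group -/
theorem pgroup_quot {K : Type} [Group K] (M Q : Subgroup K) [M.Normal] (hQ : IsPGroup p Q) :
    IsPGroup p (↥(M ⊔ Q) ⧸ M.subgroupOf (M ⊔ Q)) := by
  let f : Q →* ↥(M ⊔ Q) ⧸ M.subgroupOf (M ⊔ Q) :=
    (QuotientGroup.mk' _).comp (Subgroup.inclusion le_sup_right)
  refine hQ.of_surjective f ?_
  intro y
  obtain ⟨⟨x, hx⟩, rfl⟩ := QuotientGroup.mk'_surjective _ y
  have h1 : x ∈ ((M : Set K) * (Q : Set K)) := by
    rw [← Subgroup.normal_mul]
    exact hx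
  obtain ⟨m, hm, q, hq, rfl⟩ := h1
  refine ⟨⟨q, hq⟩, ?_⟩
  change ((QuotientGroup.mk _ : ↥(M ⊔ Q) ⧸ M.subgroupOf (M ⊔ Q))) = QuotientGroup.mk _
  rw [QuotientGroup.eq, Subgroup.mem_subgroupOf]
  change q⁻¹ * (m * q) ∈ M
  have h2 := (inferInstance : M.Normal).conj_mem m hm q⁻¹
  rwa [inv_inv, mul_assoc] at h2

theorem inz_sub {K : Type} [Group K] {M : Subgroup K} (E : Subgroup K) {z : K → F}
    (hz : InZ M z) : InZ (M.subgroupOf E) (fun x : E => z x) where
  conj g x := hz.conj g x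
  supp x hx := hz.supp x hx

theorem cl_sub {K : Type} [Group K] {M : Subgroup K} (E : Subgroup K) {z : K → F}
    (hz : InZ M z) : IsClassFun (fun x : E => z x) := fun g x => hz.conj g x

/-- transport to `M` -/
theorem wsum_sub {K : Type} [Group K] [Finite K] {M E : Subgroup K} (h : M ≤ E) {z : K → F}
    (hz : InZ M z) (c : F) :
    Wsum p red (⊤ : Subgroup (M.subgroupOf E)) ⊤ (fun x => z x) c =
      Wsum p red (⊤ : Subgroup M) ⊤ (fun x : M => z x) c :=
  Pool.Agent.N85.KM.wsum_iso (p := p) red (Subgroup.subgroupOfEquivOfLe h)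
    (z := fun x : M => z x) (cl_sub M hz) c

/-- the number of the subgroups which contain `M` -/
theorem card_above {K : Type} [Group K] [Finite K] (M : Subgroup K) [M.Normal] :
    Nat.card {E : Subgroup K // M ≤ E} ≤ 2 ^ Nat.card (K ⧸ M) := by
  have : Fintype (K ⧸ M) := Fintype.ofFinite _
  have e := QuotientGroup.comapMk'OrderIso M
  rw [← Nat.card_congr e.toEquiv]
  have h1 : Nat.card (Subgroup (K ⧸ M)) ≤ Nat.card (Set (K ⧸ M)) :=
    Nat.card_le_card_of_injective (fun H : Subgroup (K ⧸ M) => (H : Set (K ⧸ M)))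
      SetLike.coe_injective
  refine h1.trans (le_of_eq ?_)
  rw [Nat.card_eq_fintype_card, Fintype.card_set, Nat.card_eq_fintype_card]

theorem wc_nonneg_of {K : Type} [Group K] [Finite K] (M : Subgroup K) [M.Normal] (z : K → F)
    (c : F) : 0 ≤ (Nat.card (K ⧸ M) : ℤ) * Wsum p red (⊤ : Subgroup M) ⊤ (fun x : M => z x) c :=
  mul_nonneg (Int.natCast_nonneg _) (wsum_nonneg red _ _ _ _)

end gen

theorem wc_le (h2 : S_LOC) (h3 : S_WPG) {p : ℕ} [Fact p.Prime] {F : Type} [Field F] [CharP F p]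
    (red : integralClosure ℤ ℂ →+* F) {K : Type} [Group K] [Finite K] (M E : Subgroup K)
    [M.Normal] {z : K → F} (hz : InZ M z) (c : F) :
    WC p red M E z c ≤ if M ≤ E then
      (Nat.card (K ⧸ M) : ℤ) * Wsum p red (⊤ : Subgroup M) ⊤ (fun x : M => z x) c else 0 := by
  by_cases hQ : ∃ Q : Subgroup K, IsPGroup p Q ∧ M ⊔ Q = E
  · obtain ⟨Q, hQ, rfl⟩ := hQ
    have hle : M ≤ M ⊔ Q := le_sup_left
    rw [if_pos hle, h2 p F red K M (M ⊔ Q) z c hz.conj hle]
    refine (wsum_le_top red _ _ _).trans ?_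
    refine (h3 p F red ↥(M ⊔ Q) (M.subgroupOf (M ⊔ Q)) (fun x => z x) c (pgroup_quot M Q hQ)
      (inz_sub _ hz)).trans ?_
    have e := wsum_sub (p := p) red hle hz c
    rw [e]
    refine mul_le_mul_of_nonneg_right ?_ (wsum_nonneg red _ _ _ _)
    exact_mod_cast relIndex_le hle
  · have h0 : WC p red M E z c = 0 := by
      unfold WC
      refine finsum_eq_zero_of_forall_eq_zero fun Q => ?_
      rw [if_neg fun h => hQ ⟨Q, h⟩]
    rw [h0]
    split_ifs
    · exact wc_nonneg_of red M z c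
    · exact le_rfl

/-- **WUP** -/
theorem main (h1 : S_DUPK) (h2 : S_LOC) (h3 : S_WPG) : S_WUP := by
  intro p _ F _ _ _ red K _ _ M _ z c hz
  have : Fintype (Subgroup K) := Fintype.ofFinite _
  obtain ⟨m, hm⟩ : ∃ m, m = Nat.card (K ⧸ M) := ⟨_, rfl⟩
  obtain ⟨W, hW⟩ : ∃ W, W = Wsum p red (⊤ : Subgroup M) ⊤ (fun x : M => z x) c := ⟨_, rfl⟩
  have hW0 : 0 ≤ W := by
    rw [hW]
    exact wsum_nonneg red _ _ _ _
  let b : Subgroup K → ℤ := fun Q =>
    (Nat.card (loc M Q) : ℤ) * Nw p red (Q.subgroupOf (loc M Q)) (fun x => z x) c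
  have e1 : Wsum p red (⊤ : Subgroup K) ⊤ z c ≤
      ∑ Q : Subgroup K, (m : ℤ) ^ 2 * if IsPGroup p Q then b Q else 0 := by
    rw [wsum_eq, finsum_eq_sum_of_fintype]
    refine Finset.sum_le_sum fun Q _ => ?_
    by_cases hQ : IsPGroup p Q
    · rw [if_pos hQ, if_pos hQ]
      have g1 := h1 p F red K M z c hz Q hQ
      have g2 := card_norm M Q
      rw [← hm] at g1 g2
      have g3 := Nat.mul_le_mul g2 g1
      have g4 : ((Nat.card ↥(Subgroup.normalizer (Q : Set K)) *
          Nw p red (Q.subgroupOf (Subgroup.normalizer (Q : Set K))) (fun x => z x) c : ℕ) : ℤ) ≤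
          ((m * Nat.card (loc M Q) * (m * Nw p red (Q.subgroupOf (loc M Q))
            (fun x => z x) c) : ℕ) : ℤ) := by exact_mod_cast g3
      refine le_trans (le_of_eq (by push_cast; rfl)) (g4.trans (le_of_eq ?_))
      simp only [b]
      push_cast
      ring
    · rw [if_neg hQ, if_neg hQ, mul_zero]
  have e2 : ∑ Q : Subgroup K, (if IsPGroup p Q then b Q else 0) =
      ∑ E : Subgroup K, WC p red M E z c := by
    have h4 : ∀ E : Subgroup K, WC p red M E z c =
        ∑ Q : Subgroup K, if IsPGroup p Q ∧ M ⊔ Q = E then b Q else 0 := by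
      intro E
      unfold WC
      rw [finsum_eq_sum_of_fintype]
    simp_rw [h4]
    rw [Finset.sum_comm]
    refine Finset.sum_congr rfl fun Q _ => ?_
    by_cases hQ : IsPGroup p Q
    · simp [hQ]
    · simp [hQ]
  have e3 : ∑ E : Subgroup K, WC p red M E z c ≤ (2 : ℤ) ^ m * (m * W) := by
    have h4 : ∑ E : Subgroup K, WC p red M E z c ≤
        ∑ E : Subgroup K, if M ≤ E then (m : ℤ) * W else 0 := by
      refine Finset.sum_le_sum fun E _ => ?_
      have := wc_le h2 h3 red M E hz c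
      rw [← hm, ← hW] at this
      exact this
    refine h4.trans ?_
    rw [← Finset.sum_filter, Finset.sum_const, nsmul_eq_mul]
    refine mul_le_mul_of_nonneg_right ?_ (by positivity)
    have h5 := card_above M
    rw [← hm, Nat.card_eq_fintype_card, Fintype.card_subtype] at h5
    exact_mod_cast h5
  have e4 : Wsum p red (⊤ : Subgroup K) ⊤ z c ≤ (m : ℤ) ^ 2 * ((2 : ℤ) ^ m * (m * W)) := by
    refine e1.trans ?_
    rw [← Finset.mul_sum, e2]
    exact mul_le_mul_of_nonneg_left e3 (by positivity)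
  have e5 : (m : ℤ) ≤ 2 ^ m := by exact_mod_cast Nat.lt_two_pow_self.le
  have e6 : (m : ℤ) ^ 2 * ((2 : ℤ) ^ m * (m * W)) ≤ 64 ^ m * W := by
    have h6 : (m : ℤ) ^ 3 ≤ (2 ^ m) ^ 3 := pow_le_pow_left₀ (Int.natCast_nonneg _) e5 3
    have h7 : (2 : ℤ) ^ m * (2 ^ m) ^ 3 ≤ 64 ^ m := by
      have h8 : (2 : ℤ) ^ m * (2 ^ m) ^ 3 = 16 ^ m := by
        rw [← pow_mul, mul_comm m 3, pow_mul, ← mul_pow]
        norm_num
      rw [h8]
      exact pow_le_pow_left₀ (by norm_num) (by norm_num) _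
    calc (m : ℤ) ^ 2 * ((2 : ℤ) ^ m * (m * W)) = (2 ^ m * (m : ℤ) ^ 3) * W := by ring
      _ ≤ (2 ^ m * (2 ^ m) ^ 3) * W :=
          mul_le_mul_of_nonneg_right (mul_le_mul_of_nonneg_left h6 (by positivity)) hW0
      _ ≤ _ := mul_le_mul_of_nonneg_right h7 hW0
  rw [← hm, ← hW]
  exact e4.trans e6

end Pool.Agent.N85.AW.Wup
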